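import Pool.Agent.MP_1c0fc2_co.RI.Defs

open Function SimpleGraph

namespace Pool.Agent.MP_1c0fc2_co.RI

variable {V W : Type} {G G' J : SimpleGraph V} {Q Q' Z S : Set V}

theorem xcn_rel {r p : V → V → Prop} {a b : V} (h : Relation.ReflTransGen r a b)
    (hrp : ∀ u v, r u v → p u v) : Relation.ReflTransGen p a b := by
  induction h with
  | refl => exact .refl
  | tail _ huv ih => exact ih.tail (hrp _ _ huv)

theorem xcn_symm {a b : V}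
    (h : Relation.ReflTransGen (fun u v => u ∈ Q ∧ v ∈ Q ∧ G.Adj u v) a b) :
    Relation.ReflTransGen (fun u v => u ∈ Q ∧ v ∈ Q ∧ G.Adj u v) b a := by
  induction h with
  | refl => exact .refl
  | tail _ huv ih => exact .head ⟨huv.2.1, huv.1, huv.2.2.symm⟩ ih

theorem xcn_mono {a b : V}
    (h : Relation.ReflTransGen (fun u v => u ∈ Q ∧ v ∈ Q ∧ G.Adj u v) a b) (hQ : Q ⊆ Q') :
    Relation.ReflTransGen (fun u v => u ∈ Q' ∧ v ∈ Q' ∧ G.Adj u v) a b :=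
  xcn_rel h fun _ _ huv => ⟨hQ huv.1, hQ huv.2.1, huv.2.2⟩

theorem xcn_third (h : TwoC J) (a b : V) : ∃ c ∈ J.support, c ≠ a ∧ c ≠ b := by
  by_contra hn
  have h1 : J.support ⊆ {a, b} := fun c hc => by
    by_contra h2
    exact hn ⟨c, hc, fun e => h2 (Or.inl e), fun e => h2 (Or.inr e)⟩
  have h2 := Set.ncard_le_ncard h1 (Set.toFinite _)
  have h3 := Set.ncard_insert_le a ({b} : Set V)
  rw [Set.ncard_singleton] at h3
  have := h.1
  omega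

theorem Cn.mono' (h : Cn G Q) (hle : ∀ a ∈ Q, ∀ b ∈ Q, G.Adj a b → G'.Adj a b) : Cn G' Q := by
  exact fun a ha b hb => xcn_rel (h a ha b hb) fun u v ⟨hu, hv, huv⟩ =>
    ⟨hu, hv, hle u hu v hv huv⟩

theorem Cn.mono (h : Cn G Q) (hle : G ≤ G') : Cn G' Q := by
  exact h.mono' fun _ _ _ _ hab => hle hab

theorem cn_of_subsingleton (h : Q.Subsingleton) : Cn G Q := by
  intro a ha b hb
  rw [h ha hb]

theorem cn_of_root (r : V) (h : ∀ a ∈ Q,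
    Relation.ReflTransGen (fun u v => u ∈ Q ∧ v ∈ Q ∧ G.Adj u v) r a) : Cn G Q := by
  exact fun a ha b hb => (xcn_symm (h a ha)).trans (h b hb)

theorem Cn.union (h : Cn G Q) (h' : Cn G Q') (hn : (Q ∩ Q').Nonempty) : Cn G (Q ∪ Q') := by
  obtain ⟨r, hr, hr'⟩ := hn
  refine cn_of_root r fun a ha => ?_
  rcases ha with ha | ha
  · exact xcn_mono (h r hr a ha) Set.subset_union_left
  · exact xcn_mono (h' r hr' a ha) Set.subset_union_right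

theorem Cn.union_adj (h : Cn G Q) (h' : Cn G Q') {a b : V} (ha : a ∈ Q) (hb : b ∈ Q')
    (hab : G.Adj a b) : Cn G (Q ∪ Q') := by
  refine cn_of_root a fun c hc => ?_
  rcases hc with hc | hc
  · exact xcn_mono (h a ha c hc) Set.subset_union_left
  · exact Relation.ReflTransGen.head ⟨Or.inl ha, Or.inr hb, hab⟩
      (xcn_mono (h' b hb c hc) Set.subset_union_right)

theorem Cn.insert (h : Cn G Q) {x : V} (hx : At G Q x) : Cn G (insert x Q) := by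
  obtain ⟨y, hy, hxy⟩ := hx
  rw [Set.insert_eq]
  exact (cn_of_subsingleton Set.subsingleton_singleton).union_adj h rfl hy hxy

theorem Cn.image {G'' : SimpleGraph W} (h : Cn G Q) (f : V → W)
    (hf : ∀ a ∈ Q, ∀ b ∈ Q, G.Adj a b → f a = f b ∨ G''.Adj (f a) (f b)) : Cn G'' (f '' Q) := by
  rintro _ ⟨a, ha, rfl⟩ _ ⟨b, hb, rfl⟩
  have h1 := h a ha b hb
  clear hb
  induction h1 with
  | refl => exact .refl
  | tail _ huv ih =>
    obtain ⟨hu, hv, huv⟩ := huv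
    rcases hf _ hu _ hv huv with e | e
    · rwa [← e]
    · exact ih.tail ⟨⟨_, hu, rfl⟩, ⟨_, hv, rfl⟩, e⟩

theorem Cn.closed (h : Cn G Q) {P : Set V} {a : V} (ha : a ∈ Q) (haP : a ∈ P)
    (hc : ∀ x ∈ Q, x ∈ P → ∀ y ∈ Q, G.Adj x y → y ∈ P) : Q ⊆ P := by
  intro b hb
  have h1 := h a ha b hb
  clear hb
  induction h1 with
  | refl => exact haP
  | tail _ huv ih => exact hc _ huv.1 ih _ huv.2.1 huv.2.2

theorem Cn.reach (h : Cn G Q) {a b : V} (ha : a ∈ Q) (hb : b ∈ Q) : G.Reachable a b := by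
  rw [SimpleGraph.reachable_iff_reflTransGen]
  exact xcn_rel (h a ha b hb) fun _ _ huv => huv.2.2

theorem Cn.sub_support (h : Cn G Q) {x : V} (hx : At G Q x) : Q ⊆ G.support := by
  obtain ⟨y, hy, hxy⟩ := hx
  exact h.closed hy ⟨x, hxy.symm⟩ fun u _ _ _ _ huv => ⟨u, huv.symm⟩

/-- the component of `x` inside `Z` -/
theorem exists_comp (G : SimpleGraph V) (Z : Set V) {x : V} (hx : x ∈ Z) :
    ∃ Q, x ∈ Q ∧ Q ⊆ Z ∧ Cn G Q ∧ ∀ a ∈ Q, ∀ b ∈ Z, G.Adj a b → b ∈ Q := by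
  have hZ : ∀ y, Relation.ReflTransGen (fun u v => u ∈ Z ∧ v ∈ Z ∧ G.Adj u v) x y → y ∈ Z := by
    intro y hy
    induction hy with
    | refl => exact hx
    | tail _ huv _ => exact huv.2.1
  refine ⟨{y | Relation.ReflTransGen (fun u v => u ∈ Z ∧ v ∈ Z ∧ G.Adj u v) x y},
    Relation.ReflTransGen.refl, hZ, cn_of_root x fun a ha => ?_,
    fun a ha b hb hab => Relation.ReflTransGen.tail ha ⟨hZ a ha, hb, hab⟩⟩
  change Relation.ReflTransGen _ x a at ha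
  induction ha with
  | refl => exact .refl
  | tail hu huv ih => exact ih.tail ⟨hu, hu.tail huv, huv.2.2⟩

theorem Cn.exists_att (h : Cn G Z) (hQ : Q ⊆ Z) (hn : Q.Nonempty) (hZ : ¬ Z ⊆ Q) :
    ∃ z ∈ Z, z ∉ Q ∧ At G Q z := by
  obtain ⟨a, ha⟩ := hn
  by_contra hc
  refine hZ (h.closed (hQ ha) ha fun x _ hx y hy hxy => ?_)
  by_contra hyQ
  exact hc ⟨y, hy, hyQ, x, hx, hxy.symm⟩

/-- consecutive visits of a connected set to `S` -/
theorem cn_tor (h : Cn G Z) (S : Set V) {x y : V} (hx : x ∈ Z ∩ S) (hy : y ∈ Z ∩ S) :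
    Relation.ReflTransGen (fun a b => a ∈ Z ∩ S ∧ b ∈ Z ∩ S ∧
      (G.Adj a b ∨ ∃ Q ⊆ Z \ S, Cn G Q ∧ At G Q a ∧ At G Q b)) x y := by
  have key : ∀ w, Relation.ReflTransGen (fun u v => u ∈ Z ∧ v ∈ Z ∧ G.Adj u v) x w →
      (w ∈ S ∧ Relation.ReflTransGen (fun a b => a ∈ Z ∩ S ∧ b ∈ Z ∩ S ∧
        (G.Adj a b ∨ ∃ Q ⊆ Z \ S, Cn G Q ∧ At G Q a ∧ At G Q b)) x w) ∨
      (w ∉ S ∧ ∃ a ∈ Z ∩ S, Relation.ReflTransGen (fun a b => a ∈ Z ∩ S ∧ b ∈ Z ∩ S ∧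
        (G.Adj a b ∨ ∃ Q ⊆ Z \ S, Cn G Q ∧ At G Q a ∧ At G Q b)) x a ∧
        ∃ Q ⊆ Z \ S, Cn G Q ∧ w ∈ Q ∧ At G Q a) := by
    intro w hw
    induction hw with
    | refl => exact Or.inl ⟨hx.2, .refl⟩
    | @tail u v _ huv ih =>
      obtain ⟨hu, hv, huv⟩ := huv
      by_cases hvS : v ∈ S
      · refine Or.inl ⟨hvS, ?_⟩
        rcases ih with ⟨huS, ih⟩ | ⟨-, a, ha, ih, Q, hQ, hc, huQ, haQ⟩
        · exact ih.tail ⟨⟨hu, huS⟩, ⟨hv, hvS⟩, Or.inl huv⟩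
        · exact ih.tail ⟨ha, ⟨hv, hvS⟩, Or.inr ⟨Q, hQ, hc, haQ, u, huQ, huv.symm⟩⟩
      · refine Or.inr ⟨hvS, ?_⟩
        rcases ih with ⟨huS, ih⟩ | ⟨-, a, ha, ih, Q, hQ, hc, huQ, haQ⟩
        · exact ⟨u, ⟨hu, huS⟩, ih, {v}, Set.singleton_subset_iff.2 ⟨hv, hvS⟩,
            cn_of_subsingleton Set.subsingleton_singleton, rfl, v, rfl, huv⟩
        · obtain ⟨q, hq, haq⟩ := haQ
          exact ⟨a, ha, ih, Insert.insert v Q, Set.insert_subset ⟨hv, hvS⟩ hQ,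
            hc.insert ⟨u, huQ, huv.symm⟩, Set.mem_insert _ _, q, Set.mem_insert_of_mem _ hq, haq⟩
  rcases key y (h x hx.1 y hy.1) with h1 | h1
  · exact h1.2
  · exact absurd hy.2 h1.1

/-- removing a part that hangs at `x` keeps connectivity -/
theorem Cn.diff_hang (h : Cn G Z) {x : V} (hx : x ∈ Z) (hxQ : x ∉ Q)
    (hc : ∀ a ∈ Q, ∀ b ∈ Z, G.Adj a b → b ∈ Q ∨ b = x) : Cn G (Z \ Q) := by
  refine cn_of_root x fun a ha => ?_
  have h1 := h x hx a ha.1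
  have h2 := ha.2
  clear ha
  induction h1 with
  | refl => exact .refl
  | @tail u v _ huv ih =>
    obtain ⟨hu, hv, huv⟩ := huv
    by_cases huQ : u ∈ Q
    · rcases hc u huQ v hv huv with e | e
      · exact absurd e h2
      · rw [e]
    · exact (ih huQ).tail ⟨⟨hu, huQ⟩, ⟨hv, h2⟩, huv⟩

theorem At.mono {x : V} (h : At G Q x) (hle : G ≤ G') (hQ : Q ⊆ Q') : At G' Q' x := by
  obtain ⟨y, hy, hxy⟩ := h
  exact ⟨y, hQ hy, hle hxy⟩

theorem Att.mono [Finite V] {n n' : ℕ} {Ok Ok' : V → V → Prop} (h : Att G n S Ok) (hle : G' ≤ G)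
    (hn : n' ≤ n) (hok : ∀ x ∈ S, ∀ y ∈ S, x ≠ y → Ok x y → Ok' x y) : Att G' n' S Ok' := by
  intro Q hQ hd hc x hx y hy hxy ax ay
  obtain ⟨h1, h2⟩ := h Q (hQ.trans hn) hd (hc.mono hle) x hx y hy hxy (ax.mono hle subset_rfl)
    (ay.mono hle subset_rfl)
  exact ⟨hok x hx y hy hxy h1, fun z hz az => h2 z hz (az.mono hle subset_rfl)⟩

theorem Att.sub [Finite V] {N : ℕ} {Ok : V → V → Prop} (h : Att G N S Ok) (hle : J ≤ G)
    (hN : J.support.ncard ≤ N) (n : ℕ) : Att J n (S ∩ J.support) Ok := by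
  intro Q _ hd hc x hx y hy hxy ax ay
  have hs : Q ⊆ J.support := hc.sub_support ax
  have hd' : Disjoint Q S := Set.disjoint_left.2 fun q hq hqS =>
    Set.disjoint_left.1 hd hq ⟨hqS, hs hq⟩
  obtain ⟨h1, h2⟩ := h Q ((Set.ncard_le_ncard hs (Set.toFinite _)).trans hN) hd' (hc.mono hle)
    x hx.1 y hy.1 hxy (ax.mono hle subset_rfl) (ay.mono hle subset_rfl)
  exact ⟨h1, fun z hz az => h2 z hz.1 (az.mono hle subset_rfl)⟩

theorem TwoC.cn [Finite V] (h : TwoC J) : Cn J J.support := by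
  intro a ha b hb
  obtain ⟨c, -, hca, hcb⟩ := xcn_third h a b
  exact xcn_mono (h.2 c a ⟨ha, hca.symm⟩ b ⟨hb, hcb.symm⟩) Set.sdiff_subset

theorem TwoC.two_nbr [Finite V] (h : TwoC J) {x : V} (hx : x ∈ J.support) :
    ∃ y z, y ≠ z ∧ J.Adj x y ∧ J.Adj x z := by
  obtain ⟨y, hxy⟩ := id hx
  by_contra hn
  obtain ⟨c, hc, hcx, hcy⟩ := xcn_third h x y
  have h1 : J.support \ {y} ⊆ {x} := by
    refine (h.2 y).closed (a := x) ⟨hx, hxy.ne⟩ rfl fun u _ hu v hv huv => ?_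
    rw [Set.mem_singleton_iff.1 hu] at huv
    exact absurd ⟨v, y, hv.2, huv, hxy⟩ hn
  exact hcx (h1 ⟨hc, hcy⟩)

theorem TwoC.ne_bot [Finite V] (h : TwoC J) : ∃ x y, J.Adj x y := by
  have h1 : J.support.Nonempty := Set.nonempty_of_ncard_ne_zero (by have := h.1; omega)
  obtain ⟨x, y, hxy⟩ := h1
  exact ⟨x, y, hxy⟩

/-- the component of `w` outside `S` has two attachments -/
theorem TwoC.two_att [Finite V] (h : TwoC J) {a b : V} (hab : a ≠ b) (ha : a ∈ S ∩ J.support)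
    (hb : b ∈ S ∩ J.support) {w : V} (hw : w ∈ J.support) (hwS : w ∉ S) :
    ∃ Q, w ∈ Q ∧ Q ⊆ J.support \ S ∧ Cn J Q ∧ (∀ x ∈ Q, ∀ y, y ∉ S → J.Adj x y → y ∈ Q) ∧
      ∃ x ∈ S, ∃ y ∈ S, x ≠ y ∧ At J Q x ∧ At J Q y := by
  obtain ⟨Q, hwQ, hQ, hc, hcl⟩ := exists_comp J (J.support \ S) (x := w) ⟨hw, hwS⟩
  have hcl' : ∀ x ∈ Q, ∀ y, y ∉ S → J.Adj x y → y ∈ Q := fun x hx y hy hxy =>
    hcl x hx y ⟨⟨x, hxy.symm⟩, hy⟩ hxy
  refine ⟨Q, hwQ, hQ, hc, hcl', ?_⟩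
  by_contra hn
  have h1 : ∃ c ∈ S, ∀ x ∈ S, At J Q x → x = c := by
    by_cases h0 : ∃ c ∈ S, At J Q c
    · obtain ⟨c, hcS, ac⟩ := h0
      refine ⟨c, hcS, fun x hx ax => ?_⟩
      by_contra hxc
      exact hn ⟨x, hx, c, hcS, hxc, ax, ac⟩
    · exact ⟨a, ha.1, fun x hx ax => absurd ⟨x, hx, ax⟩ h0⟩
  obtain ⟨c, hcS, h1⟩ := h1
  have h2 : J.support \ {c} ⊆ Q := by
    refine (h.2 c).closed (a := w) ⟨hw, fun e => hwS (Set.mem_singleton_iff.1 e ▸ hcS)⟩ hwQ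
      fun u _ hu v hv huv => ?_
    by_cases hvS : v ∈ S
    · exact absurd (h1 v hvS ⟨u, hu, huv.symm⟩) hv.2
    · exact hcl' u hu v hvS huv
  by_cases hac : a = c
  · exact (hQ (h2 ⟨hb.2, fun e => hab (hac.trans (Set.mem_singleton_iff.1 e).symm)⟩)).2 hb.1
  · exact (hQ (h2 ⟨ha.2, hac⟩)).2 ha.1

/-- a 2-connected graph with two vertices in `S` lies in `S` if attachments are single -/
theorem TwoC.sub_of_att [Finite V] {N : ℕ} (h : TwoC J) (hle : J ≤ G) (hN : J.support.ncard ≤ N)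
    (hA : Att G N S fun _ _ => False) {a b : V} (hab : a ≠ b) (ha : a ∈ S ∩ J.support)
    (hb : b ∈ S ∩ J.support) : J.support ⊆ S := by
  intro w hw
  by_contra hwS
  obtain ⟨Q, -, hQ, hc, -, x, hx, y, hy, hxy, ax, ay⟩ := h.two_att hab ha hb hw hwS
  exact (hA Q ((Set.ncard_le_ncard (hQ.trans Set.sdiff_subset) (Set.toFinite _)).trans hN)
    (Set.disjoint_left.2 fun q hq => (hQ hq).2) (hc.mono hle) x hx y hy hxy
    (ax.mono hle subset_rfl) (ay.mono hle subset_rfl)).1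

end Pool.Agent.MP_1c0fc2_co.RI
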