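import Pool.Agent.MP_1c0fc2_co.RI.Psi

open Function SimpleGraph

namespace Pool.Agent.MP_1c0fc2_co.RI

variable {V W : Type} [Finite V] [Finite W]

theorem xconel_apex {k : Prop} {G J K : SimpleGraph V} {c : V}
    (hadj : ∀ x ∈ J.support, x ≠ c → J.Adj c x) (hJG : J ≤ G) (hle : K ≤ J)
    (hK : TwoC K) (hg : Gate k G K) :
    c ∈ K.support ∧ ∀ x ∈ K.support, x ≠ c → K.Adj c x := by
  have hsub : K.support ⊆ J.support := support_mono hle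
  have hc : c ∈ K.support := by
    by_contra hc
    have h3 : 2 < K.support.ncard := hK.1
    obtain ⟨x, hx, y, hy, z, hz, hxy, hxz, hyz⟩ := (Set.two_lt_ncard (Set.toFinite _)).1 h3
    have hat : ∀ w ∈ K.support, At G {c} w := fun w hw =>
      ⟨c, rfl, (hJG (hadj w (hsub hw) fun e => hc (e ▸ hw))).symm⟩
    have := (hg.2 1 {c} (by simp) (Set.disjoint_singleton_left.2 hc)
      (cn_of_subsingleton Set.subsingleton_singleton) x hx y hy hxy (hat x hx) (hat y hy)).2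
      z hz (hat z hz)
    rcases this with e | e
    · exact hxz e.symm
    · exact hyz e.symm
  exact ⟨hc, fun x hx hxc => hg.1 c hc x hx (hJG (hadj x (hsub hx) hxc))⟩

omit [Finite V] in
theorem xconel_tri {J : SimpleGraph V} {c x y : V} (hcx : J.Adj c x) (hxy : J.Adj x y)
    (hcy : J.Adj c y) : ∃ T ≤ J, IsCp tri T ∧ T.Adj c x ∧ T.Adj x y ∧ T.Adj c y ∧
      ∀ w ∈ T.support, w ≠ c → T.Adj c w := by
  have h1 : (edge c x ⊔ edge x y ⊔ edge c y : SimpleGraph V).Adj c x := by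
    simp [edge_adj, hcx.ne]
  have h2 : (edge c x ⊔ edge x y ⊔ edge c y : SimpleGraph V).Adj x y := by
    simp [edge_adj, hxy.ne]
  have h3 : (edge c x ⊔ edge x y ⊔ edge c y : SimpleGraph V).Adj c y := by
    simp [edge_adj, hcy.ne]
  refine ⟨edge c x ⊔ edge x y ⊔ edge c y, ?_,
    isCp_tri.2 ⟨c, x, y, hcx.ne, hxy.ne, hcy.ne, rfl⟩, h1, h2, h3, ?_⟩
  · intro a b hab
    simp only [sup_adj, edge_adj] at hab
    rcases hab with (⟨⟨rfl, rfl⟩ | ⟨rfl, rfl⟩, -⟩ | ⟨⟨rfl, rfl⟩ | ⟨rfl, rfl⟩, -⟩) |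
      ⟨⟨rfl, rfl⟩ | ⟨rfl, rfl⟩, -⟩
    · exact hcx
    · exact hcx.symm
    · exact hxy
    · exact hxy.symm
    · exact hcy
    · exact hcy.symm
  · rintro w ⟨b, hab⟩ hwc
    have hw : w = x ∨ w = y := by
      simp only [sup_adj, edge_adj] at hab
      rcases hab with (⟨⟨e, -⟩ | ⟨e, -⟩, -⟩ | ⟨⟨e, -⟩ | ⟨e, -⟩, -⟩) | ⟨⟨e, -⟩ | ⟨e, -⟩, -⟩
      · exact absurd e hwc
      · exact Or.inl e
      · exact Or.inl e
      · exact Or.inr e
      · exact absurd e hwc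
      · exact Or.inr e
    rcases hw with rfl | rfl
    · exact h1
    · exact h3

theorem cone_gate {k : Prop} {G J K : SimpleGraph V} (hJ : Cone J) (hJG : J ≤ G) (hle : K ≤ J)
    (hK : TwoC K) (hg : Gate k G K) : Cone K := by
  obtain ⟨c, -, hadj⟩ := hJ
  exact ⟨c, xconel_apex hadj hJG hle hK hg⟩

theorem cone_un {α : SimpleGraph W} {G J K : SimpleGraph V} (hJ : Cone J) (hJG : J ≤ G)
    (hle : K ≤ J) (hα : TwoC α) (hK : UnP α K) (hg : ∀ K', Cop α G K' → Gate True G K') :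
    Cone K := by
  obtain ⟨c, -, hadj⟩ := hJ
  have key : ∀ x y, K.Adj x y → c ∈ K.support ∧ (x ≠ c → K.Adj c x) := by
    intro x y hxy
    obtain ⟨K', hK', h'⟩ := un_adj.1 (hK.2 hxy)
    obtain ⟨h1, h2⟩ := xconel_apex hadj hJG (hK'.2.trans hle) (hK'.1.twoC hα)
      (hg K' (hK'.mono (hle.trans hJG)))
    exact ⟨support_mono hK'.2 h1, fun hx => hK'.2 (h2 x ⟨y, h'⟩ hx)⟩
  obtain ⟨x, y, hxy⟩ := hK.1.ne_bot
  refine ⟨c, (key x y hxy).1, ?_⟩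
  rintro a ⟨b, hab⟩ ha
  exact (key a b hab).2 ha

theorem cone_ec {J : SimpleGraph V} (h : TwoC J) (hc : Cone J) : EC tri J := by
  obtain ⟨c, hcJ, hadj⟩ := hc
  have hex : ∃ E ≤ J, EC tri E ∧ ∀ w ∈ E.support, w ≠ c → E.Adj c w := by
    obtain ⟨x, hcx⟩ := hcJ
    obtain ⟨y, z, hyz, hxy, hxz⟩ := h.two_nbr (x := x) ⟨c, hcx.symm⟩
    have : ∃ y, y ≠ c ∧ J.Adj x y := by
      by_cases e : y = c
      · exact ⟨z, fun e' => hyz (e.trans e'.symm), hxz⟩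
      · exact ⟨y, e, hxy⟩
    obtain ⟨y, hyc, hxy⟩ := this
    obtain ⟨T, hT, h1, -, -, -, h5⟩ := xconel_tri hcx hxy (hadj y ⟨x, hxy.symm⟩ hyc)
    exact ⟨T, hT, EC.base h1, h5⟩
  obtain ⟨E, hEJ, ⟨hE, hEc⟩, hmax⟩ :=
    exists_mx J (fun E => EC tri E ∧ ∀ w ∈ E.support, w ≠ c → E.Adj c w) hex
  have step : ∀ x y, x ≠ c → y ≠ c → J.Adj x y → x ∈ E.support → E.Adj x y := by
    intro x y hxc hyc hxy hx
    obtain ⟨T, hT, h1, h2, h3, -, h5⟩ :=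
      xconel_tri (hadj x ⟨y, hxy⟩ hxc) hxy (hadj y ⟨x, hxy.symm⟩ hyc)
    have hm := hmax (E ⊔ T) (sup_le hEJ hT)
      ⟨EC.sup hE (EC.base h1) ⟨c, x, hEc x hx hxc, h2⟩, by
        rintro w ⟨b, hb | hb⟩ hwc
        · exact Or.inl (hEc w ⟨b, hb⟩ hwc)
        · exact Or.inr (h5 w ⟨b, hb⟩ hwc)⟩
    have he : E = E ⊔ T := eq_of_le_ec le_sup_left hm
    rw [he]
    exact Or.inr h3
  have hstart : ∃ a ∈ J.support \ {c}, a ∈ E.support := by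
    obtain ⟨x, y, hxy⟩ := (hE.twoC twoC_tri).ne_bot
    by_cases e : x = c
    · exact ⟨y, ⟨⟨x, (hEJ hxy).symm⟩, fun e' => hxy.ne (e.trans (Eq.symm e'))⟩, ⟨x, hxy.symm⟩⟩
    · exact ⟨x, ⟨⟨y, hEJ hxy⟩, e⟩, ⟨y, hxy⟩⟩
  obtain ⟨a, ha, haE⟩ := hstart
  have hsub : J.support \ {c} ⊆ E.support :=
    (h.2 c).closed ha haE fun x hx hxE y hy hxy => ⟨x, (step x y hx.2 hy.2 hxy hxE).symm⟩
  have hJE : J ≤ E := by
    intro x y hxy
    by_cases ex : x = c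
    · have hy : y ≠ c := fun e => hxy.ne (ex.trans e.symm)
      rw [ex]
      exact hEc y (hsub ⟨⟨x, hxy.symm⟩, hy⟩) hy
    · by_cases ey : y = c
      · rw [ey]
        exact (hEc x (hsub ⟨⟨y, hxy⟩, ex⟩) ex).symm
      · exact step x y ex ey hxy (hsub ⟨⟨y, hxy⟩, ex⟩)
  rw [le_antisymm hJE hEJ]
  exact hE

end Pool.Agent.MP_1c0fc2_co.RI
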