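import Pool.Agent.MP_1c0fc2_co.RI.Cn

open Function SimpleGraph

namespace Pool.Agent.MP_1c0fc2_co.RI

variable {V V' W W' : Type} {O : SimpleGraph W} {G G' J K : SimpleGraph V}

theorem xcp_map_eq {f : V → V} (h : ∀ a ∈ J.support, f a = a) : J.map f = J := by
  ext x y
  rw [map_adj']
  constructor
  · rintro ⟨-, a, b, hab, rfl, rfl⟩
    rwa [h a ⟨b, hab⟩, h b ⟨a, hab.symm⟩]
  · intro hxy
    exact ⟨hxy.ne, x, y, hxy, h x ⟨y, hxy⟩, h y ⟨x, hxy.symm⟩⟩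

theorem xcp_map_sup (f : V → V') (J K : SimpleGraph V) : (J ⊔ K).map f = J.map f ⊔ K.map f := by
  ext x y
  simp only [map_adj', sup_adj]
  constructor
  · rintro ⟨hne, a, b, h | h, ha, hb⟩
    · exact Or.inl ⟨hne, a, b, h, ha, hb⟩
    · exact Or.inr ⟨hne, a, b, h, ha, hb⟩
  · rintro (⟨hne, a, b, h, ha, hb⟩ | ⟨hne, a, b, h, ha, hb⟩)
    · exact ⟨hne, a, b, Or.inl h, ha, hb⟩
    · exact ⟨hne, a, b, Or.inr h, ha, hb⟩

theorem xcp_map_edge (f : V → V') (a b : V) : (edge a b).map f = edge (f a) (f b) := by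
  ext x y
  simp only [map_adj', edge_adj]
  constructor
  · rintro ⟨hne, c, d, ⟨⟨rfl, rfl⟩ | ⟨rfl, rfl⟩, -⟩, rfl, rfl⟩
    · exact ⟨Or.inl ⟨rfl, rfl⟩, hne⟩
    · exact ⟨Or.inr ⟨rfl, rfl⟩, hne⟩
  · rintro ⟨⟨rfl, rfl⟩ | ⟨rfl, rfl⟩, hne⟩
    · exact ⟨hne, a, b, ⟨Or.inl ⟨rfl, rfl⟩, fun e => hne (congrArg f e)⟩, rfl, rfl⟩
    · exact ⟨hne, b, a, ⟨Or.inr ⟨rfl, rfl⟩, fun e => hne (congrArg f e)⟩, rfl, rfl⟩

theorem map_adj_inj {f : V → V'} (hf : Set.InjOn f J.support) {x y : V'} :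
    (J.map f).Adj x y ↔ ∃ a b, J.Adj a b ∧ f a = x ∧ f b = y := by
  rw [map_adj']
  refine ⟨fun h => h.2, fun ⟨a, b, hab, ha, hb⟩ => ⟨?_, a, b, hab, ha, hb⟩⟩
  rw [← ha, ← hb]
  exact fun e => hab.ne (hf ⟨b, hab⟩ ⟨a, hab.symm⟩ e)

theorem map_adj_app {f : V → V'} (hf : Injective f) {a b : V} :
    (J.map f).Adj (f a) (f b) ↔ J.Adj a b := by
  rw [map_adj_inj hf.injOn]
  exact ⟨fun ⟨_, _, h, ha, hb⟩ => hf ha ▸ hf hb ▸ h, fun h => ⟨a, b, h, rfl, rfl⟩⟩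

theorem support_map_inj {f : V → V'} (hf : Set.InjOn f J.support) :
    (J.map f).support = f '' J.support := by
  ext x
  constructor
  · rintro ⟨y, -, a, b, hab, rfl, rfl⟩
    exact ⟨a, ⟨b, hab⟩, rfl⟩
  · rintro ⟨a, ⟨b, hab⟩, rfl⟩
    exact ⟨f b, (map_adj_inj hf).2 ⟨a, b, hab, rfl, rfl⟩⟩

theorem ec_map {f : V → V'} (hf : Set.InjOn f J.support) : ec (J.map f) = ec J := by
  have h : (J.map f).edgeSet = Sym2.map f '' J.edgeSet := by
    ext e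
    induction e using Sym2.ind with
    | h x y =>
      rw [mem_edgeSet, map_adj_inj hf]
      constructor
      · rintro ⟨a, b, hab, rfl, rfl⟩
        exact ⟨s(a, b), hab, rfl⟩
      · rintro ⟨e, he, h⟩
        induction e using Sym2.ind with
        | h a b =>
          rw [Sym2.map_mk, Sym2.eq_iff] at h
          rcases h with ⟨h1, h2⟩ | ⟨h1, h2⟩
          · exact ⟨a, b, he, h1, h2⟩
          · exact ⟨b, a, Adj.symm he, h2, h1⟩
  unfold ec
  rw [h]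
  refine Set.InjOn.ncard_image fun e he e' he' h => ?_
  induction e using Sym2.ind with
  | h a b =>
    induction e' using Sym2.ind with
    | h c d =>
      have h1 : J.Adj a b := he
      have h2 : J.Adj c d := he'
      rw [Sym2.map_mk, Sym2.map_mk, Sym2.eq_iff] at h
      rw [Sym2.eq_iff]
      rcases h with ⟨h3, h4⟩ | ⟨h3, h4⟩
      · exact Or.inl ⟨hf ⟨b, h1⟩ ⟨d, h2⟩ h3, hf ⟨a, h1.symm⟩ ⟨c, h2.symm⟩ h4⟩
      · exact Or.inr ⟨hf ⟨b, h1⟩ ⟨c, h2.symm⟩ h3, hf ⟨a, h1.symm⟩ ⟨d, h2⟩ h4⟩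

theorem ec_mono [Finite V] (h : J ≤ K) : ec J ≤ ec K := by
  exact Set.ncard_le_ncard (edgeSet_mono h)

theorem ec_lt [Finite V] (h : J < K) : ec J < ec K := by
  exact Set.ncard_lt_ncard (edgeSet_strict_mono h)

theorem eq_of_le_ec [Finite V] (h : J ≤ K) (h' : ec K ≤ ec J) : J = K := by
  by_contra hne
  exact absurd (ec_lt (lt_of_le_of_ne h hne)) (not_lt.2 h')

theorem IsCp.refl (O : SimpleGraph W) : IsCp O O := by
  exact ⟨id, Set.injOn_id _, (map_id O).symm⟩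

theorem IsCp.map (h : IsCp O J) {f : V → V'} (hf : Set.InjOn f J.support) :
    IsCp O (J.map f) := by
  obtain ⟨g, hg, rfl⟩ := h
  rw [support_map_inj hg] at hf
  exact ⟨f ∘ g, hf.comp hg (Set.mapsTo_image g _), map_map O g f⟩

theorem IsCp.trans {L : SimpleGraph V'} (h : IsCp O J) (h' : IsCp J L) : IsCp O L := by
  obtain ⟨f, hf, rfl⟩ := h'
  exact h.map hf

theorem IsCp.symm [Nonempty W] (h : IsCp O J) : IsCp J O := by
  obtain ⟨f, hf, rfl⟩ := h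
  refine ⟨invFunOn f O.support, ?_, ?_⟩
  · rw [support_map_inj hf]
    exact Function.invFunOn_injOn_image f _
  · rw [map_map]
    exact (xcp_map_eq fun a ha => hf.leftInvOn_invFunOn ha).symm

theorem IsCp.ec_eq (h : IsCp O J) : ec J = ec O := by
  obtain ⟨f, hf, rfl⟩ := h
  exact ec_map hf

theorem IsCp.ncard (h : IsCp O J) : J.support.ncard = O.support.ncard := by
  obtain ⟨f, hf, rfl⟩ := h
  rw [support_map_inj hf, hf.ncard_image]

theorem IsCp.small [Finite W] (h : IsCp O J) : J.support.ncard ≤ Nat.card W := by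
  rw [h.ncard]
  exact Set.ncard_le_card _

theorem Cop.mono (h : Cop O G J) (hle : G ≤ G') : Cop O G' J := by
  exact ⟨h.1, h.2.trans hle⟩

theorem Cop.map (h : Cop O G J) {f : V → V'} (hf : Set.InjOn f G.support) :
    Cop O (G.map f) (J.map f) := by
  exact ⟨h.1.map (hf.mono (support_mono h.2)), map_monotone f h.2⟩

theorem Has.mono (h : Has O G) (hle : G ≤ G') : Has O G' := by
  obtain ⟨J, hJ⟩ := h
  exact ⟨J, hJ.mono hle⟩

theorem Has.of_le {O' : SimpleGraph W} (h : O ≤ O') : Has O O' := by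
  exact ⟨O, IsCp.refl O, h⟩

theorem Has.trans {L : SimpleGraph V'} (h : Has O J) (h' : Has J L) : Has O L := by
  obtain ⟨J₁, h1⟩ := h
  obtain ⟨_, ⟨f, hf, rfl⟩, h2⟩ := h'
  exact ⟨_, (h1.map hf).mono h2⟩

theorem IsCp.has (h : IsCp O J) : Has O J := by
  exact ⟨J, h, le_rfl⟩

theorem has_of_hom (f : W → V) (hf : Set.InjOn f O.support)
    (h : ∀ a b, O.Adj a b → G.Adj (f a) (f b)) : Has O G := by
  refine ⟨O.map f, ⟨f, hf, rfl⟩, ?_⟩
  rintro _ _ ⟨-, a, b, hab, rfl, rfl⟩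
  exact h a b hab

/-- a subgraph of an injective image is an image -/
theorem exists_of_le_map {X : SimpleGraph W'} {β : W' → V} (hβ : Injective β)
    (h : K ≤ X.map β) : ∃ K₀ ≤ X, K = K₀.map β := by
  refine ⟨K.comap β, fun a b hab => (map_adj_app hβ).1 (h hab), ?_⟩
  ext x y
  rw [map_adj_inj hβ.injOn]
  constructor
  · intro hxy
    obtain ⟨-, a, b, -, rfl, rfl⟩ := h hxy
    exact ⟨a, b, hxy, rfl, rfl⟩
  · rintro ⟨a, b, hab, rfl, rfl⟩
    exact hab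

theorem IsCp.of_map [Nonempty W'] {K₀ : SimpleGraph W'} {β : W' → V} (hβ : Injective β)
    (h : IsCp O (K₀.map β)) : IsCp O K₀ := by
  exact h.trans (IsCp.symm ⟨β, hβ.injOn, rfl⟩)

theorem Has.of_map [Nonempty W'] {X : SimpleGraph W'} {β : W' → V} (hβ : Injective β)
    (h : Has O (X.map β)) : Has O X := by
  exact h.trans (IsCp.symm ⟨β, hβ.injOn, rfl⟩).has

theorem un_adj {x y : V} : (Un O G).Adj x y ↔ ∃ J, Cop O G J ∧ J.Adj x y := by
  exact sSup_adj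

theorem Cop.le_un (h : Cop O G J) : J ≤ Un O G := by
  exact le_sSup h

theorem un_le : Un O G ≤ G := by
  exact sSup_le fun _ h => h.2

theorem un_mono (h : G ≤ G') : Un O G ≤ Un O G' := by
  exact sSup_le fun _ hJ => (Cop.mono hJ h).le_un

theorem un_map {f : V → V'} (hf : Set.InjOn f G.support) :
    (Un O G).map f ≤ Un O (G.map f) := by
  rintro _ _ ⟨hne, a, b, hab, rfl, rfl⟩
  obtain ⟨J, hJ, h⟩ := un_adj.1 hab
  exact (hJ.map hf).le_un ⟨hne, a, b, h, rfl, rfl⟩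

theorem exists_mx [Finite W] (H : SimpleGraph W) (P : SimpleGraph W → Prop)
    (h : ∃ J ≤ H, P J) : ∃ O, Mx H P O := by
  obtain ⟨O, hO, hmax⟩ := Set.exists_max_image {J | J ≤ H ∧ P J} ec (Set.toFinite _) h
  exact ⟨O, hO.1, hO.2, fun J h1 h2 => hmax J ⟨h1, h2⟩⟩

theorem isCp_tri : IsCp tri K ↔
    ∃ x y z, x ≠ y ∧ y ≠ z ∧ x ≠ z ∧ K = edge x y ⊔ edge y z ⊔ edge x z := by
  have h1 : tri = edge 0 1 ⊔ edge 1 2 ⊔ edge 0 2 := by
    ext a b
    simp only [tri, top_adj, sup_adj, edge_adj]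
    revert a b
    decide
  have h2 : ∀ f : Fin 3 → V, tri.map f = edge (f 0) (f 1) ⊔ edge (f 1) (f 2) ⊔ edge (f 0) (f 2) :=
    fun f => by rw [h1, xcp_map_sup, xcp_map_sup, xcp_map_edge, xcp_map_edge, xcp_map_edge]
  constructor
  · rintro ⟨f, hf, rfl⟩
    have h3 : ∀ a b : Fin 3, a ≠ b → f a ≠ f b := fun a b hab e =>
      hab (hf ⟨b, hab⟩ ⟨a, hab.symm⟩ e)
    exact ⟨f 0, f 1, f 2, h3 _ _ (by decide), h3 _ _ (by decide), h3 _ _ (by decide), h2 f⟩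
  · rintro ⟨x, y, z, hxy, hyz, hxz, rfl⟩
    refine ⟨![x, y, z], Injective.injOn ?_, (h2 ![x, y, z]).symm⟩
    intro a b
    fin_cases a <;> fin_cases b <;> simp [hxy, hyz, hxz, hxy.symm, hyz.symm, hxz.symm]

theorem isCp_k2 : IsCp k2 K ↔ ∃ x y, x ≠ y ∧ K = edge x y := by
  have h1 : k2 = edge 0 1 := by
    ext a b
    simp only [k2, top_adj, edge_adj]
    revert a b
    decide
  have h2 : ∀ f : Fin 2 → V, k2.map f = edge (f 0) (f 1) := fun f => by rw [h1, xcp_map_edge]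
  constructor
  · rintro ⟨f, hf, rfl⟩
    have h3 : (0 : Fin 2) ≠ 1 := by decide
    exact ⟨f 0, f 1, fun e => h3 (hf ⟨1, h3⟩ ⟨0, h3.symm⟩ e), h2 f⟩
  · rintro ⟨x, y, hxy, rfl⟩
    refine ⟨![x, y], Injective.injOn ?_, (h2 ![x, y]).symm⟩
    intro a b
    fin_cases a <;> fin_cases b <;> simp [hxy, hxy.symm]

end Pool.Agent.MP_1c0fc2_co.RI
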