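import Pool.Agent.MP_1c0fc2_co.RI.DPs

open Function SimpleGraph

namespace Pool.Agent.MP_1c0fc2_co.RI

variable {W : Type} [Finite W] {H O : SimpleGraph W}

theorem xdp_side {U : SimpleGraph W} {Z₁ Z₂ : Set W} (h2 : (Z₁ ∩ Z₂).ncard ≤ 2)
    (hc : ∀ K, Cop O U K → K.support ⊆ Z₁ ∨ K.support ⊆ Z₂)
    (h1 : ∃ K, Cop O U K ∧ ¬ K.support ⊆ Z₁) (h1' : ∃ K, Cop O U K ∧ ¬ K.support ⊆ Z₂)
    (ih : ∀ U' < U, U' ≤ Un O U' → U' ≠ ⊥ → ∃ F : Set W, 4 ≤ F.ncard ∧ ∀ a ∈ F, ∃ K,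
      Cop O U' K ∧ a ∈ K.support ∧ ∀ K', Cop O U' K' → a ∈ K'.support → K' = K) :
    ∃ F : Set W, 2 ≤ F.ncard ∧ F ⊆ Z₁ \ Z₂ ∧ ∀ a ∈ F, ∃ K, Cop O U K ∧
      a ∈ K.support ∧ ∀ K', Cop O U K' → a ∈ K'.support → K' = K := by
  let U₁ : SimpleGraph W := sSup {K | Cop O U K ∧ K.support ⊆ Z₁}
  have hle : U₁ ≤ U := sSup_le fun K hK => hK.1.2
  have hin : ∀ K, Cop O U K → K.support ⊆ Z₁ → K ≤ U₁ := fun K a b => le_sSup ⟨a, b⟩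
  have hsup : U₁.support ⊆ Z₁ := by
    rintro x ⟨y, hxy⟩
    obtain ⟨K, hK, h⟩ := sSup_adj.1 hxy
    exact hK.2 ⟨y, h⟩
  have hlt : U₁ < U := by
    refine lt_of_le_of_ne hle fun e => ?_
    obtain ⟨K, hK, hn⟩ := h1
    exact hn ((support_mono (hK.2.trans e.ge)).trans hsup)
  have hun : U₁ ≤ Un O U₁ := sSup_le fun K hK => Cop.le_un ⟨hK.1.1, hin K hK.1 hK.2⟩
  have hne : U₁ ≠ ⊥ := by
    obtain ⟨K, hK, hn⟩ := h1'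
    intro e
    have : K = ⊥ := le_bot_iff.1 (e ▸ hin K hK ((hc K hK).resolve_right hn))
    rw [this, support_bot] at hn
    exact hn (Set.empty_subset _)
  obtain ⟨F, f1, f2⟩ := ih U₁ hlt hun hne
  have hF : F ⊆ Z₁ := fun a ha => by
    obtain ⟨K, hK, h, -⟩ := f2 a ha
    exact hsup (support_mono hK.2 h)
  refine ⟨F \ Z₂, ?_, Set.sdiff_subset_sdiff_left hF, fun a ha => ?_⟩
  · have h3 : F ⊆ (F \ Z₂) ∪ (Z₁ ∩ Z₂) := fun a ha => by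
      by_cases h : a ∈ Z₂
      · exact Or.inr ⟨hF ha, h⟩
      · exact Or.inl ⟨ha, h⟩
    have h5 := (Set.ncard_le_ncard h3 (Set.toFinite _)).trans (Set.ncard_union_le _ _)
    omega
  · obtain ⟨K, hK, h, hu⟩ := f2 a ha.1
    refine ⟨K, hK.mono hle, h, fun K' hK' h' => hu K' ⟨hK'.1, hin K' hK' ?_⟩ h'⟩
    exact (hc K' hK').resolve_right fun e => ha.2 (e h')

/-- four free vertices -/
theorem dp (hO : TwoC O) (h4 : 4 ≤ O.support.ncard)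
    (hsep : ∀ U ≤ H, UnP O U → ¬ IsCp O U → ∃ S, S ⊂ U.support ∧ 3 ≤ S.ncard ∧
      (∀ n, Att U n S fun _ _ => True) ∧
      ∀ K, Cop O U K → K.support ⊆ S ∨ (K.support ∩ S).ncard ≤ 2) :
    ∀ U ≤ H, U ≤ Un O U → U ≠ ⊥ → ∃ F : Set W, 4 ≤ F.ncard ∧ ∀ a ∈ F, ∃ K, Cop O U K ∧
      a ∈ K.support ∧ ∀ K', Cop O U K' → a ∈ K'.support → K' = K := by
  intro U
  induction U using WellFoundedLT.induction with
  | ind U ih =>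
    intro hH hU hne
    by_cases hc : IsCp O U
    · exact ⟨U.support, hc.ncard ▸ h4, fun a ha => ⟨U, ⟨hc, le_rfl⟩, ha, fun K' hK' _ =>
        eq_of_le_ec hK'.2 (hc.ec_eq.trans hK'.1.ec_eq.symm).le⟩⟩
    obtain ⟨Z₁, Z₂, z1, z2, z3, z4⟩ := dp_sep hO hU hne fun h => hsep U hH ⟨h, hU⟩ hc
    have ih' := fun U' (h : U' < U) => ih U' h (h.le.trans hH)
    obtain ⟨F₁, a1, a2, a3⟩ := xdp_side z1 z2 z3 z4 ih'
    obtain ⟨F₂, b1, b2, b3⟩ := xdp_side (Set.inter_comm Z₁ Z₂ ▸ z1)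
      (fun K hK => (z2 K hK).symm) z4 z3 ih'
    refine ⟨F₁ ∪ F₂, ?_, fun a ha => ha.elim (a3 a) (b3 a)⟩
    rw [Set.ncard_union_eq (Set.disjoint_left.2 fun a h h' => (a2 h).2 (b2 h').1)]
    omega

theorem dp_flag (hO : TwoC O) {U : SimpleGraph W} {F : Set W} (h4 : 4 ≤ F.ncard)
    (hF : ∀ a ∈ F, ∃ K, Cop O U K ∧ a ∈ K.support ∧
      ∀ K', Cop O U K' → a ∈ K'.support → K' = K) (t : W) :
    ∃ a b, U.Adj a b ∧ a ≠ t ∧ b ≠ t ∧ Fl O U a b := by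
  obtain ⟨a, ha, hat⟩ := Set.exists_ne_of_one_lt_ncard (s := F) (by omega) t
  obtain ⟨K, hK, h, hu⟩ := hF a ha
  obtain ⟨y, z, hyz, hy, hz⟩ := (hK.1.twoC hO).two_nbr h
  by_cases e : y = t
  · exact ⟨a, z, hK.2 hz, hat, fun e' => hyz (e.trans e'.symm),
      fun K' hK' h' => hu K' hK' h' ▸ hz⟩
  · exact ⟨a, y, hK.2 hy, hat, e, fun K' hK' h' => hu K' hK' h' ▸ hy⟩

end Pool.Agent.MP_1c0fc2_co.RI
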