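import Pool.Agent.MP_1c0fc2_co.RI.Two

open Function SimpleGraph

namespace Pool.Agent.MP_1c0fc2_co.RI

variable {W : Type} [Finite W] {H O : SimpleGraph W}

omit [Finite W] in
theorem xdps_cov {U : SimpleGraph W} (hU : U ≤ Un O U) {x : W} (hx : x ∈ U.support) :
    ∃ K, Cop O U K ∧ x ∈ K.support := by
  obtain ⟨y, hy⟩ := hx
  obtain ⟨K, hK, h⟩ := un_adj.1 (hU hy)
  exact ⟨K, hK, y, h⟩

theorem xdps_one (hO : TwoC O) {U : SimpleGraph W} (hU : U ≤ Un O U) {x : W}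
    (hx : ¬ Cn U (U.support \ {x})) :
    ∃ Z₁ Z₂ : Set W, (Z₁ ∩ Z₂).ncard ≤ 2 ∧
      (∀ K, Cop O U K → K.support ⊆ Z₁ ∨ K.support ⊆ Z₂) ∧
      (∃ K, Cop O U K ∧ ¬ K.support ⊆ Z₁) ∧ ∃ K, Cop O U K ∧ ¬ K.support ⊆ Z₂ := by
  obtain ⟨a, ha⟩ : (U.support \ {x}).Nonempty :=
    Set.nonempty_iff_ne_empty.2 fun e => hx (e ▸ cn_of_subsingleton Set.subsingleton_empty)
  obtain ⟨Q, h1, h2, h3, h4⟩ := exists_comp U _ ha
  obtain ⟨b, hb, hbQ⟩ : ∃ b ∈ U.support \ {x}, b ∉ Q :=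
    Set.not_subset.1 fun e => hx (Set.Subset.antisymm h2 e ▸ h3)
  refine ⟨insert x Q, Qᶜ, ?_, fun K hK => ?_, ?_, ?_⟩
  · refine (Set.ncard_le_ncard (t := {x}) ?_).trans (by simp)
    rintro y ⟨h | h, h'⟩
    · exact h
    · exact absurd h h'
  · by_cases h : K.support ⊆ Qᶜ
    · exact Or.inr h
    obtain ⟨q, hq, hq'⟩ := Set.not_subset.1 h
    have hq' : q ∈ Q := not_not.1 hq'
    have := ((hK.1.twoC hO).2 x).closed (P := Q) ⟨hq, (h2 hq').2⟩ hq' fun y _ hy z hz e =>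
      h4 y hy z ⟨support_mono hK.2 hz.1, hz.2⟩ (hK.2 e)
    refine Or.inl fun y hy => ?_
    by_cases e : y = x
    · exact Or.inl e
    · exact Or.inr (this ⟨hy, e⟩)
  · obtain ⟨K, hK, h⟩ := xdps_cov hU hb.1
    exact ⟨K, hK, fun e => (e h).elim hb.2 hbQ⟩
  · obtain ⟨K, hK, h⟩ := xdps_cov hU ha.1
    exact ⟨K, hK, fun e => e h h1⟩

/-- vertices joined to `S` outside `a` and `b` -/
def xdpsP (U : SimpleGraph W) (S : Set W) (a b : W) : Set W :=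
  {v | ∃ R, Cn U R ∧ a ∉ R ∧ b ∉ R ∧ v ∈ R ∧ ∃ z ∈ R, z ∈ S}

omit [Finite W] in
theorem xdps_not {U : SimpleGraph W} {S Q : Set W} {a b v : W} (hd : Disjoint Q S)
    (hc : ∀ x ∈ Q, ∀ y, y ∉ S → U.Adj x y → y ∈ Q) (hA : ∀ z ∈ S, At U Q z → z = a ∨ z = b)
    (hv : v ∈ Q) : v ∉ xdpsP U S a b := by
  rintro ⟨R, h1, ha, hb, h2, z, hz, hzS⟩
  refine Set.disjoint_left.1 hd (h1.closed h2 hv (fun x _ hx y hy e => hc x hx y ?_ e) hz) hzS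
  intro hyS
  rcases hA y hyS ⟨x, hx, e.symm⟩ with rfl | rfl
  · exact ha hy
  · exact hb hy

omit [Finite W] in
theorem xdps_step {U : SimpleGraph W} {S : Set W} {a b x y : W} (hx : x ∈ xdpsP U S a b)
    (e : U.Adj x y) (ha : y ≠ a) (hb : y ≠ b) : y ∈ xdpsP U S a b := by
  obtain ⟨R, h1, ha', hb', h2, z, hz, hzS⟩ := hx
  exact ⟨insert y R, h1.insert ⟨x, h2, e.symm⟩, fun h => h.elim ha.symm ha',
    fun h => h.elim hb.symm hb', Or.inl rfl, z, Or.inr hz, hzS⟩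

omit [Finite W] in
theorem xdps_ne {U : SimpleGraph W} {S : Set W} {a b x : W} (hx : x ∈ xdpsP U S a b) :
    x ≠ a ∧ x ≠ b := by
  obtain ⟨R, -, ha', hb', h2, -⟩ := hx
  exact ⟨fun e => ha' (e ▸ h2), fun e => hb' (e ▸ h2)⟩

omit [Finite W] in
theorem xdps_mem {U : SimpleGraph W} {S : Set W} {a b z : W} (hz : z ∈ S) (ha : z ≠ a)
    (hb : z ≠ b) : z ∈ xdpsP U S a b :=
  ⟨{z}, cn_of_subsingleton Set.subsingleton_singleton, ha.symm, hb.symm, rfl, z, rfl, hz⟩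

theorem xdps_cop {U K : SimpleGraph W} {S : Set W} {a b p y : W} (hK : TwoC K) (hle : K ≤ U)
    (hA : ∀ n, Att U n S fun _ _ => True) (hab : a ≠ b) (ha : a ∈ S) (hb : b ∈ S)
    (h2 : (K.support ∩ S).ncard ≤ 2) (hp : p ∈ K.support) (hpP : p ∈ xdpsP U S a b)
    (hy : y ∈ K.support) (hya : y ≠ a) (hyb : y ≠ b) : y ∈ xdpsP U S a b := by
  have hne := xdps_ne hpP
  by_cases hbK : b ∉ K.support
  · exact (hK.2 a).closed (P := xdpsP U S a b) ⟨hp, hne.1⟩ hpP (fun u _ hu v hv e =>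
      xdps_step hu (hle e) hv.2 fun e' => hbK (e' ▸ hv.1)) ⟨hy, hya⟩
  by_cases haK : a ∉ K.support
  · exact (hK.2 b).closed (P := xdpsP U S a b) ⟨hp, hne.2⟩ hpP (fun u _ hu v hv e =>
      xdps_step hu (hle e) (fun e' => haK (e' ▸ hv.1)) hv.2) ⟨hy, hyb⟩
  rw [not_not] at haK hbK
  have h3 : ({a, b} : Set W) = K.support ∩ S :=
    Set.eq_of_subset_of_ncard_le (Set.pair_subset ⟨haK, ha⟩ ⟨hbK, hb⟩)
      (h2.trans_eq (Set.ncard_pair hab).symm)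
  have h4 : ∀ z ∈ K.support, z ∈ S → z = a ∨ z = b := fun z h h' => h3.ge ⟨h, h'⟩
  have hpS : p ∉ S := fun h => (h4 p hp h).elim hne.1 hne.2
  obtain ⟨Q, q1, q2, q3, -, u, hu, v, hv, huv, q4, q5⟩ :=
    hK.two_att hab ⟨ha, haK⟩ ⟨hb, hbK⟩ hp hpS
  obtain ⟨R, r1, r2, r3, r4⟩ := exists_comp U Sᶜ hpS
  have hQR : Q ⊆ R := q3.closed q1 r1 fun s _ hs t ht e => r4 s hs t (q2 ht).2 (hle e)
  have hd : Disjoint R S := Set.subset_compl_iff_disjoint_right.1 r2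
  have h5 := (hA _ R le_rfl hd r3 u hu v hv huv (q4.mono hle hQR) (q5.mono hle hQR)).2
  refine absurd hpP (xdps_not hd r4 (fun z hz e => ?_) r1)
  obtain ⟨u', -, eu⟩ := q4
  obtain ⟨v', -, ev⟩ := q5
  rcases h5 z hz e with rfl | rfl
  · exact h4 z ⟨u', eu⟩ hz
  · exact h4 z ⟨v', ev⟩ hz

/-- a union of copies that is not a copy splits along at most two vertices -/
theorem dp_sep (hO : TwoC O) {U : SimpleGraph W} (hU : U ≤ Un O U) (hne : U ≠ ⊥)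
    (hsep : TwoC U → ∃ S, S ⊂ U.support ∧ 3 ≤ S.ncard ∧ (∀ n, Att U n S fun _ _ => True) ∧
      ∀ K, Cop O U K → K.support ⊆ S ∨ (K.support ∩ S).ncard ≤ 2) :
    ∃ Z₁ Z₂ : Set W, (Z₁ ∩ Z₂).ncard ≤ 2 ∧
      (∀ K, Cop O U K → K.support ⊆ Z₁ ∨ K.support ⊆ Z₂) ∧
      (∃ K, Cop O U K ∧ ¬ K.support ⊆ Z₁) ∧ ∃ K, Cop O U K ∧ ¬ K.support ⊆ Z₂ := by
  by_cases hT : ¬ TwoC U
  · obtain ⟨x, y, e⟩ := ne_bot_iff_exists_adj.1 hne
    obtain ⟨K, hK, -⟩ := xdps_cov hU ⟨y, e⟩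
    have h3 := (hK.1.twoC hO).1.trans (Set.ncard_le_ncard (support_mono hK.2))
    obtain ⟨z, hz⟩ := not_forall.1 fun h => hT ⟨h3, h⟩
    exact xdps_one hO hU hz
  rw [not_not] at hT
  obtain ⟨S, hS, h3, hA, hK⟩ := hsep hT
  obtain ⟨w, hw, hwS⟩ := Set.exists_of_ssubset hS
  obtain ⟨a0, ha0, b0, hb0, hab0⟩ := (Set.one_lt_ncard (s := S)).1 (by omega)
  obtain ⟨Q, q1, q2, q3, q4, a, ha, b, hb, hab, q5, q6⟩ :=
    hT.two_att hab0 ⟨ha0, hS.1 ha0⟩ ⟨hb0, hS.1 hb0⟩ hw hwS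
  have hd : Disjoint Q S := Set.disjoint_left.2 fun x hx => (q2 hx).2
  have hwP := xdps_not hd q4 (hA _ Q le_rfl hd q3 a ha b hb hab q5 q6).2 q1
  obtain ⟨z, hz, hz'⟩ : ∃ z ∈ S, z ∉ ({a, b} : Set W) := Set.not_subset.1 fun e => by
    have := (Set.ncard_le_ncard e).trans_eq (Set.ncard_pair hab)
    omega
  refine ⟨(xdpsP U S a b)ᶜ, xdpsP U S a b ∪ {a, b}, ?_, fun K hK' => ?_, ?_, ?_⟩
  · refine (Set.ncard_le_ncard (t := {a, b}) ?_).trans_eq (Set.ncard_pair hab)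
    rintro y ⟨h, h' | h'⟩
    · exact absurd h' h
    · exact h'
  · by_cases h : K.support ⊆ (xdpsP U S a b)ᶜ
    · exact Or.inl h
    obtain ⟨p, hp, hp'⟩ := Set.not_subset.1 h
    refine Or.inr fun y hy => ?_
    by_cases e : y ∈ ({a, b} : Set W)
    · exact Or.inr e
    have e1 : y ≠ a := fun e' => e (Or.inl e')
    have e2 : y ≠ b := fun e' => e (Or.inr e')
    rcases hK K hK' with h2 | h2
    · exact Or.inl (xdps_mem (h2 hy) e1 e2)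
    · exact Or.inl (xdps_cop (hK'.1.twoC hO) hK'.2 hA hab ha hb h2 hp (not_not.1 hp') hy e1 e2)
  · obtain ⟨K, hK', h⟩ := xdps_cov hU (hS.1 hz)
    exact ⟨K, hK', fun e => e h (xdps_mem hz (fun e' => hz' (Or.inl e')) fun e' => hz' (Or.inr e'))⟩
  · obtain ⟨K, hK', h⟩ := xdps_cov hU hw
    refine ⟨K, hK', fun e => (e h).elim hwP ?_⟩
    rintro (rfl | rfl)
    · exact hwS ha
    · exact hwS hb

end Pool.Agent.MP_1c0fc2_co.RI
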