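import Mathlib

/-! Definitions for the proof that connected graphs are Ramsey isolated. -/

open Function SimpleGraph

namespace Pool.Agent.MP_1c0fc2_co.RI

section Graphs
variable {V W : Type}

/-- `Q` is connected in `G` -/
def Cn (G : SimpleGraph V) (Q : Set V) : Prop :=
  ∀ a ∈ Q, ∀ b ∈ Q, Relation.ReflTransGen (fun u v => u ∈ Q ∧ v ∈ Q ∧ G.Adj u v) a b

/-- `x` has a neighbour in `Q` -/
def At (G : SimpleGraph V) (Q : Set V) (x : V) : Prop := ∃ y ∈ Q, G.Adj x y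

/-- small connected sets outside `A` attach to `A` in one vertex or in an allowed pair -/
def Att (G : SimpleGraph V) (n : ℕ) (A : Set V) (Ok : V → V → Prop) : Prop :=
  ∀ Q : Set V, Q.ncard ≤ n → Disjoint Q A → Cn G Q → ∀ x ∈ A, ∀ y ∈ A, x ≠ y →
    At G Q x → At G Q y → Ok x y ∧ ∀ z ∈ A, At G Q z → z = x ∨ z = y

/-- 2-connected (on the support) -/
def TwoC (J : SimpleGraph V) : Prop := 3 ≤ J.support.ncard ∧ ∀ x, Cn J (J.support \ {x})

/-- no clique cutset with at most two vertices -/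
def Prime (J : SimpleGraph V) : Prop := TwoC J ∧ ∀ x y, J.Adj x y → Cn J (J.support \ {x, y})

/-- number of edges -/
noncomputable def ec (J : SimpleGraph V) : ℕ := J.edgeSet.ncard

/-- `J` is a copy of `O` -/
def IsCp (O : SimpleGraph W) (J : SimpleGraph V) : Prop :=
  ∃ f : W → V, Set.InjOn f O.support ∧ J = O.map f

/-- `J` is a copy of `O` inside `G` -/
def Cop (O : SimpleGraph W) (G J : SimpleGraph V) : Prop := IsCp O J ∧ J ≤ G

def Has (O : SimpleGraph W) (G : SimpleGraph V) : Prop := ∃ J, Cop O G J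

/-- union of all copies of `O` in `G` -/
def Un (O : SimpleGraph W) (G : SimpleGraph V) : SimpleGraph V := sSup {J | Cop O G J}

/-- 2-connected union of copies -/
def UnP (O : SimpleGraph W) (J : SimpleGraph V) : Prop := TwoC J ∧ J ≤ Un O J

/-- the torso of `J` on `S` -/
def tor (J : SimpleGraph V) (S : Set V) : SimpleGraph V where
  Adj a b := a ≠ b ∧ a ∈ S ∧ b ∈ S ∧
    (J.Adj a b ∨ ∃ Q, Disjoint Q S ∧ Cn J Q ∧ At J Q a ∧ At J Q b)
  symm := ⟨fun _ _ h => ⟨h.1.symm, h.2.2.1, h.2.1,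
    h.2.2.2.imp Adj.symm fun ⟨Q, h1, h2, h3, h4⟩ => ⟨Q, h1, h2, h4, h3⟩⟩⟩
  loopless := ⟨fun _ h => h.1 rfl⟩

/-- the parts outside `S` attach in pairs and the torso embeds into `H` -/
def Tor (H : SimpleGraph W) (J : SimpleGraph V) (S : Set V) : Prop :=
  (∀ n, Att J n S fun _ _ => True) ∧
    ∃ f : V → W, Set.InjOn f S ∧ ∀ a b, (tor J S).Adj a b → H.Adj (f a) (f b)

/-- no proper torso containing the root set embeds into `H` -/
def Stiff (H : SimpleGraph W) (J : SimpleGraph V) (ρ : Set V) : Prop :=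
  TwoC J ∧ ∀ S, ρ ⊆ S → S ⊂ J.support → 3 ≤ S.ncard → ¬ Tor H J S

/-- stiff with a copy of `R₀` as root -/
def RS {W' : Type} (H : SimpleGraph W) (R₀ : SimpleGraph W') (J : SimpleGraph V) : Prop :=
  ∃ R, Cop R₀ J R ∧ Stiff H J R.support

/-- an edge-maximal subgraph of `H` with property `P` -/
def Mx (H : SimpleGraph W) (P : SimpleGraph W → Prop) (O : SimpleGraph W) : Prop :=
  O ≤ H ∧ P O ∧ ∀ J ≤ H, P J → ec J ≤ ec O

/-- `J` is induced in `G` and the rest attaches in a vertex (or an edge if `k`) -/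
def Gate (k : Prop) (G J : SimpleGraph V) : Prop :=
  (∀ x ∈ J.support, ∀ y ∈ J.support, G.Adj x y → J.Adj x y) ∧
    ∀ n, Att G n J.support fun x y => k ∧ J.Adj x y

/-- unions of copies of `O` glued along common edges -/
inductive EC (O : SimpleGraph W) : SimpleGraph V → Prop
  | base {J : SimpleGraph V} : IsCp O J → EC O J
  | sup {J K : SimpleGraph V} : EC O J → EC O K → (∃ x y, J.Adj x y ∧ K.Adj x y) → EC O (J ⊔ K)

def Cone (J : SimpleGraph V) : Prop := ∃ c ∈ J.support, ∀ x ∈ J.support, x ≠ c → J.Adj c x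

def tri : SimpleGraph (Fin 3) := ⊤

def k2 : SimpleGraph (Fin 2) := ⊤

/-- matching -/
def Mt (M : SimpleGraph V) : Prop := ∀ a b c, M.Adj a b → M.Adj a c → b = c

def Indep (A : SimpleGraph V) (S : Set V) : Prop := ∀ a ∈ S, ∀ b ∈ S, ¬ A.Adj a b

/-- the edges of `A` meeting `S` -/
def star (A : SimpleGraph V) (S : Set V) : SimpleGraph V where
  Adj a b := A.Adj a b ∧ (a ∈ S ∨ b ∈ S)
  symm := ⟨fun _ _ h => ⟨h.1.symm, h.2.symm⟩⟩
  loopless := ⟨fun _ h => h.1.ne rfl⟩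

/-- the edges of `A` inside `S` -/
def indu (A : SimpleGraph V) (S : Set V) : SimpleGraph V where
  Adj a b := A.Adj a b ∧ a ∈ S ∧ b ∈ S
  symm := ⟨fun _ _ h => ⟨h.1.symm, h.2.2, h.2.1⟩⟩
  loopless := ⟨fun _ h => h.1.ne rfl⟩

/-- every copy of `T` in `K` through `a` uses the edge `ab` -/
def Fl (T : SimpleGraph W) (K : SimpleGraph V) (a b : V) : Prop :=
  ∀ K', Cop T K K' → a ∈ K'.support → K'.Adj a b

/-- the edges of `M` are bridges of the union of `M` and the surviving copies of `T` -/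
def ISO (T : SimpleGraph W) (A M : SimpleGraph V) : Prop :=
  ∀ a b, M.Adj a b → (Un T (A \ M) ⊔ M).IsBridge s(a, b)

/-- every subfamily of copies of `O` has a leaf -/
def Leaf (O : SimpleGraph W) (A : SimpleGraph V) : Prop :=
  ∀ 𝒦 : Set (SimpleGraph V), (∀ K ∈ 𝒦, Cop O A K) → 𝒦.Nonempty → ∀ c : V, ∃ K ∈ 𝒦, ∃ t,
    (c ∈ K.support → c = t) ∧ ∀ K' ∈ 𝒦, K' ≠ K → K.support ∩ K'.support ⊆ {t}

/-- `K'` does not cross `K` -/
def Unc (K K' : SimpleGraph V) : Prop :=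
  (K'.support \ K.support).Nonempty ∧ Cn K' (K'.support \ K.support) ∧
    ∀ x ∈ K'.support ∩ K.support, At K' (K'.support \ K.support) x

/-- a family of uncrossed gated subgraphs -/
def Fam (k : Prop) (A : SimpleGraph V) (𝒦 : Set (SimpleGraph V)) : Prop :=
  (∀ K ∈ 𝒦, K ≤ A ∧ TwoC K ∧ Gate k A K) ∧ ∀ K ∈ 𝒦, ∀ K' ∈ 𝒦, K ≠ K' → Unc K K'

/-- a small clique -/
def Clq (k : Prop) (A : SimpleGraph V) (Y : Set V) : Prop :=
  Y.Subsingleton ∨ (k ∧ ∃ x y, A.Adj x y ∧ Y = {x, y})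

/-- an uncrossed separation along a small clique -/
def Sp (k : Prop) (A : SimpleGraph V) (𝒦 : Set (SimpleGraph V)) (Z₁ Z₂ : Set V) : Prop :=
  (∀ a ∈ Z₁ \ Z₂, ∀ b ∈ Z₂ \ Z₁, ¬ A.Adj a b) ∧ Clq k A (Z₁ ∩ Z₂) ∧
    ∀ K ∈ 𝒦, K.support ⊆ Z₁ ∪ Z₂ → K.support ⊆ Z₁ ∨ K.support ⊆ Z₂

/-- 2-connected, all vertices but one see an edge of `J` lying in a copy of `O` -/
def Good (O : SimpleGraph W) (G J : SimpleGraph V) : Prop :=
  TwoC J ∧ J ≤ G ∧ ∃ z, ∀ x ∈ J.support, x ≠ z → ∃ y, J.Adj x y ∧ (Un O G).Adj x y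

def CR (O : SimpleGraph W) (G : SimpleGraph V) (x y : V) : Prop :=
  x ∈ (Un O G).support ∧ y ∈ (Un O G).support ∧
    ∃ J, Good O G J ∧ x ∈ J.support ∧ y ∈ J.support

def cls (O : SimpleGraph W) (G : SimpleGraph V) (x : V) : Set V :=
  {y | Relation.ReflTransGen (CR O G) x y}

/-- all classes have fewer than `s` vertices -/
def Pot (O : SimpleGraph W) (G : SimpleGraph V) (s : ℕ) : Prop :=
  ∀ x ∈ (Un O G).support, (cls O G x).ncard < s

def Mono (A : SimpleGraph W) (G : SimpleGraph V) (χ : Sym2 V → Bool) : Prop :=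
  ∃ (c : Bool) (f : W → V), Injective f ∧
    ∀ a b, A.Adj a b → G.Adj (f a) (f b) ∧ χ s(f a, f b) = c

/-- if the edges of `L` are monochromatic, there is a monochromatic copy of `A` -/
def Forc (A : SimpleGraph W) (G L : SimpleGraph V) : Prop :=
  ∀ (χ : Sym2 V → Bool) (c : Bool), (∀ x y, L.Adj x y → χ s(x, y) = c) → Mono A G χ

/-- Ramsey for `A` implies Ramsey for `B` -/
def Imp (A B : SimpleGraph W) : Prop :=
  ∀ (V : Type) [Finite V] (G R Bl : SimpleGraph V), G ≤ R ⊔ Bl → (∀ χ, Mono A G χ) →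
    Has B R ∨ Has B Bl

/-- a frame whose pairs are the slots of `M` -/
structure Frm (A M : SimpleGraph W) (G : SimpleGraph V) (n : ℕ) (β : W → V) : Prop where
  inj : Injective β
  ind : ∀ a a', G.Adj (β a) (β a') → (A \ M).Adj a a'
  att : Att G n (Set.range β) fun x y => ∃ a a', M.Adj a a' ∧ x = β a ∧ y = β a'

/-- copies of `O` do not leave frames -/
def Rob (O A M : SimpleGraph W) (n : ℕ) : Prop :=
  ∀ (V : Type) [Finite V] (G : SimpleGraph V) (β : W → V), Frm A M G n β → ∀ K, Cop O G K →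
    (∃ a a', K.Adj (β a) (β a')) → K ≤ (A \ M).map β

/-- labelled edges leaving `τ` into a small connected set have the same label -/
def Anc {Lb : Type} (g : Lb → SimpleGraph V) (n : ℕ) (τ : V) : Prop :=
  ∀ Q : Set V, Q.ncard ≤ n → τ ∉ Q → Cn (⨆ l, g l) Q → ∀ l l', At (g l) Q τ → At (g l') Q τ →
    l = l'

/-- small connected sets attached to `x` and `y` meet a frame through `x` and `y` -/
def FR (G : SimpleGraph V) (n : ℕ) (x y : V) (𝓕 : Set (Set V)) : Prop :=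
  ∀ Q : Set V, Q.ncard ≤ n → x ∉ Q → y ∉ Q → Cn G Q → At G Q x → At G Q y →
    ∃ F ∈ 𝓕, x ∈ F ∧ y ∈ F ∧ (Q ∩ F).Nonempty

/-- two elements in the range of one of the maps -/
def clq {E I I' : Type} (f : E → I → I') : SimpleGraph I' where
  Adj x y := x ≠ y ∧ ∃ e, x ∈ Set.range (f e) ∧ y ∈ Set.range (f e)
  symm := ⟨fun _ _ ⟨h, e, h1, h2⟩ => ⟨h.symm, e, h2, h1⟩⟩
  loopless := ⟨fun _ h => h.1 rfl⟩

end Graphs

section Steps
variable {W V I J : Type}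

/-- the end of task `j` on the side of `a` -/
def en (u v : J → V) (sd : J → W → Bool) (j : J) (a : W) : V := bif sd j a then u j else v j

structure Pre (cl : V → I) (Sh : Set I) (u v : J → V) (Pi : J → SimpleGraph W)
    (sd : J → W → Bool) : Prop where
  ne : ∀ j, u j ≠ v j
  side : ∀ j a a', (Pi j).Adj a a' → sd j a ≠ sd j a'
  deg : ∀ j a b c, (Pi j).Adj a b → (Pi j).Adj a c → b ≠ c →
    cl (en u v sd j a) ∈ Sh ∧ cl (u j) ≠ cl (v j)

/-- one tier: copies `ι e` of the old vertex set sharing cells, and bags `β p j` -/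
structure Step (cl : V → I) (Sh : Set I) (u v : J → V) (Pi : J → SimpleGraph W)
    (sd : J → W → Bool) (N : ℕ) where
  V' : Type
  I' : Type
  E : Type
  P : Type
  [fV : Finite V']
  [fI : Finite I']
  [fE : Finite E]
  [fP : Finite P]
  cl' : V' → I'
  ι : E → V → V'
  ε : E → I → I'
  β : P → J → W → V'
  sl : P → J → W → W → E
  e0 : P → E
  ι_inj : ∀ e, Injective (ι e)
  ε_inj : ∀ e, Injective (ε e)
  cl_ι : ∀ e x, cl' (ι e x) = ε e (cl x)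
  fib : ∀ e w i, cl' w = ε e i → ∃ x, w = ι e x
  pos : ∀ e e' x x', ι e x = ι e' x' → x = x'
  cls : ∀ e e' i i', ε e i = ε e' i' → i = i'
  lin : ∀ e e' i i', i ≠ i' → ε e i = ε e' i → ε e i' = ε e' i' → e = e'
  priv : ∀ e e' i, i ∉ Sh → ε e i = ε e' i → e = e'
  cov : ∀ w, (∃ e x, w = ι e x) ∨ ((∀ w', cl' w' = cl' w → w' = w) ∧ ∀ e i, cl' w ≠ ε e i)
  β_inj : ∀ p j, Injective (β p j)
  sl_symm : ∀ p j a a', sl p j a a' = sl p j a' a
  slot : ∀ p j a a', (Pi j).Adj a a' → β p j a = ι (sl p j a a') (en u v sd j a)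
  new_cell : ∀ p j a e i, a ∉ (Pi j).support → cl' (β p j a) ≠ ε e i
  new_uniq : ∀ p j a p' j' a', a ∉ (Pi j).support → β p j a = β p' j' a' → p = p' ∧ j = j'
  γ_inj : ∀ p j a a', cl' (β p j a) = cl' (β p j a') →
    a = a' ∨ ((Pi j).Adj a a' ∧ cl (u j) = cl (v j))
  in_e : ∀ p j a a' e, cl' (β p j a) ≠ cl' (β p j a') → cl' (β p j a) ∈ Set.range (ε e) →
    cl' (β p j a') ∈ Set.range (ε e) → (Pi j).Adj a a' ∧ sl p j a a' = e
  in_b : ∀ p j a a' p' j' c c', cl' (β p j a) ≠ cl' (β p j a') →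
    cl' (β p j a) = cl' (β p' j' c) → cl' (β p j a') = cl' (β p' j' c') →
    (p = p' ∧ j = j') ∨ (Pi j).Adj a a'
  attb : ∀ p j, Att (clq ε ⊔ clq fun b : P × J => cl' ∘ β b.1 b.2) N (Set.range (cl' ∘ β p j))
    fun x y => ∃ a a', (Pi j).Adj a a' ∧ x = cl' (β p j a) ∧ y = cl' (β p j a')
  oute : ∀ e (Q : Set I'), Q.ncard ≤ N → Disjoint Q (Set.range (ε e)) →
    Cn (clq ε ⊔ clq fun b : P × J => cl' ∘ β b.1 b.2) Q →
    ∀ x ∈ Set.range (ε e), ∀ y ∈ Set.range (ε e), x ≠ y →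
    At (clq ε ⊔ clq fun b : P × J => cl' ∘ β b.1 b.2) Q x →
    At (clq ε ⊔ clq fun b : P × J => cl' ∘ β b.1 b.2) Q y →
    ∃ p j a a', (Pi j).Adj a a' ∧ sl p j a a' = e ∧ x = cl' (β p j a) ∧ y = cl' (β p j a') ∧
      (∀ z ∈ Set.range (ε e), At (clq ε ⊔ clq fun b : P × J => cl' ∘ β b.1 b.2) Q z →
        z = x ∨ z = y) ∧ (∃ c, cl' (β p j c) ∈ Q) ∧
      (Cn (clq ε) Q → At (clq ε) Q x → At (clq ε) Q y → Relation.ReflTransGen
        (fun c c' => (Pi j).Adj c c' ∧ s(c, c') ≠ s(a, a') ∧ cl' (β p j c') ∈ insert y Q) a a')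
  ram : ∀ χ : E → J → Bool, ∃ p, ∀ j a a', (Pi j).Adj a a' → χ (sl p j a a') = χ (e0 p)

attribute [instance] Step.fV Step.fI Step.fE Step.fP

variable {cl : V → I} {Sh : Set I} {u v : J → V} {Pi : J → SimpleGraph W} {sd : J → W → Bool}
  {N : ℕ}

/-- the copies of an old graph -/
def Step.old (S : Step cl Sh u v Pi sd N) (G : SimpleGraph V) : SimpleGraph S.V' :=
  ⨆ e, G.map (S.ι e)

/-- the new bags of the tasks in `s` -/
def Step.new (S : Step cl Sh u v Pi sd N) (A : SimpleGraph W) (s : J → Prop) :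
    SimpleGraph S.V' :=
  ⨆ p, ⨆ j, ⨆ (_ : s j), (A \ Pi j).map (S.β p j)

/-- the cells of a bag -/
def Step.γ (S : Step cl Sh u v Pi sd N) (p : S.P) (j : J) (a : W) : S.I' := S.cl' (S.β p j a)

/-- the slots of task `j` are not crossed -/
def Step.NC (S : Step cl Sh u v Pi sd N) (G' : SimpleGraph S.I') (n : ℕ) (j : J) : Prop :=
  ∀ p a a', (Pi j).Adj a a' → ∀ Q : Set S.I', Q.ncard ≤ n →
    Disjoint Q (Set.range (S.ε (S.sl p j a a'))) → Cn G' Q → At G' Q (S.γ p j a) →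
    At G' Q (S.γ p j a') → S.γ p j a = S.γ p j a'

/-- the ends of the slots of task `j` are separated -/
def Step.Sep (S : Step cl Sh u v Pi sd N) (G' : SimpleGraph S.I') (j : J) : Prop :=
  ∀ p a a', (Pi j).Adj a a' → ¬ G'.Reachable (S.γ p j a) (S.γ p j a')

end Steps

/-- a stage of the construction -/
structure Stage (W Vσ : Type) where
  V : Type
  I : Type
  Sg : Type
  Fr : Type
  [fV : Finite V]
  [fI : Finite I]
  cl : V → I
  ι : Sg → Vσ → V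
  L : ℕ → SimpleGraph V
  t : Fr → ℕ
  β : Fr → W → V

attribute [instance] Stage.fV Stage.fI

namespace Stage
variable {W Vσ : Type}

def U (K : Stage W Vσ) (s : Set ℕ) : SimpleGraph K.V := ⨆ i ∈ s, K.L i

def cU (K : Stage W Vσ) (s : Set ℕ) : SimpleGraph K.I := (K.U s).map K.cl

def γ (K : Stage W Vσ) (b : K.Fr) (a : W) : K.I := K.cl (K.β b a)

structure Core (K : Stage W Vσ) (A : SimpleGraph W) (Pi : ℕ → SimpleGraph W)
    (Lσ : ℕ → SimpleGraph Vσ) (top : ℕ) : Prop where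
  ι_inj : ∀ s, Injective (K.ι s)
  ι_pos : ∀ s s' x x', K.ι s x = K.ι s' x' → x = x'
  ι_cell : ∀ s x w, K.cl w = K.cl (K.ι s x) ↔ w ∈ Set.range (K.ι s)
  sing : ∀ w w', K.cl w = K.cl w' → w = w' ∨ ∃ s, w ∈ Set.range (K.ι s)
  low : ∀ i ≤ 2, K.L i = ⨆ s, (Lσ i).map (K.ι s)
  hi : ∀ i x y, 3 ≤ i → (K.L i).Adj x y → K.cl x ≠ K.cl y
  pt : ∀ i s x y, 3 ≤ i → (K.L i).Adj (K.ι s x) y → x ∈ (Lσ 2).support
  top_bot : ∀ i, top < i → K.L i = ⊥
  tier : ∀ b, 3 ≤ K.t b ∧ K.t b ≤ top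
  β_inj : ∀ b, Injective (K.β b)
  bag : ∀ i x y, 3 ≤ i → (K.L i).Adj x y →
    ∃ b a a', K.t b = i ∧ x = K.β b a ∧ y = K.β b a' ∧ (A \ Pi i).Adj a a'
  bag' : ∀ b a a', (A \ Pi (K.t b)).Adj a a' → (K.L (K.t b)).Adj (K.β b a) (K.β b a')
  sl : ∀ b a a', (Pi (K.t b)).Adj a a' → (K.L (K.t b - 1)).Adj (K.β b a) (K.β b a')
  γ_inj : ∀ b a a', K.γ b a = K.γ b a' → a = a' ∨ (K.t b = 3 ∧ (Pi 3).Adj a a')
  fi : ∀ b i x y a a', (K.L i).Adj x y → K.cl x = K.γ b a → K.cl y = K.γ b a' →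
    K.cl x ≠ K.cl y →
    (i = K.t b ∧ ∃ c c', x = K.β b c ∧ y = K.β b c' ∧ (A \ Pi i).Adj c c') ∨
      (i < K.t b ∧ (Pi (K.t b)).Adj a a')
  dj : ∀ i i' x y, ((K.L i).map K.cl).Adj x y → ((K.L i').map K.cl).Adj x y → i = i'

def AttT (K : Stage W Vσ) (n : ℕ) (s : Set ℕ) (t : ℕ) (Ok : W → W → Prop) : Prop :=
  ∀ b, K.t b = t → Att (K.cU s) n (Set.range (K.γ b))
    fun x y => ∃ a a', Ok a a' ∧ x = K.γ b a ∧ y = K.γ b a'

def FRT (K : Stage W Vσ) (n i : ℕ) : Prop :=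
  ∀ x y, ((K.L i).map K.cl).Adj x y →
    FR (K.cU {4, 5, 6, 7}) n x y {F | ∃ b, 4 ≤ K.t b ∧ F = Set.range (K.γ b)}

def AncT (K : Stage W Vσ) (n : ℕ) (s : Set ℕ) (Gd : Set Vσ → Prop) (all : Prop) : Prop :=
  ∃ (Lb : Type) (ρ : Lb → SimpleGraph K.V) (ends : Lb → Set Vσ), (⨆ l, ρ l) = K.U s ∧
    (∀ l, Gd (ends l)) ∧ (∀ l s x y, (ρ l).Adj (K.ι s x) y → x ∈ ends l) ∧
    ∀ τ, (all ∨ ∃ s x, τ = K.cl (K.ι s x)) → Anc (fun l => (ρ l).map K.cl) n τ

structure Inv (K : Stage W Vσ) (A : SimpleGraph W) (Pi : ℕ → SimpleGraph W)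
    (Lσ : ℕ → SimpleGraph Vσ) (n N : ℕ) (all : Prop) : Prop where
  a3 : K.AttT n {3} 3 fun _ _ => False
  a5 : K.AttT N {3, 5} 5 (Pi 5).Adj
  a4 : K.AttT N {4} 4 fun _ _ => False
  aR : ∀ t, 4 ≤ t → K.AttT N {4, 5, 6, 7} t A.Adj
  f4 : K.FRT N 4
  f6 : K.FRT N 6
  ancB : K.AncT N {3, 4, 5} (fun S => ∃ p q, (Lσ 2).Adj p q ∧ S ⊆ {p, q}) all
  ancR : K.AncT N {4, 5, 6, 7} Set.Subsingleton all

/-- vertices created after tier five -/
def Nw (K : Stage W Vσ) (x : K.V) : Prop :=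
  (∀ s, x ∉ Set.range (K.ι s)) ∧ ∀ i ≤ 5, x ∉ (K.L i).support

/-- `K'` consists of copies of `K` and a new tier -/
structure Ext (K K' : Stage W Vσ) (top : ℕ) where
  E : Type
  ι : E → K.V → K'.V
  ε : E → K.I → K'.I
  sg : E → K.Sg → K'.Sg
  fr : E → K.Fr → K'.Fr
  ι_inj : ∀ e, Injective (ι e)
  ε_inj : ∀ e, Injective (ε e)
  cl_ι : ∀ e x, K'.cl (ι e x) = ε e (K.cl x)
  fib : ∀ e w i, K'.cl w = ε e i → ∃ x, w = ι e x
  pos : ∀ e e' s x y, ι e (K.ι s x) = ι e' y → y = K.ι s x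
  cov : ∀ w, (∃ e x, w = ι e x) ∨ ∀ w', K'.cl w' = K'.cl w → w' = w
  sg_ι : ∀ e s x, K'.ι (sg e s) x = ι e (K.ι s x)
  sg_surj : ∀ s', ∃ e s, s' = sg e s
  fr_β : ∀ e b a, K'.β (fr e b) a = ι e (K.β b a)
  fr_t : ∀ e b, K'.t (fr e b) = K.t b
  fr_surj : ∀ b', (∃ e b, b' = fr e b) ∨ K'.t b' = top + 1
  L_map : ∀ i e x y, (K.L i).Adj x y → (K'.L i).Adj (ι e x) (ι e y)
  L_cov : ∀ i w w', i ≠ top + 1 → (K'.L i).Adj w w' →
    ∃ e x x', w = ι e x ∧ w' = ι e x' ∧ (K.L i).Adj x x'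
  L_ind : ∀ i e w w', (K'.L i).Adj w w' → K'.cl w ∈ Set.range (ε e) →
    K'.cl w' ∈ Set.range (ε e) → ∃ x x', w = ι e x ∧ w' = ι e x' ∧ (K.L i).Adj x x'

/-- facts about the new tier `t` -/
structure NewT (K : Stage W Vσ) (A : SimpleGraph W) (Pi : ℕ → SimpleGraph W)
    (Lσ : ℕ → SimpleGraph Vσ) (t : ℕ) : Prop where
  hi : ∀ x y, (K.L t).Adj x y → K.cl x ≠ K.cl y
  pt : ∀ s x y, (K.L t).Adj (K.ι s x) y → x ∈ (Lσ 2).support
  β_inj : ∀ b, K.t b = t → Injective (K.β b)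
  bag : ∀ x y, (K.L t).Adj x y →
    ∃ b a a', K.t b = t ∧ x = K.β b a ∧ y = K.β b a' ∧ (A \ Pi t).Adj a a'
  bag' : ∀ b a a', K.t b = t → (A \ Pi t).Adj a a' → (K.L t).Adj (K.β b a) (K.β b a')
  sl : ∀ b a a', K.t b = t → (Pi t).Adj a a' → (K.L (t - 1)).Adj (K.β b a) (K.β b a')
  γ_inj : ∀ b a a', K.t b = t → K.γ b a = K.γ b a' → a = a' ∨ (t = 3 ∧ (Pi 3).Adj a a')
  fi : ∀ b i x y a a', K.t b = t → (K.L i).Adj x y → K.cl x = K.γ b a → K.cl y = K.γ b a' →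
    K.cl x ≠ K.cl y →
    (i = t ∧ ∃ c c', x = K.β b c ∧ y = K.β b c' ∧ (A \ Pi i).Adj c c') ∨
      (i < t ∧ (Pi t).Adj a a')

/-- attachments to the copies of the old stage -/
def Ext.Out {K K' : Stage W Vσ} {top : ℕ} (X : Ext K K' top) (n : ℕ) (s : Set ℕ)
    (Vp : K.I → K.I → Prop) : Prop :=
  ∀ e, Att (K'.cU s) n (Set.range (X.ε e)) fun x y => ∃ i i', Vp i i' ∧ x = X.ε e i ∧ y = X.ε e i'

/-- the next stage -/
def next (K : Stage W Vσ) (A P : SimpleGraph W) (top : ℕ) {J : Type} {u v : J → K.V}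
    {sd : W → Bool} {N : ℕ} (S : Step K.cl Set.univ u v (fun _ => P) (fun _ => sd) N) :
    Stage W Vσ where
  V := S.V'
  I := S.I'
  Sg := S.E × K.Sg
  Fr := (S.E × K.Fr) ⊕ (S.P × J)
  cl := S.cl'
  ι := fun s x => S.ι s.1 (K.ι s.2 x)
  L := fun i => if i = top + 1 then S.new A fun _ => True else S.old (K.L i)
  t := Sum.elim (fun b => K.t b.2) fun _ => top + 1
  β := Sum.elim (fun b a => S.ι b.1 (K.β b.2 a)) fun b => S.β b.1 b.2

/-- the hypotheses on a stage at tier `top` -/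
structure Ok (K : Stage W Vσ) (A : SimpleGraph W) (Pi : ℕ → SimpleGraph W)
    (Lσ : ℕ → SimpleGraph Vσ) (n N top : ℕ) : Prop where
  core : K.Core A Pi Lσ top
  inv : K.Inv A Pi Lσ n N True
  forc : Forc A (K.U Set.univ) (K.L top)

/-- the final stage -/
structure Last (K : Stage W Vσ) (A α : SimpleGraph W) (Pi : ℕ → SimpleGraph W)
    (Lσ : ℕ → SimpleGraph Vσ) (n N : ℕ) : Prop where
  core : K.Core A Pi Lσ 8
  inv : K.Inv A Pi Lσ n N False
  eight : K.L 8 = ⊥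
  n7 : ∀ x y, (K.L 7).Adj x y → K.Nw x
  free7 : ¬ Has α (K.L 7)
  arr : ∀ χ, Mono A (K.U Set.univ) χ

end Stage

end Pool.Agent.MP_1c0fc2_co.RI
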