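import Pool.Agent.MP_1c0fc2_co.RI.Two

open Function SimpleGraph

namespace Pool.Agent.MP_1c0fc2_co.RI

variable {V : Type} [Finite V]

/-- the situation of a component `K` outside `S` -/
structure xdeg2bCtx (G : SimpleGraph V) (A S K : Set V) (a b : V) : Prop where
  hab : ∀ x ∈ A, ∀ y, y ∉ A → G.Adj x y → y = a ∨ y = b
  hc : Cn G (G.support \ A)
  hmin : ∀ A' ⊂ A, A'.Nonempty → ∀ a' b', ¬ ∀ x ∈ A', ∀ y, y ∉ A' → G.Adj x y →
    y = a' ∨ y = b'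
  ha : a ∉ A
  hb : b ∉ A
  haA : At G A a
  hbA : At G A b
  dj : ∀ x ∈ K, x ∉ S
  cl : ∀ p ∈ K, ∀ q, G.Adj p q → q ∈ K ∨ q ∈ S
  two : ∀ x ∈ S, ∀ y ∈ S, x ≠ y → At G K x → At G K y → ∀ z ∈ S, At G K z → z = x ∨ z = y

omit [Finite V] in
theorem xdeg2b_third {S : Set V} (h : 3 ≤ S.ncard) (p q : V) : ∃ z ∈ S, z ≠ p ∧ z ≠ q := by
  by_contra hn
  push Not at hn
  have h1 : S ⊆ {p, q} := fun z hz => by
    by_cases e : z = p
    · exact Or.inl e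
    · exact Or.inr (hn z hz e)
  have h2 := Set.ncard_le_ncard h1 (Set.toFinite _)
  have h3 := Set.ncard_insert_le p ({q} : Set V)
  rw [Set.ncard_singleton] at h3
  omega

namespace xdeg2bCtx

omit [Finite V]

variable {G : SimpleGraph V} {A S K : Set V} {a b : V}

theorem swap (h : xdeg2bCtx G A S K a b) : xdeg2bCtx G A S K b a :=
  ⟨fun x hx y hy e => (h.hab x hx y hy e).symm, h.hc, h.hmin, h.hb, h.ha, h.hbA, h.haA, h.dj,
    h.cl, h.two⟩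

theorem pair (h : xdeg2bCtx G A S K a b) : ∃ s t, ∀ z ∈ S, At G K z → z = s ∨ z = t := by
  by_cases h1 : ∃ x ∈ S, At G K x
  · obtain ⟨x, hx, hx'⟩ := h1
    by_cases h2 : ∃ y ∈ S, At G K y ∧ x ≠ y
    · obtain ⟨y, hy, hy', e⟩ := h2
      exact ⟨x, y, h.two x hx y hy e hx' hy'⟩
    · push Not at h2
      exact ⟨x, x, fun z hz hz' => Or.inl (h2 z hz hz').symm⟩
  · exact ⟨a, a, fun z hz hz' => absurd ⟨z, hz, hz'⟩ h1⟩

theorem empty (h : xdeg2bCtx G A S K a b) {A' : Set V} (h1 : A' ⊆ A) {w : V} (hw : w ∈ A)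
    (hw' : w ∉ A') (s t : V) (h2 : ∀ x ∈ A', ∀ y, y ∉ A' → G.Adj x y → y = s ∨ y = t) (x : V) :
    x ∉ A' := fun hx => h.hmin A' ⟨h1, fun e => hw' (e hw)⟩ ⟨x, hx⟩ s t h2

theorem nbr (h : xdeg2bCtx G A S K a b) {x y : V} (hy : y ∈ K) (e : G.Adj x y) :
    x ∈ K ∨ (x ∈ S ∧ At G K x) :=
  (h.cl y hy x e.symm).imp_right fun hx => ⟨hx, y, hy, e⟩

theorem out (h : xdeg2bCtx G A S K a b) (ha : a ∈ K) {z : V} (hz : z ∈ G.support) (hzA : z ∉ A)
    (hzK : z ∉ K) : ∃ s ∈ S, s ∉ A ∧ At G K s := by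
  by_contra hn
  push Not at hn
  obtain ⟨a', -, e⟩ := h.haA
  refine hzK (h.hc.closed (P := K) ⟨e.left_mem_support, h.ha⟩ ha (fun x _ hx y hy e => ?_)
    ⟨hz, hzA⟩)
  exact (h.nbr hx e.symm).resolve_right fun h1 => hn y h1.1 hy.2 h1.2

theorem cover (h : xdeg2bCtx G A S K a b) (ha : a ∈ K) (s t : V)
    (h1 : b ∉ K → b = s ∨ b = t) (h2 : ∀ y ∈ A, y ∈ S → At G K y → y = s ∨ y = t) :
    ∀ x ∈ A, x ∈ K ∨ (x ∈ S ∧ At G K x) := by
  obtain ⟨a', ha', e⟩ := h.haA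
  intro x hx
  by_contra hn
  refine h.empty (A' := {x | x ∈ A ∧ ¬ (x ∈ K ∨ (x ∈ S ∧ At G K x))}) (fun _ h => h.1) ha'
    (fun h3 => h3.2 (h.nbr ha e.symm)) s t (fun p hp y hy e => ?_) x ⟨hx, hn⟩
  have hyK : y ∉ K := fun hy => hp.2 (h.nbr hy e)
  by_cases hyA : y ∈ A
  · have h3 : y ∈ K ∨ (y ∈ S ∧ At G K y) := by
      by_contra h3
      exact hy ⟨hyA, h3⟩
    obtain ⟨h4, h5⟩ := h3.resolve_left hyK
    exact h2 y hyA h4 h5
  · rcases h.hab p hp.1 y hyA e with rfl | rfl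
    · exact absurd ha hyK
    · exact h1 hyK

theorem neither (h : xdeg2bCtx G A S K a b) (hK : Cn G K) (ha : a ∉ K) (hb : b ∉ K) {w u : V}
    (hw : w ∈ K) (hwA : w ∈ A) (hu : u ∈ A) (huS : u ∈ S) : False := by
  have h1 : K ⊆ A := hK.closed hw hwA fun x _ hx y hy e => by
    by_contra hn
    rcases h.hab x hx y hn e with rfl | rfl
    exacts [ha hy, hb hy]
  obtain ⟨s, t, hst⟩ := h.pair
  refine h.empty h1 hu (fun e => h.dj u e huS) s t (fun x hx y hy e => ?_) w hw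
  obtain ⟨h2, h3⟩ := (h.nbr hx e.symm).resolve_left hy
  exact hst y h2 h3

theorem both (h : xdeg2bCtx G A S K a b) (ha : a ∈ K) (hb : b ∈ K) {u v : V} (hu : u ∈ A)
    (huv : G.Adj u v) (huS : u ∈ S) (hvS : v ∈ S) (hS : S ⊆ G.support) (hS3 : 3 ≤ S.ncard) :
    False := by
  obtain ⟨s, t, hst⟩ := h.pair
  have h1 := h.cover ha s t (fun e => absurd hb e) fun y _ => hst y
  have h2 : ∀ x ∈ A, x ∈ S → At G K x := fun x hx hxS =>
    ((h1 x hx).resolve_left fun e => h.dj x e hxS).2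
  have hv : v ∈ A := by
    by_contra hn
    rcases h.hab u hu v hn huv with rfl | rfl
    exacts [h.dj _ ha hvS, h.dj _ hb hvS]
  have h3 := h.two u huS v hvS huv.ne (h2 u hu huS) (h2 v hv hvS)
  obtain ⟨z, hz, z1, z2⟩ := xdeg2b_third hS3 u v
  have hzA : z ∉ A := fun e => (h3 z hz (h2 z e hz)).elim z1 z2
  obtain ⟨s0, s1, s2, s3⟩ := h.out ha (hS hz) hzA fun e => h.dj z e hz
  rcases h3 s0 s1 s3 with rfl | rfl
  exacts [s2 hu, s2 hv]

theorem one (h : xdeg2bCtx G A S K a b) (hG : TwoC G) (hne : a ≠ b) (ha : a ∈ K) (hb : b ∉ K)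
    {u : V} (hu : u ∈ A) (h3 : 3 ≤ (G.neighborSet u).ncard) (huS : u ∈ S) (hS : S ⊆ G.support)
    (hS3 : 3 ≤ S.ncard) : False := by
  obtain ⟨s0, s1, s2, s3⟩ := h.out ha (h.hbA.elim fun _ e => e.2.left_mem_support) h.hb hb
  have h0 : ∀ x ∈ A, x ∈ S → At G K x → ∀ y ∈ A, y ∈ S → At G K y → y = x :=
    fun x hx hxS hx' y hy hyS hy' =>
      (h.two s0 s1 x hxS (fun e => s2 (e ▸ hx)) s3 hx' y hyS hy').resolve_left
        fun e => s2 (e ▸ hy)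
  obtain ⟨s, hs⟩ : ∃ s, ∀ y ∈ A, y ∈ S → At G K y → y = s := by
    by_cases e : ∃ x ∈ A, x ∈ S ∧ At G K x
    · obtain ⟨x, x1, x2, x3⟩ := e
      exact ⟨x, h0 x x1 x2 x3⟩
    · exact ⟨a, fun y y1 y2 y3 => absurd ⟨y, y1, y2, y3⟩ e⟩
  have h1 := h.cover ha s b (fun _ => Or.inr rfl) fun y y1 y2 y3 => Or.inl (hs y y1 y2 y3)
  have hu' : At G K u := ((h1 u hu).resolve_left fun e => h.dj u e huS).2
  have h2 : ∀ x ∈ A, x ∈ K ∨ x = u := fun x hx =>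
    (h1 x hx).imp_right fun e => h0 u hu huS hu' x hx e.1 e.2
  obtain ⟨z, hz, z1, z2⟩ := xdeg2b_third hS3 u b
  have hbT : ¬ (b ∈ S ∧ At G K b) := by
    rintro ⟨b1, b2⟩
    have h4 := h.two u huS b b1 (fun e => h.hb (e ▸ hu)) hu' b2
    have h5 : G.support \ {b} ⊆ K ∪ A := (hG.2 b).closed
      ⟨h.haA.elim fun _ e => e.2.left_mem_support, hne⟩ (Or.inl ha) (by
        rintro x - (hx | hx) y hy e
        · rcases h.nbr hx e.symm with h6 | h6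
          · exact Or.inl h6
          · exact Or.inr (((h4 y h6.1 h6.2).resolve_right hy.2) ▸ hu)
        · by_cases hyA : y ∈ A
          · exact Or.inr hyA
          · exact Or.inl (((h.hab x hx y hyA e).resolve_right hy.2) ▸ ha))
    rcases h5 ⟨hS hz, z2⟩ with e | e
    · exact h.dj z e hz
    · exact (h2 z e).elim (fun e => h.dj z e hz) z1
  have h4 := h.empty (A' := K ∩ A) Set.inter_subset_right hu (fun e => h.dj u e.1 huS) a u
    (fun x hx y hy e => by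
      by_cases hyA : y ∈ A
      · exact Or.inr ((h2 y hyA).resolve_left fun e => hy ⟨e, hyA⟩)
      · refine Or.inl ((h.hab x hx.2 y hyA e).resolve_right ?_)
        rintro rfl
        exact (h.nbr hx.1 e.symm).elim hb hbT)
  obtain ⟨y, hy, y1, y2⟩ := xdeg2b_third h3 a b
  by_cases hyA : y ∈ A
  · exact (h2 y hyA).elim (fun e => h4 y ⟨e, hyA⟩) (G.ne_of_adj hy).symm
  · exact (h.hab u hu y hyA hy).elim y1 y2

end xdeg2bCtx

/-- in a minimal side, no part outside a torso set touches the closed side -/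
theorem deg2_key {G : SimpleGraph V} (hG : TwoC G) {A : Set V} (hA : A ⊆ G.support)
    (h3 : ∀ x ∈ A, 3 ≤ (G.neighborSet x).ncard) {a b : V}
    (hab : ∀ x ∈ A, ∀ y, y ∉ A → G.Adj x y → y = a ∨ y = b)
    (hc : Cn G (G.support \ A)) (h2 : 2 ≤ (G.support \ A).ncard)
    (hmin : ∀ A' ⊂ A, A'.Nonempty → ∀ a' b', ¬ ∀ x ∈ A', ∀ y, y ∉ A' → G.Adj x y →
      y = a' ∨ y = b') {u v : V} (hu : u ∈ A) (huv : G.Adj u v) {S : Set V} (huS : u ∈ S)
    (hvS : v ∈ S) (hS : S ⊆ G.support) (hS3 : 3 ≤ S.ncard)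
    (hatt : ∀ n, Att G n S fun _ _ => True) :
    A ⊆ S ∧ ∀ x ∈ A, ∀ y, G.Adj x y → y ∈ S := by
  obtain ⟨p, hp, q, hq, hpq⟩ := (Set.one_lt_ncard (Set.toFinite _)).1 h2
  obtain ⟨Q, -, hQ, -, -, a', ha', b', hb', hne, h4, h5⟩ :=
    hG.two_att (S := G.support \ A) hpq ⟨hp, hp.1⟩ ⟨hq, hq.1⟩ (hA hu) fun e => e.2 hu
  have hQA : Q ⊆ A := fun x hx => by
    by_contra e
    exact (hQ hx).2 ⟨(hQ hx).1, e⟩
  have h6 : At G A a' := h4.mono le_rfl hQA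
  have h7 : At G A b' := h5.mono le_rfl hQA
  have hab' : ∀ x ∈ A, ∀ y, y ∉ A → G.Adj x y → y = a' ∨ y = b' := by
    intro x hx y hy e
    obtain ⟨x1, hx1, e1⟩ := h6
    obtain ⟨x2, hx2, e2⟩ := h7
    rcases hab x hx y hy e with r | r <;> rcases hab x1 hx1 a' ha'.2 e1.symm with r1 | r1 <;>
      rcases hab x2 hx2 b' hb'.2 e2.symm with r2 | r2 <;> simp_all
  have key : ∀ w ∈ G.support, w ∈ A ∨ w = a' ∨ w = b' → w ∈ S := by
    intro w hw hw'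
    by_contra hwS
    obtain ⟨K, k1, k2, k3, k4⟩ := exists_comp G (G.support \ S) (x := w) ⟨hw, hwS⟩
    have h : xdeg2bCtx G A S K a' b' := ⟨hab', hc, hmin, ha'.2, hb'.2, h6, h7,
      fun x hx => (k2 hx).2,
      fun x hx y e => by
        by_cases hy : y ∈ S
        exacts [Or.inr hy, Or.inl (k4 x hx y ⟨e.right_mem_support, hy⟩ e)],
      fun x hx y hy e x1 y1 => (hatt _ K le_rfl
        (Set.disjoint_left.2 fun x hx => (k2 hx).2) k3 x hx y hy e x1 y1).2⟩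
    by_cases e1 : a' ∈ K <;> by_cases e2 : b' ∈ K
    · exact h.both e1 e2 hu huv huS hvS hS hS3
    · exact h.one hG hne e1 e2 hu (h3 u hu) huS hS hS3
    · exact h.swap.one hG hne.symm e2 e1 hu (h3 u hu) huS hS hS3
    · rcases hw' with e | rfl | rfl
      exacts [h.neither k3 e1 e2 k1 e hu huS, e1 k1, e2 k1]
  refine ⟨fun x hx => key x (hA hx) (Or.inl hx), fun x hx y e => key y e.right_mem_support ?_⟩
  by_cases hy : y ∈ A
  exacts [Or.inl hy, Or.inr (hab' x hx y hy e)]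

end Pool.Agent.MP_1c0fc2_co.RI
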