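import Pool.Agent.MP_1c0fc2_co.RI.Two

open Function SimpleGraph

namespace Pool.Agent.MP_1c0fc2_co.RI

variable {V W W' : Type} [Finite V] [Finite W] {H : SimpleGraph W}

omit [Finite W] in
theorem xprime_tor {J G : SimpleGraph V} {S : Set V} (hle : J ≤ G) (hT : Tor H G S) :
    Tor H J (S ∩ J.support) := by
  obtain ⟨h1, f, hf, h2⟩ := hT
  refine ⟨fun n => (h1 _).sub hle le_rfl n, f, hf.mono Set.inter_subset_left, ?_⟩
  rintro a b ⟨hab, ha, hb, h⟩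
  refine h2 a b ⟨hab, ha.1, hb.1, h.imp (fun h => hle h) ?_⟩
  rintro ⟨Q, hd, hc, h3, h4⟩
  exact ⟨Q, Set.disjoint_left.2 fun z hz hS =>
    Set.disjoint_left.1 hd hz ⟨hS, hc.sub_support h3 hz⟩, hc.mono hle, h3.mono hle le_rfl,
    h4.mono hle le_rfl⟩

omit [Finite V] in
theorem xprime_edge {x y : V} (h : x ≠ y) : (edge x y).support = {x, y} := by
  ext z
  simp only [mem_support, edge_adj, Set.mem_insert_iff, Set.mem_singleton_iff]
  constructor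
  · rintro ⟨w, h1 | h1, -⟩
    · exact .inl h1.1
    · exact .inr h1.1
  · rintro (rfl | rfl)
    · exact ⟨y, .inl ⟨rfl, rfl⟩, h⟩
    · exact ⟨x, .inr ⟨rfl, rfl⟩, h.symm⟩

theorem Stiff.anti {J : SimpleGraph V} {ρ ρ' : Set V} (h : Stiff H J ρ) (hρ : ρ ⊆ ρ') :
    Stiff H J ρ' :=
  ⟨h.1, fun S hS => h.2 S (hρ.trans hS)⟩

theorem Stiff.mono {J J' : SimpleGraph V} {ρ : Set V} (h : Stiff H J ρ) (hle : J ≤ J')
    (hs : J'.support ⊆ J.support) : Stiff H J' ρ := by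
  refine ⟨h.1.mono hle hs, fun S h1 h2 h3 hT => ?_⟩
  have h4 := xprime_tor hle hT
  rw [Set.inter_eq_left.2 (h2.subset.trans hs)] at h4
  exact h.2 S h1 (h2.trans_le hs) h3 h4

/-- a stiff subgraph with three vertices in a torso set lies in it -/
theorem Stiff.sub {J G : SimpleGraph V} {ρ S : Set V} (h : Stiff H J ρ) (hle : J ≤ G)
    (hρ : ρ ⊆ S) (hρ' : ρ ⊆ J.support) (hT : Tor H G S) (h3 : 3 ≤ (S ∩ J.support).ncard) :
    J.support ⊆ S := by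
  by_contra hn
  exact h.2 _ (Set.subset_inter hρ hρ')
    ⟨Set.inter_subset_right, fun h' => hn (h'.trans Set.inter_subset_left)⟩ h3 (xprime_tor hle hT)

theorem rs_k2 {J : SimpleGraph V} : RS H k2 J ↔ ∃ u v, J.Adj u v ∧ Stiff H J {u, v} := by
  constructor
  · rintro ⟨R, ⟨h1, h2⟩, h3⟩
    obtain ⟨x, y, hxy, rfl⟩ := isCp_k2.1 h1
    rw [xprime_edge hxy] at h3
    exact ⟨x, y, h2 ((edge_adj _ _ _ _).2 ⟨.inl ⟨rfl, rfl⟩, hxy⟩), h3⟩
  · rintro ⟨u, v, h1, h2⟩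
    refine ⟨edge u v, ⟨isCp_k2.2 ⟨u, v, h1.ne, rfl⟩, fun a b hab => ?_⟩, ?_⟩
    · obtain ⟨⟨rfl, rfl⟩ | ⟨rfl, rfl⟩, -⟩ := (edge_adj _ _ _ _).1 hab
      · exact h1
      · exact h1.symm
    · rwa [xprime_edge h1.ne]

theorem rs_bot [Nonempty V] {J : SimpleGraph V} :
    RS H (⊥ : SimpleGraph W') J ↔ Stiff H J ∅ := by
  have key : ∀ f : W' → V, (⊥ : SimpleGraph W').map f = ⊥ := fun f => by
    ext a b
    rw [map_adj_inj (by simp)]
    simp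
  constructor
  · rintro ⟨R, ⟨⟨f, -, rfl⟩, -⟩, h3⟩
    simpa [key] using h3
  · intro h
    exact ⟨⊥, ⟨⟨fun _ => Classical.arbitrary V, by simp, (key _).symm⟩, bot_le⟩, by simpa using h⟩

theorem xprime_cut {J : SimpleGraph W} {ρ Q : Set W} (h : Stiff H J ρ) (hle : J ≤ H)
    (hρ : ρ ⊆ J.support) {x y a c : W} (hxy : J.Adj x y) (ha : a ∈ Q)
    (hQ : Q ⊆ J.support \ {x, y}) (hcl : ∀ p ∈ Q, ∀ q ∈ J.support \ {x, y}, J.Adj p q → q ∈ Q)
    (hc : c ∈ J.support \ {x, y}) (hcQ : c ∉ Q) (hd : Disjoint Q ρ) : False := by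
  have key : ∀ Q' : Set W, Disjoint Q' (J.support \ Q) → Cn J Q' → ∀ z ∈ J.support \ Q,
      At J Q' z → z = x ∨ z = y := by
    intro Q' hd' hc' z hz hat
    by_contra hn
    obtain ⟨w, hw, hzw⟩ := id hat
    have hwQ : w ∈ Q := by
      by_contra hwQ
      exact Set.disjoint_left.1 hd' hw ⟨hc'.sub_support hat hw, hwQ⟩
    exact hz.2 (hcl w hwQ z ⟨hz.1, hn⟩ hzw.symm)
  refine h.2 (J.support \ Q) (fun z hz => ⟨hρ hz, fun hq => Set.disjoint_left.1 hd hq hz⟩)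
    ⟨Set.diff_subset, fun h' => (h' (hQ ha).1).2 ha⟩ ?_ ⟨?_, id, Set.injOn_id _, ?_⟩
  · have hcx : c ≠ x := fun e => hc.2 (.inl e)
    have hcy : c ≠ y := fun e => hc.2 (.inr e)
    have h3 : ({x, y, c} : Set W).ncard = 3 :=
      Set.ncard_eq_three.2 ⟨x, y, c, hxy.ne, hcx.symm, hcy.symm, rfl⟩
    rw [← h3]
    refine Set.ncard_le_ncard ?_
    rintro z (rfl | rfl | rfl)
    · exact ⟨⟨y, hxy⟩, fun hq => (hQ hq).2 (.inl rfl)⟩
    · exact ⟨⟨x, hxy.symm⟩, fun hq => (hQ hq).2 (.inr rfl)⟩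
    · exact ⟨hc.1, hcQ⟩
  · intro n Q' _ hd' hc' p hp q hq hpq h1 h2
    refine ⟨trivial, fun z hz h3 => ?_⟩
    have e1 := key Q' hd' hc' p hp h1
    have e2 := key Q' hd' hc' q hq h2
    have e3 := key Q' hd' hc' z hz h3
    grind
  · rintro p q ⟨hpq, hp, hq, h1 | ⟨Q', hd', hc', h1, h2⟩⟩
    · exact hle h1
    · rcases key Q' hd' hc' p hp h1 with rfl | rfl <;>
        rcases key Q' hd' hc' q hq h2 with rfl | rfl
      · exact absurd rfl hpq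
      · exact hle hxy
      · exact hle hxy.symm
      · exact absurd rfl hpq

theorem Stiff.prime {J : SimpleGraph W} {ρ : Set W} (h : Stiff H J ρ) (hle : J ≤ H)
    (hρ : ρ = ∅ ∨ ∃ u v, J.Adj u v ∧ ρ = {u, v}) : Prime J := by
  refine ⟨h.1, fun x y hxy a ha b hb => ?_⟩
  have hρs : ρ ⊆ J.support := by
    rcases hρ with rfl | ⟨u, v, huv, rfl⟩
    · exact Set.empty_subset _
    · rintro z (rfl | rfl)
      · exact ⟨v, huv⟩
      · exact ⟨u, huv.symm⟩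
  obtain ⟨Q, haQ, hQ, hc, hcl⟩ := exists_comp J _ ha
  obtain ⟨R, hbR, hR, hc', hcl'⟩ := exists_comp J _ hb
  by_contra hn
  have hbQ : b ∉ Q := fun hbQ =>
    hn (Relation.ReflTransGen.mono (fun u v h => ⟨hQ h.1, hQ h.2.1, h.2.2⟩) _ _
      (hc a haQ b hbQ))
  have hQR : ∀ z ∈ Q, z ∉ R := fun z hz hz' =>
    hbQ (hc'.closed hz' hz (fun p _ hp q hq => hcl p hp q (hR hq)) hbR)
  by_cases h1 : Disjoint Q ρ
  · exact xprime_cut h hle hρs hxy haQ hQ hcl hb hbQ h1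
  by_cases h2 : Disjoint R ρ
  · exact xprime_cut h hle hρs hxy hbR hR hcl' ha (hQR a haQ) h2
  obtain ⟨p, hp, hp'⟩ := Set.not_disjoint_iff.1 h1
  obtain ⟨q, hq, hq'⟩ := Set.not_disjoint_iff.1 h2
  rcases hρ with rfl | ⟨u, v, huv, rfl⟩
  · exact hp'
  · rcases hp' with rfl | rfl <;> rcases hq' with rfl | rfl
    · exact hQR _ hp hq
    · exact hQR _ (hcl _ hp _ (hR hq) huv) hq
    · exact hQR _ (hcl _ hp _ (hR hq) huv.symm) hq
    · exact hQR _ hp hq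

theorem exists_stiff (h : ∃ J ≤ H, TwoC J) : ∃ J ≤ H, Stiff H J ∅ := by
  obtain ⟨J, hJ, hmin⟩ := Set.exists_min_image {J | J ≤ H ∧ TwoC J} (fun J => J.support.ncard)
    (Set.toFinite _) h
  refine ⟨J, hJ.1, hJ.2, ?_⟩
  rintro S - hS h3 ⟨-, f, hf, h2⟩
  obtain ⟨h4, h5⟩ := hJ.2.tor hS.subset h3
  have hf' : Set.InjOn f (tor J S).support := by rwa [h5]
  have hcp : IsCp (tor J S) ((tor J S).map f) := ⟨f, hf', rfl⟩
  have h6 := hmin ((tor J S).map f) ⟨fun a b hab => ?_, hcp.twoC h4⟩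
  · simp only [hcp.ncard, h5] at h6
    exact absurd (Set.ncard_lt_ncard hS) (not_lt.2 h6)
  · obtain ⟨p, q, hpq, rfl, rfl⟩ := (map_adj_inj hf').1 hab
    exact h2 p q hpq

theorem exists_T (h : ∃ J ≤ H, TwoC J) : ∃ T, Mx H (RS H (⊥ : SimpleGraph W)) T := by
  obtain ⟨J, hJ, hs⟩ := exists_stiff h
  obtain ⟨x, -⟩ := hs.1.ne_bot
  have : Nonempty W := ⟨x⟩
  exact exists_mx H _ ⟨J, hJ, rs_bot.2 hs⟩

theorem exists_alpha (h : ∃ J ≤ H, TwoC J) : ∃ α, Mx H (RS H k2) α := by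
  obtain ⟨J, hJ, hs⟩ := exists_stiff h
  obtain ⟨x, y, hxy⟩ := hs.1.ne_bot
  exact exists_mx H _ ⟨J, hJ, rs_k2.2 ⟨x, y, hxy, hs.anti (Set.empty_subset _)⟩⟩

theorem exists_beta {Θ : SimpleGraph W} (hle : Θ ≤ H) (h : TwoC Θ) :
    ∃ β, Mx H (RS H Θ) β :=
  exists_mx H _ ⟨Θ, hle, Θ, ⟨IsCp.refl _, le_rfl⟩, h, fun _ h1 h2 => absurd h1 h2.2⟩

theorem Gate.mono {k : Prop} {G G' J : SimpleGraph V} (h : Gate k G J) (hle : G' ≤ G) :
    Gate k G' J :=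
  ⟨fun x hx y hy h' => h.1 x hx y hy (hle h'),
    fun n => (h.2 n).mono hle le_rfl fun _ _ _ _ _ h => h⟩

theorem xprime_unc {K K' : SimpleGraph V} (h : TwoC K')
    (hs : (K.support ∩ K'.support).Subsingleton) : Unc K K' := by
  rcases hs.eq_empty_or_singleton with h0 | ⟨x, hx⟩
  · have e : K'.support \ K.support = K'.support := by
      ext z
      exact ⟨fun hz => hz.1, fun hz => ⟨hz, fun hz' => (Set.ext_iff.1 h0 z).1 ⟨hz', hz⟩⟩⟩
    obtain ⟨a, b, hab⟩ := h.ne_bot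
    refine ⟨⟨a, e.symm ▸ ⟨b, hab⟩⟩, e.symm ▸ h.cn, fun z hz => ?_⟩
    exact ((Set.ext_iff.1 h0 z).1 ⟨hz.2, hz.1⟩).elim
  · have hx' : x ∈ K.support ∩ K'.support := hx ▸ rfl
    have e : K'.support \ K.support = K'.support \ {x} := by
      ext z
      exact ⟨fun hz => ⟨hz.1, fun e => hz.2 (e ▸ hx'.1)⟩,
        fun hz => ⟨hz.1, fun hz' => hz.2 (hx ▸ ⟨hz', hz.1⟩)⟩⟩
    obtain ⟨y, hy⟩ := hx'.2
    have hy' : y ∈ K'.support \ {x} := ⟨⟨x, hy.symm⟩, hy.ne'⟩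
    refine ⟨⟨y, e.symm ▸ hy'⟩, e.symm ▸ h.2 x, fun z hz => ?_⟩
    have hz' : z ∈ ({x} : Set V) := hx ▸ ⟨hz.2, hz.1⟩
    rw [e, show z = x from hz']
    exact ⟨y, hy', hy⟩

theorem unc_of_prime {A K K' : SimpleGraph V} (hK : Gate True A K) (hK' : Gate True A K')
    (hle : K ≤ A) (hle' : K' ≤ A) (hp : Prime K') (he : ec K = ec K') (hne : K ≠ K') : Unc K K' := by
  by_cases hs : (K.support ∩ K'.support).Subsingleton
  · exact xprime_unc hp.1 hs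
  obtain ⟨a, ha, b, hb, hab⟩ := Set.not_subsingleton_iff.1 hs
  have hn : ¬ K'.support ⊆ K.support := fun hsub =>
    hne (eq_of_le_ec (J := K') (K := K) (fun x y hxy =>
      hK.1 x (hsub ⟨y, hxy⟩) y (hsub ⟨x, hxy.symm⟩) (hle' hxy)) he.le).symm
  obtain ⟨w, hw, hw'⟩ := Set.not_subset.1 hn
  obtain ⟨Q, hwQ, hQ, hc, hcl, x, hx, y, hy, hxy, h1, h2⟩ := hp.1.two_att hab ha hb hw hw'
  obtain ⟨⟨-, h3⟩, h4⟩ := hK.2 _ Q le_rfl (Set.disjoint_left.2 fun z hz => (hQ hz).2)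
    (hc.mono hle') x hx y hy hxy (h1.mono hle' le_rfl) (h2.mono hle' le_rfl)
  have h5 : K'.Adj x y := by
    obtain ⟨p, -, hp'⟩ := h1
    obtain ⟨q, -, hq'⟩ := h2
    exact hK'.1 x ⟨p, hp'⟩ y ⟨q, hq'⟩ (hle h3)
  have h6 : K'.support \ {x, y} ⊆ Q := by
    refine (hp.2 x y h5).closed (a := w) ⟨hw, ?_⟩ hwQ fun p _ hp' q hq hpq => ?_
    · rintro (rfl | rfl)
      · exact hw' hx
      · exact hw' hy
    · by_contra hqQ
      have hqK : q ∈ K.support := by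
        by_contra hqK
        exact hqQ (hcl p hp' q hqK hpq)
      exact hq.2 (h4 q hqK ⟨p, hp', hle' hpq.symm⟩)
  have e : K'.support \ K.support = Q := by
    refine Set.Subset.antisymm (fun z hz => h6 ⟨hz.1, ?_⟩) hQ
    rintro (rfl | rfl)
    · exact hz.2 hx
    · exact hz.2 hy
  refine ⟨⟨w, hw, hw'⟩, e.symm ▸ hc, fun z hz => ?_⟩
  rw [e]
  by_cases hz' : z ∈ ({x, y} : Set V)
  · rcases hz' with rfl | rfl
    · exact h1
    · exact h2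
  · exact absurd hz.2 (hQ (h6 ⟨hz.1, hz'⟩)).2

theorem unc_of_subsingleton {K K' : SimpleGraph V} (h : TwoC K')
    (hs : (K.support ∩ K'.support).Subsingleton) : Unc K K' :=
  xprime_unc h hs

end Pool.Agent.MP_1c0fc2_co.RI
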