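import Pool.Agent.MP_1c0fc2_co.RI.Deg2a
import Pool.Agent.MP_1c0fc2_co.RI.Deg2b
import Pool.Agent.MP_1c0fc2_co.RI.Prime

open Function SimpleGraph

namespace Pool.Agent.MP_1c0fc2_co.RI

variable {W : Type} [Finite W] {H : SimpleGraph W}

/-- a side of a 2-connected graph all of whose vertices have degree at least three -/
structure xdeg2Ex (H G : SimpleGraph W) (A : Set W) : Prop where
  le : G ≤ H
  two : TwoC G
  sub : A ⊆ G.support
  ne : A.Nonempty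
  deg : ∀ x ∈ A, 3 ≤ (G.neighborSet x).ncard
  bd : ∃ a b, ∀ x ∈ A, ∀ y, y ∉ A → G.Adj x y → y = a ∨ y = b
  cn : Cn G (G.support \ A)
  big : 2 ≤ (G.support \ A).ncard

theorem xdeg2_att {G : SimpleGraph W} {A : Set W} (hG : TwoC G) (hA : A ⊆ G.support)
    (hn : A.Nonempty) (h2 : 2 ≤ (G.support \ A).ncard) :
    ∃ x y, x ≠ y ∧ x ∉ A ∧ y ∉ A ∧ At G A x ∧ At G A y := by
  obtain ⟨a, b, ha, hb, hab⟩ := (Set.one_lt_ncard_iff (Set.toFinite _)).1 h2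
  obtain ⟨w, hw⟩ := hn
  obtain ⟨Q, -, hQ, -, -, x, hx, y, hy, hxy, h1, h2⟩ := hG.two_att (S := G.support \ A) hab
    ⟨ha, ha.1⟩ ⟨hb, hb.1⟩ (hA hw) fun h => h.2 hw
  have hQA : Q ⊆ A := fun z hz => by
    by_contra h
    exact (hQ hz).2 ⟨(hQ hz).1, h⟩
  exact ⟨x, y, hxy, hx.2, hy.2, h1.mono le_rfl hQA, h2.mono le_rfl hQA⟩

theorem xdeg2_shrink {G : SimpleGraph W} {A A' : Set W} (h : xdeg2Ex H G A) (hA : A' ⊂ A)
    (hn : A'.Nonempty) {a b : W} (hab : ∀ x ∈ A', ∀ y, y ∉ A' → G.Adj x y → y = a ∨ y = b) :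
    xdeg2Ex H G A' := by
  have hs : G.support \ A ⊆ G.support \ A' := Set.sdiff_subset_sdiff_right hA.1
  have h2 : 2 ≤ (G.support \ A').ncard := h.big.trans (Set.ncard_le_ncard hs)
  refine ⟨h.le, h.two, hA.1.trans h.sub, hn, fun x hx => h.deg x (hA.1 hx), ⟨a, b, hab⟩, ?_, h2⟩
  obtain ⟨x, y, hxy, hx, hy, ⟨x', hx', ex⟩, y', hy', ey⟩ :=
    xdeg2_att h.two (hA.1.trans h.sub) hn h2
  have hb : ∀ p ∈ A', ∀ q, q ∉ A' → G.Adj p q → q = x ∨ q = y := fun p hp q hq e => by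
    have e1 := hab x' hx' x hx ex.symm
    have e2 := hab y' hy' y hy ey.symm
    have e3 := hab p hp q hq e
    grind
  have c1 : Cn G ((G.support \ {y}) \ A') :=
    (h.two.2 y).diff_hang (x := x) ⟨⟨x', ex⟩, hxy⟩ hx fun p hp q hq e => by
      by_cases hq' : q ∈ A'
      · exact Or.inl hq'
      · exact Or.inr ((hb p hp q hq' e).resolve_right hq.2)
  have c2 : Cn G ((G.support \ {x}) \ A') :=
    (h.two.2 x).diff_hang (x := y) ⟨⟨y', ey⟩, hxy.symm⟩ hy fun p hp q hq e => by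
      by_cases hq' : q ∈ A'
      · exact Or.inl hq'
      · exact Or.inr ((hb p hp q hq' e).resolve_left hq.2)
  obtain ⟨z, hz, hz'⟩ : ∃ z ∈ G.support \ A', z ∉ ({x, y} : Set W) := by
    obtain ⟨w, hw, hw'⟩ := Set.exists_of_ssubset hA
    have h3 : (G.support \ A).ncard < (G.support \ A').ncard :=
      Set.ncard_lt_ncard ⟨hs, fun e => (e ⟨h.sub hw, hw'⟩).2 hw⟩
    by_contra hc
    push Not at hc
    have h4 := Set.ncard_le_ncard (s := G.support \ A') hc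
    rw [Set.ncard_pair hxy] at h4
    have := h.big
    omega
  have h5 := c1.union c2 ⟨z, ⟨⟨hz.1, fun e => hz' (Or.inr e)⟩, hz.2⟩,
    ⟨hz.1, fun e => hz' (Or.inl e)⟩, hz.2⟩
  convert h5 using 1
  ext w
  simp only [Set.mem_sdiff, Set.mem_union, Set.mem_singleton_iff]
  grind

theorem xdeg2_tor {G : SimpleGraph W} {A S : Set W} (h : xdeg2Ex H G A) (hS : S ⊆ G.support)
    (h3 : 3 ≤ S.ncard) (hA : A ⊆ S) (hN : ∀ x ∈ A, ∀ y, G.Adj x y → y ∈ S) {f : W → W}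
    (hf : Set.InjOn f S) (hH : ∀ a b, (tor G S).Adj a b → H.Adj (f a) (f b)) :
    xdeg2Ex H ((tor G S).map f) (f '' A) ∧ ((tor G S).map f).support = f '' S := by
  obtain ⟨t1, t2⟩ := h.two.tor hS h3
  have hf' : Set.InjOn f (tor G S).support := t2.symm ▸ hf
  have hs : ((tor G S).map f).support = f '' S := by rw [support_map_inj hf', t2]
  have hadj : ∀ x ∈ A, ∀ y, (tor G S).Adj x y ↔ G.Adj x y := fun x hx y => by
    refine ⟨fun e => e.2.2.2.resolve_right ?_, fun e => ⟨e.ne, hA hx, hN x hx y e, Or.inl e⟩⟩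
    rintro ⟨Q, hQ, -, ⟨z, hz, e'⟩, -⟩
    exact Set.disjoint_left.1 hQ hz (hN x hx z e')
  have hd : ((tor G S).map f).support \ f '' A = f '' (S \ A) := by
    rw [hs, hf.image_sdiff_subset hA]
  have hZ : (G.support \ A) ∩ S = S \ A := by
    ext w
    exact ⟨fun e => ⟨e.2, e.1.2⟩, fun e => ⟨⟨hS e.1, e.2⟩, e.1⟩⟩
  refine ⟨⟨fun x y e => ?_, IsCp.twoC ⟨f, hf', rfl⟩ t1, hs ▸ Set.image_mono hA, h.ne.image f,
    ?_, ?_, ?_, ?_⟩, hs⟩
  · obtain ⟨a, b, e', rfl, rfl⟩ := (map_adj_inj hf').1 e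
    exact hH a b e'
  · rintro _ ⟨x, hx, rfl⟩
    refine (h.deg x hx).trans ?_
    rw [← (hf.mono (s₁ := G.neighborSet x) fun y hy => hN x hx y hy).ncard_image]
    refine Set.ncard_le_ncard ?_
    rintro _ ⟨y, hy, rfl⟩
    exact (map_adj_inj hf').2 ⟨x, y, (hadj x hx y).2 hy, rfl, rfl⟩
  · obtain ⟨a, b, hab⟩ := h.bd
    refine ⟨f a, f b, ?_⟩
    rintro _ ⟨x, hx, rfl⟩ y hy e
    obtain ⟨x', y, e1, e', rfl⟩ := (map_adj_inj hf').1 e
    obtain rfl := hf e1.2.1 (hA hx) e'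
    exact (hab _ hx y (fun e'' => hy ⟨y, e'', rfl⟩) ((hadj _ hx y).1 e1)).imp (congrArg f)
      (congrArg f)
  · rw [hd]
    refine Cn.image (G := tor G S) (fun x hx y hy => ?_) f fun a _ b _ e =>
      Or.inr ((map_adj_inj hf').2 ⟨a, b, e, rfl, rfl⟩)
    have h4 := cn_tor h.cn S (hZ ▸ hx) (hZ ▸ hy)
    rw [hZ] at h4
    clear hy
    induction h4 with
    | refl => exact .refl
    | @tail b c _ e ih =>
      by_cases hbc : b = c
      · exact hbc ▸ ih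
      · refine ih.tail ⟨e.1, e.2.1, hbc, e.1.1, e.2.1.1, e.2.2.imp_right ?_⟩
        rintro ⟨Q, hQ, h5⟩
        exact ⟨Q, Set.disjoint_left.2 fun z hz => (hQ hz).2, h5⟩
  · rw [hd, (hf.mono Set.sdiff_subset).ncard_image]
    obtain ⟨x, y, hxy, hx, hy, ⟨x', hx', ex⟩, y', hy', ey⟩ := xdeg2_att h.two h.sub h.ne h.big
    exact (Set.one_lt_ncard_iff (Set.toFinite _)).2
      ⟨x, y, ⟨hN x' hx' x ex.symm, hx⟩, ⟨hN y' hy' y ey.symm, hy⟩, hxy⟩

theorem xdeg2_ec {G : SimpleGraph W} (hG : TwoC G) {u v : W} (huv : G.Adj u v)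
    (h3 : 3 ≤ (G.neighborSet u).ncard) : 4 ≤ ec G := by
  obtain ⟨w, hw, hwu⟩ : ∃ w, G.Adj v w ∧ w ≠ u := by
    obtain ⟨y, z, hyz, hy, hz⟩ := hG.two_nbr (x := v) ⟨u, huv.symm⟩
    by_cases e : y = u
    · exact ⟨z, hz, fun e' => hyz (e.trans e'.symm)⟩
    · exact ⟨y, hy, e⟩
  have h1 : s(v, w) ∉ (fun y => s(u, y)) '' G.neighborSet u := by
    rintro ⟨y, -, e⟩
    rcases Sym2.eq_iff.1 e with e | e
    · exact huv.ne e.1
    · exact hwu e.1.symm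
  have h2 : insert s(v, w) ((fun y => s(u, y)) '' G.neighborSet u) ⊆ G.edgeSet := by
    rintro _ (rfl | ⟨y, hy, rfl⟩)
    · exact hw
    · exact hy
  have h4 := Set.ncard_le_ncard h2
  rw [Set.ncard_insert_of_notMem h1,
    Set.ncard_image_of_injective _ fun y z e => Sym2.congr_right.1 e] at h4
  unfold ec
  omega

theorem xdeg2_not (h3 : ∀ J ≤ H, ∀ u v, J.Adj u v → Stiff H J {u, v} → ec J ≤ 3) (n : ℕ) :
    ∀ (G : SimpleGraph W) (A : Set W), A.ncard + G.support.ncard = n → ¬ xdeg2Ex H G A := by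
  induction n using Nat.strong_induction_on with
  | _ n ih =>
  rintro G A rfl h
  obtain ⟨u, hu⟩ := h.ne
  obtain ⟨v, huv⟩ := h.sub hu
  have h4 := xdeg2_ec h.two huv (h.deg u hu)
  refine absurd (h3 G h.le u v huv ⟨h.two, ?_⟩) (by omega)
  rintro S hS hS' hS3 ⟨hatt, f, hf, hH⟩
  obtain ⟨a, b, hab⟩ := h.bd
  obtain ⟨hA, hN⟩ := deg2_key h.two h.sub h.deg hab h.cn h.big
    (fun A' hA' hn a' b' e => ih _ (Nat.add_lt_add_right (Set.ncard_lt_ncard hA') _) G A' rfl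
      (xdeg2_shrink h hA' hn e)) hu huv (hS (Or.inl rfl)) (hS (Or.inr rfl)) hS'.1 hS3 hatt
  obtain ⟨h5, h6⟩ := xdeg2_tor h hS'.1 hS3 hA hN hf hH
  refine ih _ ?_ _ _ rfl h5
  rw [h6, hf.ncard_image, (hf.mono hA).ncard_image]
  exact Nat.add_lt_add_left (Set.ncard_lt_ncard hS') _

theorem deg2 (h3 : ∀ J ≤ H, ∀ u v, J.Adj u v → Stiff H J {u, v} → ec J ≤ 3) :
    ∀ G ≤ H, G ≠ ⊥ → ∃ x ∈ G.support, (G.neighborSet x).ncard ≤ 2 := by
  intro G hG hne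
  by_contra hc
  push Not at hc
  obtain ⟨J, hJ, h2, a, b, hab, hd⟩ := deg2_start hne hc
  have hs : J.support \ (J.support \ {a, b}) = {a, b} := by
    refine Set.sdiff_sdiff_cancel_left ?_
    rintro _ (rfl | rfl)
    · exact ⟨_, hab⟩
    · exact ⟨_, hab.symm⟩
  refine xdeg2_not h3 _ J (J.support \ {a, b}) rfl ⟨hJ.trans hG, h2, Set.sdiff_subset, ?_,
    fun x hx => hd x hx.1 (fun e => hx.2 (Or.inl e)) fun e => hx.2 (Or.inr e),
    ⟨a, b, fun x _ y hy e => ?_⟩, ?_, ?_⟩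
  · rw [Set.sdiff_nonempty]
    intro e
    have h4 := Set.ncard_le_ncard e
    rw [Set.ncard_pair hab.ne] at h4
    have := h2.1
    omega
  · by_contra h
    exact hy ⟨⟨x, e.symm⟩, h⟩
  · rw [hs]
    exact (cn_of_subsingleton Set.subsingleton_singleton).insert ⟨b, rfl, hab⟩
  · rw [hs, Set.ncard_pair hab.ne]

end Pool.Agent.MP_1c0fc2_co.RI
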