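import Pool.Agent.MP_1c0fc2_co.RI.Two

open Function SimpleGraph

namespace Pool.Agent.MP_1c0fc2_co.RI

variable {V : Type} [Finite V]

omit [Finite V] in
theorem xdeg2a_comp {G : SimpleGraph V} {Y : Set V} (hY : ¬ Cn G Y) (c : V) :
    ∃ R ⊆ Y, R.Nonempty ∧ Cn G R ∧ (∀ a ∈ R, ∀ b ∈ Y, G.Adj a b → b ∈ R) ∧ c ∉ R ∧
      ∃ m ∈ Y, m ∉ R := by
  have key : ∀ R ⊆ Y, Cn G R → ∃ m ∈ Y, m ∉ R := fun R hR hc => by
    by_contra hn
    push Not at hn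
    exact hY (Set.Subset.antisymm hR hn ▸ hc)
  by_cases hc : c ∈ Y
  · obtain ⟨Rc, h1, h2, h3, h4⟩ := exists_comp G Y hc
    obtain ⟨w, hw, hw'⟩ := key Rc h2 h3
    obtain ⟨R, k1, k2, k3, k4⟩ := exists_comp G Y hw
    have hcR : c ∉ R := fun hcR =>
      hw' (k3.closed hcR h1 (fun x _ hx y hy hxy => h4 x hx y (k2 hy) hxy) k1)
    exact ⟨R, k2, ⟨w, k1⟩, k3, k4, hcR, c, hc, hcR⟩
  · obtain ⟨w, hw, -⟩ := key ∅ (Set.empty_subset _) (cn_of_subsingleton Set.subsingleton_empty)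
    obtain ⟨R, k1, k2, k3, k4⟩ := exists_comp G Y hw
    exact ⟨R, k2, ⟨w, k1⟩, k3, k4, fun h => hc (k2 h), key R k2 k3⟩

theorem xdeg2a_min {G : SimpleGraph V} (n : ℕ) : ∀ (Z : Set V) (c : V), Z.ncard = n → Cn G Z →
    (∃ w ∈ Z, w ≠ c) → (∀ x ∈ Z, x ≠ c → 3 ≤ (G.neighborSet x ∩ Z).ncard) →
    ∃ (Z : Set V) (c : V), Cn G Z ∧ (∃ w ∈ Z, w ≠ c) ∧
      (∀ x ∈ Z, x ≠ c → 3 ≤ (G.neighborSet x ∩ Z).ncard) ∧ ∀ x, Cn G (Z \ {x}) := by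
  induction n using Nat.strong_induction_on with
  | _ n ih =>
  intro Z c hn hZ hw hd
  by_cases hall : ∀ x, Cn G (Z \ {x})
  · exact ⟨Z, c, hZ, hw, hd, hall⟩
  push Not at hall
  obtain ⟨x, hx⟩ := hall
  obtain ⟨R, h1, h2, h3, h4, h5, m, hm, hm'⟩ := xdeg2a_comp hx c
  have hRZ : R ⊆ Z := h1.trans Set.sdiff_subset
  obtain ⟨z, hz, hzR, y, hy, hzy⟩ := hZ.exists_att hRZ h2 fun h => hm' (h hm.1)
  have hzx : z = x := by
    by_contra hne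
    exact hzR (h4 y hy z ⟨hz, hne⟩ hzy.symm)
  subst hzx
  refine ih (insert z R).ncard ?_ (insert z R) z rfl (h3.insert ⟨y, hy, hzy⟩)
    ⟨y, Or.inr hy, hzy.ne'⟩ fun u hu huz => ?_
  · rw [← hn]
    refine Set.ncard_lt_ncard ⟨Set.insert_subset hz hRZ, fun h => ?_⟩
    rcases h hm.1 with h | h
    · exact hm.2 h
    · exact hm' h
  · have huR : u ∈ R := hu.resolve_left huz
    refine (hd u (hRZ huR) fun h => h5 (h ▸ huR)).trans (Set.ncard_le_ncard ?_)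
    rintro v ⟨hv, hvZ⟩
    refine ⟨hv, ?_⟩
    by_cases hvz : v = z
    · exact Or.inl hvz
    · exact Or.inr (h4 u huR v ⟨hvZ, hvz⟩ hv)

/-- a graph of minimum degree three has a leaf block -/
theorem deg2_start {G : SimpleGraph V} (hne : G ≠ ⊥)
    (h : ∀ x ∈ G.support, 3 ≤ (G.neighborSet x).ncard) :
    ∃ J ≤ G, TwoC J ∧ ∃ a b, J.Adj a b ∧
      ∀ x ∈ J.support, x ≠ a → x ≠ b → 3 ≤ (J.neighborSet x).ncard := by
  obtain ⟨a, b, hab⟩ := ne_bot_iff_exists_adj.1 hne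
  obtain ⟨Z0, k1, -, k3, k4⟩ := exists_comp G Set.univ (Set.mem_univ a)
  have hb : b ∈ Z0 := k4 a k1 b trivial hab
  obtain ⟨Z, c, hZ, ⟨w, hw, hwc⟩, hd, hall⟩ := xdeg2a_min _ Z0 a rfl k3 ⟨b, hb, hab.ne'⟩
    fun x hx _ => (h x (k3.sub_support ⟨b, hb, hab⟩ hx)).trans
      (Set.ncard_le_ncard fun y hy => ⟨hy, k4 x hx y trivial hy⟩)
  have h3 := hd w hw hwc
  obtain ⟨y, hwy, hy⟩ : (G.neighborSet w ∩ Z).Nonempty :=
    Set.nonempty_of_ncard_ne_zero (by omega)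
  have hJ : (indu G Z).Adj w y := ⟨hwy, hw, hy⟩
  have hs : (indu G Z).support = Z := by
    refine Set.Subset.antisymm ?_ ?_
    · rintro x ⟨y, hxy⟩
      exact hxy.2.1
    · exact (hZ.mono' fun a ha b hb hab => (⟨hab, ha, hb⟩ : (indu G Z).Adj a b)).sub_support
        ⟨y, hy, hJ⟩
  have hN : ∀ x ∈ Z, x ≠ c → 3 ≤ ((indu G Z).neighborSet x).ncard := fun x hx hxc =>
    (hd x hx hxc).trans (Set.ncard_le_ncard fun y hy => ⟨hy.1, hx, hy.2⟩)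
  refine ⟨indu G Z, fun _ _ h => h.1, ⟨?_, fun x => ?_⟩, ?_⟩
  · rw [hs]
    exact h3.trans (Set.ncard_le_ncard Set.inter_subset_right)
  · rw [hs]
    exact (hall x).mono' fun a ha b hb hab => ⟨hab, ha.1, hb.1⟩
  · by_cases hc : c ∈ Z
    · obtain ⟨b', hb'⟩ : c ∈ (indu G Z).support := hs.symm ▸ hc
      exact ⟨c, b', hb', fun x hx hxc _ => hN x (hs ▸ hx) hxc⟩
    · exact ⟨w, y, hJ, fun x hx _ _ => hN x (hs ▸ hx) fun e => hc (e ▸ hs ▸ hx)⟩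

end Pool.Agent.MP_1c0fc2_co.RI
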