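import Pool.Agent.MP_1c0fc2_co.RI.Prime

open Function SimpleGraph

namespace Pool.Agent.MP_1c0fc2_co.RI

variable {W : Type} [Finite W] {H : SimpleGraph W}

omit [Finite W] in
theorem xe23_le (G : SimpleGraph W) (Z : Set W) : indu G Z ≤ G := fun _ _ h => h.1

omit [Finite W] in
theorem xe23_supp (G : SimpleGraph W) (Z : Set W) : (indu G Z).support ⊆ Z :=
  fun _ ⟨_, h⟩ => h.2.1

theorem xe23_lt {G : SimpleGraph W} {Z : Set W} {z : W} (hz : z ∈ G.support) (hZ : z ∉ Z) :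
    (indu G Z).support.ncard < G.support.ncard :=
  Set.ncard_lt_ncard ⟨support_mono (xe23_le G Z), fun h => hZ (xe23_supp G Z (h hz))⟩

theorem xe23_small {G : SimpleGraph W} (hG : G ≠ ⊥) (h : G.support.ncard < 3) :
    ec G + 3 ≤ 2 * G.support.ncard := by
  obtain ⟨a, b, hab⟩ := ne_bot_iff_exists_adj.1 hG
  have hs : ({a, b} : Set W) ⊆ G.support := by
    rintro x (rfl | rfl)
    exacts [hab.mem_support_left, hab.mem_support_right]
  have h2 : ({a, b} : Set W).ncard = 2 := Set.ncard_pair hab.ne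
  have he : ({a, b} : Set W) = G.support := Set.eq_of_subset_of_ncard_le hs (by omega)
  have h1 : G.edgeSet ⊆ {s(a, b)} := by
    intro e he'
    induction e using Sym2.ind with
    | _ u v =>
      have huv : G.Adj u v := he'
      have hu : u ∈ ({a, b} : Set W) := he ▸ huv.mem_support_left
      have hv : v ∈ ({a, b} : Set W) := he ▸ huv.mem_support_right
      have hne := huv.ne
      rcases hu with rfl | rfl <;> rcases hv with rfl | rfl
      · exact absurd rfl hne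
      · rfl
      · exact Sym2.eq_swap
      · exact absurd rfl hne
  have h4 := Set.ncard_le_ncard h1
  rw [Set.ncard_singleton] at h4
  unfold ec
  rw [← he, h2]
  omega

/-- splitting at a cut vertex -/
theorem xe23_cut {G : SimpleGraph W} {x : W} (hx : ¬ Cn G (G.support \ {x}))
    (ih : ∀ Z : Set W, (∃ z ∈ G.support, z ∉ Z) → indu G Z ≠ ⊥ →
      ec (indu G Z) + 3 ≤ 2 * (indu G Z).support.ncard) :
    ec G + 3 ≤ 2 * G.support.ncard := by
  obtain ⟨a, ha⟩ : (G.support \ {x}).Nonempty := by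
    by_contra h
    rw [Set.not_nonempty_iff_eq_empty] at h
    exact hx (cn_of_subsingleton (h ▸ Set.subsingleton_empty))
  obtain ⟨Q, haQ, hQ, hc, hcl⟩ := exists_comp G _ ha
  obtain ⟨b, hb, hbQ⟩ : ∃ b ∈ G.support \ {x}, b ∉ Q := by
    by_contra h
    push Not at h
    exact hx (Set.Subset.antisymm hQ h ▸ hc)
  have hA : ∀ u ∈ Q, ∀ v, G.Adj u v → (indu G (insert x Q)).Adj u v := fun u hu v huv => by
    refine ⟨huv, Or.inr hu, ?_⟩
    by_cases hv : v = x
    · exact Or.inl hv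
    · exact Or.inr (hcl u hu v ⟨huv.mem_support_right, hv⟩ huv)
  have hB : ∀ u ∉ Q, ∀ v ∉ Q, G.Adj u v → (indu G (G.support \ Q)).Adj u v :=
    fun u hu v hv huv => ⟨huv, ⟨huv.mem_support_left, hu⟩, huv.mem_support_right, hv⟩
  have h1 := ih (insert x Q) ⟨b, hb.1, fun h => h.elim hb.2 hbQ⟩ (by
    obtain ⟨c, hac⟩ := ha.1
    exact ne_bot_iff_exists_adj.2 ⟨a, c, hA a haQ c hac⟩)
  have h2 := ih (G.support \ Q) ⟨a, ha.1, fun h => h.2 haQ⟩ (by
    obtain ⟨c, hbc⟩ := hb.1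
    exact ne_bot_iff_exists_adj.2
      ⟨b, c, hB b hbQ c (fun h => hbQ (hcl c h b hb hbc.symm)) hbc⟩)
  have h3 : G.edgeSet ⊆ (indu G (insert x Q)).edgeSet ∪ (indu G (G.support \ Q)).edgeSet := by
    intro e he
    induction e using Sym2.ind with
    | _ u v =>
      have huv : G.Adj u v := he
      by_cases hu : u ∈ Q
      · exact Or.inl (hA u hu v huv)
      · by_cases hv : v ∈ Q
        · exact Or.inl (hA v hv u huv.symm).symm
        · exact Or.inr (hB u hu v hv huv)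
  have h4 := (Set.ncard_le_ncard h3).trans (Set.ncard_union_le _ _)
  have h5 := (Set.ncard_le_ncard (xe23_supp G (insert x Q))).trans (Set.ncard_insert_le x Q)
  have h6 := Set.ncard_le_ncard (xe23_supp G (G.support \ Q))
  have h7 := Set.ncard_sdiff_add_ncard_of_subset (hQ.trans Set.sdiff_subset)
  unfold ec at h1 h2 ⊢
  omega

/-- every vertex outside `S` belongs to an edge of the torso -/
theorem xe23_pi {G : SimpleGraph W} (hG : TwoC G) {S : Set W} (hS : S ⊆ G.support)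
    (h3 : 3 ≤ S.ncard) (hA : ∀ n, Att G n S fun _ _ => True) :
    ∃ π : W → Sym2 W, ∀ w ∈ G.support \ S, π w ∈ (tor G S).edgeSet ∧
      (∀ y ∈ S, G.Adj w y → y ∈ π w) ∧ ∀ y ∉ S, G.Adj w y → π y = π w := by
  obtain ⟨a, ha, b, hb, hab⟩ := (Set.one_lt_ncard (s := S)).1 (by omega)
  let R : W → Sym2 W → Prop := fun w p => ∃ x ∈ S, ∃ y ∈ S, x ≠ y ∧ p = s(x, y) ∧
    ∃ Q, w ∈ Q ∧ Disjoint Q S ∧ Cn G Q ∧ At G Q x ∧ At G Q y
  have key : ∀ w p, R w p → ∀ Q', w ∈ Q' → Disjoint Q' S → Cn G Q' → ∀ z ∈ S, At G Q' z →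
      z ∈ p := by
    rintro w _ ⟨x, hx, y, hy, hxy, rfl, Q, hw, hd, hc, ax, ay⟩ Q' hw' hd' hc' z hz az
    exact Sym2.mem_iff.2 ((hA _ (Q ∪ Q') le_rfl (hd.union_left hd') (hc.union hc' ⟨w, hw, hw'⟩)
      x hx y hy hxy (ax.mono le_rfl Set.subset_union_left)
      (ay.mono le_rfl Set.subset_union_left)).2 z hz (az.mono le_rfl Set.subset_union_right))
  have uniq : ∀ w p p', R w p → R w p' → p = p' := by
    rintro w p _ h ⟨x, hx, y, hy, hxy, rfl, Q, hw, hd, hc, ax, ay⟩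
    exact (Sym2.mem_and_mem_iff hxy).1
      ⟨key w p h Q hw hd hc x hx ax, key w p h Q hw hd hc y hy ay⟩
  have ex : ∀ w, ∃ p, w ∈ G.support \ S → R w p := fun w => by
    by_cases hw : w ∈ G.support \ S
    · obtain ⟨Q, hwQ, hQ, hc, -, x, hx, y, hy, hxy, ax, ay⟩ :=
        hG.two_att hab ⟨ha, hS ha⟩ ⟨hb, hS hb⟩ hw.1 hw.2
      exact ⟨s(x, y), fun _ => ⟨x, hx, y, hy, hxy, rfl, Q, hwQ,
        Set.disjoint_left.2 fun u hu => (hQ hu).2, hc, ax, ay⟩⟩
    · exact ⟨s(w, w), fun h => absurd h hw⟩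
  choose π hπ using ex
  refine ⟨π, fun w hw => ⟨?_, fun y hy hwy => ?_, fun y hy hwy => ?_⟩⟩
  · obtain ⟨x, hx, y, hy, hxy, e, Q, -, hd, hc, ax, ay⟩ := hπ w hw
    rw [e]
    exact ⟨hxy, hx, hy, Or.inr ⟨Q, hd, hc, ax, ay⟩⟩
  · exact key w _ (hπ w hw) {w} rfl (Set.disjoint_singleton_left.2 hw.2)
      (cn_of_subsingleton Set.subsingleton_singleton) y hy ⟨w, rfl, hwy.symm⟩
  · refine uniq y _ _ (hπ y ⟨hwy.mem_support_right, hy⟩) ?_
    obtain ⟨x, hx, z, hz, hxz, e, Q, hwQ, hd, hc, ax, az⟩ := hπ w hw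
    exact ⟨x, hx, z, hz, hxz, e, insert y Q, Or.inl rfl, Set.disjoint_insert_left.2 ⟨hy, hd⟩,
      hc.insert ⟨w, hwQ, hwy.symm⟩, ax.mono le_rfl (Set.subset_insert _ _),
      az.mono le_rfl (Set.subset_insert _ _)⟩

/-- counting edges along a torso -/
theorem xe23_tor {G : SimpleGraph W} (hG : TwoC G) {S : Set W} (hS : S ⊆ G.support)
    (h3 : 3 ≤ S.ncard) (hA : ∀ n, Att G n S fun _ _ => True)
    (ih : ∀ Z : Set W, (∃ z ∈ G.support, z ∉ Z) → indu G Z ≠ ⊥ →
      ec (indu G Z) + 3 ≤ 2 * (indu G Z).support.ncard) :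
    ec G ≤ ec (tor G S) + 2 * (G.support \ S).ncard := by
  classical
  obtain ⟨π, hπ⟩ := xe23_pi hG hS h3 hA
  set D : Finset W := (G.support \ S).toFinite.toFinset with hD
  set E : Finset (Sym2 W) := (tor G S).edgeSet.toFinite.toFinset with hE
  have mD : ∀ w, w ∈ D ↔ w ∈ G.support \ S := fun w => Set.Finite.mem_toFinset _
  have mE : ∀ p, p ∈ E ↔ p ∈ (tor G S).edgeSet := fun p => Set.Finite.mem_toFinset _
  let Z : Sym2 W → Set W := fun p => (D.filter fun w => π w = p : Finset W) ∪ {a | a ∈ p}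
  have mZ : ∀ w ∈ G.support \ S, w ∈ Z (π w) := fun w hw =>
    Or.inl (Finset.mem_coe.2 (Finset.mem_filter.2 ⟨(mD w).2 hw, rfl⟩))
  have hout : ∀ u ∉ S, ∀ v, G.Adj u v → s(u, v) ∈ ⋃ p ∈ E, (indu G (Z p)).edgeSet := by
    intro u hu v huv
    have hu' : u ∈ G.support \ S := ⟨huv.mem_support_left, hu⟩
    refine Set.mem_iUnion₂.2 ⟨π u, (mE _).2 (hπ u hu').1, huv, mZ u hu', ?_⟩
    by_cases hv : v ∈ S
    · exact Or.inr ((hπ u hu').2.1 v hv huv)
    · rw [← (hπ u hu').2.2 v hv huv]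
      exact mZ v ⟨huv.mem_support_right, hv⟩
  have h1 : G.edgeSet ⊆ ⋃ p ∈ E, (indu G (Z p)).edgeSet := by
    intro e he
    induction e using Sym2.ind with
    | _ u v =>
      have huv : G.Adj u v := he
      by_cases hu : u ∈ S
      · by_cases hv : v ∈ S
        · exact Set.mem_iUnion₂.2 ⟨s(u, v), (mE _).2 ⟨huv.ne, hu, hv, Or.inl huv⟩, huv,
            Or.inr (Sym2.mem_mk_left u v), Or.inr (Sym2.mem_mk_right u v)⟩
        · rw [Sym2.eq_swap]
          exact hout v hv u huv.symm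
      · exact hout u hu v huv
  have h2 : ∀ p ∈ E, (indu G (Z p)).edgeSet.ncard ≤
      1 + 2 * (D.filter fun w => π w = p).card := by
    intro p hp
    by_cases hb : indu G (Z p) = ⊥
    · rw [hb, edgeSet_bot, Set.ncard_empty]
      exact Nat.zero_le _
    have hp2 : {a | a ∈ p}.ncard ≤ 2 := by
      induction p using Sym2.ind with
      | _ u v =>
        have e : {a | a ∈ s(u, v)} = {u, v} := Set.ext fun a => Sym2.mem_iff
        rw [e]
        exact (Set.ncard_insert_le _ _).trans (by rw [Set.ncard_singleton])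
    obtain ⟨z, hz, hzp⟩ := Set.exists_mem_notMem_of_ncard_lt_ncard
      (s := {a | a ∈ p}) (t := S) (by omega)
    have h4 := ih (Z p) ⟨z, hS hz, fun h => h.elim
      (fun h => ((mD z).1 (Finset.mem_filter.1 (Finset.mem_coe.1 h)).1).2 hz) hzp⟩ hb
    have h5 := (Set.ncard_le_ncard (xe23_supp G (Z p))).trans (Set.ncard_union_le _ _)
    rw [Set.ncard_coe_finset] at h5
    unfold ec at h4
    omega
  have h6 := (Set.ncard_le_ncard h1).trans
    ((E.set_ncard_biUnion_le _).trans (Finset.sum_le_sum h2))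
  have h7 : D.card = ∑ p ∈ E, (D.filter fun w => π w = p).card :=
    Finset.card_eq_sum_card_fiberwise fun w hw => (mE _).2 (hπ w ((mD w).1 hw)).1
  rw [Finset.sum_add_distrib, ← Finset.mul_sum, ← h7, Finset.sum_const, smul_eq_mul,
    mul_one] at h6
  unfold ec
  rw [Set.ncard_eq_toFinset_card (tor G S).edgeSet, Set.ncard_eq_toFinset_card (G.support \ S)]
  exact h6

theorem e23 (h3 : ∀ J ≤ H, Stiff H J ∅ → ec J ≤ 3) :
    ∀ G ≤ H, G ≠ ⊥ → ec G + 3 ≤ 2 * G.support.ncard := by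
  intro G
  induction hn : G.support.ncard using Nat.strong_induction_on generalizing G with
  | _ n IH =>
    intro hle hG
    subst hn
    have ih : ∀ Z : Set W, (∃ z ∈ G.support, z ∉ Z) → indu G Z ≠ ⊥ →
        ec (indu G Z) + 3 ≤ 2 * (indu G Z).support.ncard := fun Z ⟨z, hz, hZ⟩ hb =>
      IH _ (xe23_lt hz hZ) _ rfl ((xe23_le G Z).trans hle) hb
    by_cases hs : G.support.ncard < 3
    · exact xe23_small hG hs
    by_cases hc : ∀ x, Cn G (G.support \ {x})
    swap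
    · push Not at hc
      obtain ⟨x, hx⟩ := hc
      exact xe23_cut hx ih
    have h2 : TwoC G := ⟨by omega, hc⟩
    by_cases hst : Stiff H G ∅
    · have := h3 G hle hst
      omega
    obtain ⟨S, hS, hS3, hA, f, hf, hfH⟩ : ∃ S, S ⊂ G.support ∧ 3 ≤ S.ncard ∧ Tor H G S := by
      by_contra h
      exact hst ⟨h2, fun S _ h1 h4 h5 => h ⟨S, h1, h4, h5⟩⟩
    obtain ⟨hT, hTs⟩ := h2.tor hS.1 hS3
    have hf' : Set.InjOn f (tor G S).support := hTs.symm ▸ hf
    have hsup : ((tor G S).map f).support.ncard = S.ncard := by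
      rw [support_map_inj hf', hTs, hf.ncard_image]
    have h4 := IH _ (hsup ▸ Set.ncard_lt_ncard hS) ((tor G S).map f) rfl
      (fun x y h => by
        obtain ⟨a, b, hab, rfl, rfl⟩ := (map_adj_inj hf').1 h
        exact hfH a b hab)
      (by
        obtain ⟨a, b, hab⟩ := hT.ne_bot
        exact ne_bot_iff_exists_adj.2 ⟨f a, f b, (map_adj_inj hf').2 ⟨a, b, hab, rfl, rfl⟩⟩)
    rw [hsup, ec_map hf'] at h4
    have h5 := xe23_tor h2 hS.1 hS3 hA ih
    have h6 := Set.ncard_sdiff_add_ncard_of_subset hS.1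
    omega

end Pool.Agent.MP_1c0fc2_co.RI
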