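import Pool.Agent.MP_1c0fc2_co.RI.GL
import Pool.Agent.MP_1c0fc2_co.RI.Cp

open Function SimpleGraph

namespace Pool.Agent.MP_1c0fc2_co.RI

variable {V : Type} [Finite V] {A : SimpleGraph V}

theorem xfk3_ind (h : ∀ G ≤ A, G ≠ ⊥ → ∃ x ∈ G.support, (G.neighborSet x).ncard ≤ 2) (n : ℕ) :
    ∀ Z : Set V, Z.ncard < n → ∃ U ⊆ Z, (indu A U).IsAcyclic ∧ Indep A (Z \ U) := by
  induction n with
  | zero => intro Z hZ; omega
  | succ n ih =>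
    intro Z hZ
    by_cases h0 : indu A Z = ⊥
    · refine ⟨∅, Set.empty_subset _, isAcyclic_bot.anti fun a b hab => hab.2.1, ?_⟩
      intro a ha b hb hab
      have : (indu A Z).Adj a b := ⟨hab, ha.1, hb.1⟩
      rwa [h0] at this
    obtain ⟨x, ⟨x', hx'⟩, hx⟩ := h (indu A Z) (fun a b hab => hab.1) h0
    have hxZ : x ∈ Z := hx'.2.1
    obtain ⟨U, hU, h1, h2⟩ := ih (Z \ {x}) (by
      have := Set.ncard_sdiff_singleton_lt_of_mem hxZ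
      omega)
    have hxU : x ∉ U := fun hh => (hU hh).2 rfl
    by_cases hw : ∃ w ∈ Z \ U, A.Adj x w
    · obtain ⟨w, hw, hxw⟩ := hw
      obtain ⟨y, hy⟩ : ∃ y, ∀ y' ∈ U, A.Adj x y' → y' = y := by
        by_cases hy : ∃ y ∈ U, A.Adj x y
        · obtain ⟨y, hy, hxy⟩ := hy
          refine ⟨y, fun y' hy' hxy' => by_contra fun hne => ?_⟩
          have h3 : ({w, y', y} : Set V).ncard = 3 := Set.ncard_eq_three.2
            ⟨w, y', y, fun e => hw.2 (e ▸ hy'), fun e => hw.2 (e ▸ hy), hne, rfl⟩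
          have h4 : ({w, y', y} : Set V) ⊆ (indu A Z).neighborSet x := by
            rintro t (rfl | rfl | rfl)
            exacts [⟨hxw, hxZ, hw.1⟩, ⟨hxy', hxZ, (hU hy').1⟩, ⟨hxy, hxZ, (hU hy).1⟩]
          have := Set.ncard_le_ncard h4
          omega
        · exact ⟨x, fun y' hy' hxy' => (hy ⟨y', hy', hxy'⟩).elim⟩
      refine ⟨insert x U, Set.insert_subset hxZ (hU.trans Set.sdiff_subset),
        (acyclic_add_leaf h1 (x := x) (y := y) fun ⟨t, ht⟩ => hxU ht.2.1).anti ?_, ?_⟩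
      · rintro a b ⟨hab, rfl | ha, rfl | hb⟩
        · exact (hab.ne rfl).elim
        · exact Or.inr ((edge_adj ..).2 ⟨Or.inl ⟨rfl, hy b hb hab⟩, hab.ne⟩)
        · exact Or.inr ((edge_adj ..).2 ⟨Or.inr ⟨hy a ha hab.symm, rfl⟩, hab.ne⟩)
        · exact Or.inl ⟨hab, ha, hb⟩
      · intro a ha b hb
        exact h2 a ⟨⟨ha.1, fun e => ha.2 (Or.inl e)⟩, fun e => ha.2 (Or.inr e)⟩ b
          ⟨⟨hb.1, fun e => hb.2 (Or.inl e)⟩, fun e => hb.2 (Or.inr e)⟩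
    · refine ⟨U, hU.trans Set.sdiff_subset, h1, fun a ha b hb hab => ?_⟩
      by_cases e1 : a = x
      · exact hw ⟨b, hb, e1 ▸ hab⟩
      by_cases e2 : b = x
      · exact hw ⟨a, ha, e2 ▸ hab.symm⟩
      exact h2 a ⟨⟨ha.1, e1⟩, ha.2⟩ b ⟨⟨hb.1, e2⟩, hb.2⟩ hab

theorem exists_f3 (h : ∀ G ≤ A, G ≠ ⊥ → ∃ x ∈ G.support, (G.neighborSet x).ncard ≤ 2) :
    ∃ U : Set V, (indu A U).IsAcyclic ∧ ∀ K, Cop tri A K → ∃ a ∈ U, ∃ b ∈ U, K.Adj a b := by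
  obtain ⟨U, -, h1, h2⟩ := xfk3_ind h _ Set.univ (Nat.lt_succ_self _)
  refine ⟨U, h1, fun K hK => ?_⟩
  obtain ⟨x, y, z, hxy, hyz, hxz, e⟩ := isCp_tri.1 hK.1
  have a1 : K.Adj x y := e ▸ Or.inl (Or.inl ((edge_adj ..).2 ⟨Or.inl ⟨rfl, rfl⟩, hxy⟩))
  have a2 : K.Adj y z := e ▸ Or.inl (Or.inr ((edge_adj ..).2 ⟨Or.inl ⟨rfl, rfl⟩, hyz⟩))
  have a3 : K.Adj x z := e ▸ Or.inr ((edge_adj ..).2 ⟨Or.inl ⟨rfl, rfl⟩, hxz⟩)
  have key : ∀ a b, K.Adj a b → a ∉ U → b ∈ U := fun a b hab ha => by_contra fun hb =>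
    h2 a ⟨trivial, ha⟩ b ⟨trivial, hb⟩ (hK.2 hab)
  by_cases hx : x ∈ U
  · by_cases hy : y ∈ U
    · exact ⟨x, hx, y, hy, a1⟩
    · exact ⟨x, hx, z, key y z a2 hy, a3⟩
  · exact ⟨y, key x y a1 hx, z, key x z a3 hx, a2⟩

end Pool.Agent.MP_1c0fc2_co.RI
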