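import Pool.Agent.MP_1c0fc2_co.RI.Cn

open Function SimpleGraph

namespace Pool.Agent.MP_1c0fc2_co.RI

variable {V : Type} {F₁ F₂ : SimpleGraph V} {Z₁ Z₂ : Set V} {c d : V}

theorem xgl_pair {x y : V} (hx : x ∈ ({c, d} : Set V)) (hy : y ∈ ({c, d} : Set V)) (h : x ≠ y) :
    s(x, y) = s(c, d) := by
  rcases hx with rfl | rfl <;> rcases hy with rfl | rfl
  · exact absurd rfl h
  · rfl
  · exact Sym2.eq_swap
  · exact absurd rfl h

theorem xgl_adj {G : SimpleGraph V} {x y : V} (e : s(x, y) = s(c, d)) : G.Adj x y ↔ G.Adj c d := by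
  rw [← mem_edgeSet, e, mem_edgeSet]

theorem xgl_reach {G : SimpleGraph V} {x y : V} (e : s(x, y) = s(c, d)) :
    G.Reachable x y ↔ G.Reachable c d := by
  rcases Sym2.eq_iff.1 e with ⟨rfl, rfl⟩ | ⟨rfl, rfl⟩
  · rfl
  · exact reachable_comm

theorem xgl_isol {G : SimpleGraph V} {x y : V} (hx : ∀ z, ¬ G.Adj x z) (h : G.Reachable x y) :
    x = y := by
  obtain ⟨p⟩ := h
  cases p with
  | nil => rfl
  | cons h _ => exact absurd h (hx _)

theorem glue_bridge (h1 : F₁.support ⊆ Z₁) (h2 : F₂.support ⊆ Z₂) (hZ : Z₁ ∩ Z₂ ⊆ {c, d})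
    (hcd : F₂.Adj c d → F₁.Adj c d) (hb : c ≠ d → F₂.IsBridge s(c, d)) {a b : V} (ha : a ∈ Z₁)
    (hb' : b ∈ Z₁) (h : F₁.IsBridge s(a, b)) : (F₁ ⊔ F₂).IsBridge s(a, b) := by
  rw [isBridge_iff] at h ⊢
  intro hr
  rw [reachable_iff_reflTransGen] at hr
  have hne : ∀ w w', F₂.Adj w w' → w ∉ Z₁ ∨ w' ∉ Z₁ → s(w, w') ≠ s(c, d) := by
    intro w w' hw ho e
    have h3 : F₁.Adj w w' := (xgl_adj e).2 (hcd ((xgl_adj e).1 hw))
    rcases ho with ho | ho
    · exact ho (h1 h3.mem_support_left)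
    · exact ho (h1 h3.mem_support_right)
  have key : ∀ w, Relation.ReflTransGen ((F₁ ⊔ F₂).deleteEdges {s(a, b)}).Adj a w →
      (w ∈ Z₁ ∧ (F₁.deleteEdges {s(a, b)}).Reachable a w) ∨
      (w ∉ Z₁ ∧ ∃ x ∈ Z₁ ∩ Z₂, (F₁.deleteEdges {s(a, b)}).Reachable a x ∧
        (F₂.deleteEdges {s(c, d)}).Reachable x w) := by
    intro w hw
    induction hw with
    | refl => exact .inl ⟨ha, Reachable.refl _⟩
    | @tail w w' _ hs ih =>
      rw [deleteEdges_adj, sup_adj] at hs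
      obtain ⟨hs, hn⟩ := hs
      rcases ih with ⟨w1, w2⟩ | ⟨w1, x, x1, x2, x3⟩
      · have k1 : F₁.Adj w w' → w' ∈ Z₁ ∧ (F₁.deleteEdges {s(a, b)}).Reachable a w' := fun h3 =>
          ⟨h1 h3.mem_support_right, w2.trans (Adj.reachable (deleteEdges_adj.2 ⟨h3, hn⟩))⟩
        rcases hs with hs | hs
        · exact .inl (k1 hs)
        · by_cases hz : w' ∈ Z₁
          · have e := xgl_pair (hZ ⟨w1, h2 hs.mem_support_left⟩)
              (hZ ⟨hz, h2 hs.mem_support_right⟩) hs.ne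
            exact .inl (k1 ((xgl_adj e).2 (hcd ((xgl_adj e).1 hs))))
          · exact .inr ⟨hz, w, ⟨w1, h2 hs.mem_support_left⟩, w2,
              Adj.reachable (deleteEdges_adj.2 ⟨hs, hne _ _ hs (.inr hz)⟩)⟩
      · rcases hs with hs | hs
        · exact absurd (h1 hs.mem_support_left) w1
        · have x4 : (F₂.deleteEdges {s(c, d)}).Reachable x w' :=
            x3.trans (Adj.reachable (deleteEdges_adj.2 ⟨hs, hne _ _ hs (.inl w1)⟩))
          by_cases hz : w' ∈ Z₁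
          · by_cases e : x = w'
            · exact .inl ⟨hz, e ▸ x2⟩
            · have e' := xgl_pair (hZ x1) (hZ ⟨hz, h2 hs.mem_support_right⟩) e
              have hcd' : c ≠ d := by
                rintro rfl
                rcases Sym2.eq_iff.1 e' with ⟨h3, h4⟩ | ⟨h3, h4⟩ <;> exact e (h3.trans h4.symm)
              exact absurd ((xgl_reach e').1 x4) (isBridge_iff.1 (hb hcd'))
          · exact .inr ⟨hz, x, x1, x2, x4⟩
  rcases key b hr with ⟨-, h3⟩ | ⟨h3, -⟩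
  · exact h h3
  · exact h3 hb'

theorem glue_acyclic (h1 : F₁.support ⊆ Z₁) (h2 : F₂.support ⊆ Z₂) (hZ : Z₁ ∩ Z₂ ⊆ {c, d})
    (hcd : F₂.Adj c d → F₁.Adj c d) (hb : c ≠ d → F₂.IsBridge s(c, d)) (a1 : F₁.IsAcyclic)
    (a2 : F₂.IsAcyclic) : (F₁ ⊔ F₂).IsAcyclic := by
  have hG : (F₂ ⊔ edge c d).IsAcyclic := by
    by_cases e : c = d
    · subst e
      rwa [edge_self_eq_bot, sup_bot_eq]
    · refine (IsAcyclic.sup_edge_of_not_reachable (isBridge_iff.1 (hb e))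
        (a2.anti (deleteEdges_le _))).anti (sup_le (fun x y hxy => ?_) le_sup_right)
      by_cases e' : s(x, y) = s(c, d)
      · exact .inr ((xgl_adj e').2 ((edge_adj _ _ _ _).2 ⟨.inl ⟨rfl, rfl⟩, e⟩))
      · exact .inl (deleteEdges_adj.2 ⟨hxy, e'⟩)
  rw [isAcyclic_iff_forall_adj_isBridge] at a1 hG ⊢
  intro v w hvw
  by_cases h3 : F₁.Adj v w
  · exact glue_bridge h1 h2 hZ hcd hb (h1 h3.mem_support_left) (h1 h3.mem_support_right) (a1 h3)
  have h4 : F₂.Adj v w := hvw.resolve_left h3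
  have h5 : s(c, d) ≠ s(v, w) := fun e => h3 ((xgl_adj e).1 (hcd ((xgl_adj e).2 h4)))
  have h6 := isBridge_iff.1 (hG (v := v) (w := w) (.inl h4))
  have k0 : ∀ x ∈ Z₁ ∩ Z₂, ∀ y ∈ Z₁ ∩ Z₂,
      ((F₂ ⊔ edge c d).deleteEdges {s(v, w)}).Reachable x y := by
    intro x hx y hy
    by_cases e : x = y
    · exact e ▸ Reachable.refl _
    · have e' := xgl_pair (hZ hx) (hZ hy) e
      have hcd' : c ≠ d := by
        rintro rfl
        rcases Sym2.eq_iff.1 e' with ⟨h3, h4⟩ | ⟨h3, h4⟩ <;> exact e (h3.trans h4.symm)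
      exact (xgl_reach e').2 (Adj.reachable (deleteEdges_adj.2
        ⟨.inr ((edge_adj _ _ _ _).2 ⟨.inl ⟨rfl, rfl⟩, hcd'⟩), h5⟩))
  rw [isBridge_iff]
  intro hr
  rw [reachable_iff_reflTransGen] at hr
  have key : ∀ u, Relation.ReflTransGen ((F₁ ⊔ F₂).deleteEdges {s(v, w)}).Adj v u →
      (u ∈ Z₂ ∧ ((F₂ ⊔ edge c d).deleteEdges {s(v, w)}).Reachable v u) ∨
      (u ∉ Z₂ ∧ ∃ x ∈ Z₁ ∩ Z₂, ((F₂ ⊔ edge c d).deleteEdges {s(v, w)}).Reachable v x) := by
    intro u hu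
    induction hu with
    | refl => exact .inl ⟨h2 h4.mem_support_left, Reachable.refl _⟩
    | @tail u u' _ hs ih =>
      rw [deleteEdges_adj, sup_adj] at hs
      obtain ⟨hs, hn⟩ := hs
      rcases hs with hs | hs
      · obtain ⟨x, x1, x2⟩ : ∃ x ∈ Z₁ ∩ Z₂,
            ((F₂ ⊔ edge c d).deleteEdges {s(v, w)}).Reachable v x := by
          rcases ih with ⟨u1, u2⟩ | ⟨-, u2⟩
          · exact ⟨u, ⟨h1 hs.mem_support_left, u1⟩, u2⟩
          · exact u2
        by_cases hz : u' ∈ Z₂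
        · exact .inl ⟨hz, x2.trans (k0 x x1 u' ⟨h1 hs.mem_support_right, hz⟩)⟩
        · exact .inr ⟨hz, x, x1, x2⟩
      · rcases ih with ⟨-, u2⟩ | ⟨u1, -⟩
        · exact .inl ⟨h2 hs.mem_support_right,
            u2.trans (Adj.reachable (deleteEdges_adj.2 ⟨.inl hs, hn⟩))⟩
        · exact absurd (h2 hs.mem_support_left) u1
  rcases key w hr with ⟨-, h7⟩ | ⟨h7, -⟩
  · exact h6 h7
  · exact h7 (h2 h4.mem_support_right)

theorem acyclic_of_center {F : SimpleGraph V} {w : V} (h : ∀ x y, F.Adj x y → x = w ∨ y = w) :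
    F.IsAcyclic := by
  have key : ∀ y, F.Adj y w → F.IsBridge s(y, w) := by
    intro y hy
    rw [isBridge_iff]
    intro hr
    refine hy.ne (xgl_isol (fun z hz => ?_) hr)
    rw [deleteEdges_adj] at hz
    rcases h y z hz.1 with e | e
    · exact hy.ne e
    · exact hz.2 (e ▸ rfl)
  rw [isAcyclic_iff_forall_adj_isBridge]
  intro x y hxy
  rcases h x y hxy with rfl | rfl
  · rw [Sym2.eq_swap]
    exact key y hxy.symm
  · exact key x hxy

theorem acyclic_add_leaf {F : SimpleGraph V} (h : F.IsAcyclic) {x y : V} (hx : x ∉ F.support) :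
    (F ⊔ edge x y).IsAcyclic := by
  refine isAcyclic_sup_fromEdgeSet_iff.2 ⟨h, fun hr => .inl (xgl_isol (fun z hz => ?_) hr)⟩
  exact hx hz.mem_support_left

end Pool.Agent.MP_1c0fc2_co.RI
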