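import Pool.Agent.MP_1c0fc2_co.RI.Rec
import Pool.Agent.MP_1c0fc2_co.RI.GL

open Function SimpleGraph

namespace Pool.Agent.MP_1c0fc2_co.RI

variable {V : Type} [Finite V] {A : SimpleGraph V} {𝒦 : Set (SimpleGraph V)}

omit [Finite V] in
theorem xfrec_pair {U : Set V} {c d : V} (h : U ⊆ {c, d}) : (indu A U).IsAcyclic := by
  refine acyclic_of_center (w := c) fun x y hxy => ?_
  rcases h hxy.2.1 with hx | hx
  · exact Or.inl hx
  rcases h hxy.2.2 with hy | hy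
  · exact Or.inr hy
  exact absurd (hx.trans hy.symm) hxy.ne

omit [Finite V] in
theorem xfrec_clq [Nonempty V] {X : Set V} (h : Clq True A X) :
    ∃ c d, X ⊆ {c, d} ∧ (c ≠ d → A.Adj c d ∧ c ∈ X ∧ d ∈ X) := by
  rcases h with h | ⟨-, x, y, hxy, rfl⟩
  · rcases h.eq_empty_or_singleton with rfl | ⟨x, rfl⟩
    · obtain ⟨x⟩ := ‹Nonempty V›
      exact ⟨x, x, Set.empty_subset _, fun h => absurd rfl h⟩
    · exact ⟨x, x, fun z hz => Or.inl hz, fun h => absurd rfl h⟩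
  · exact ⟨x, y, subset_rfl, fun _ => ⟨hxy, Or.inl rfl, Or.inr rfl⟩⟩

theorem xfrec_edge {K : SimpleGraph V} {c d : V} (h4 : 4 ≤ K.support.ncard)
    (h : Cn K (K.support \ {c, d})) : ∃ u v, K.Adj u v ∧ u ∉ ({c, d} : Set V) ∧
      v ∉ ({c, d} : Set V) := by
  have h1 : K.support.ncard ≤ (K.support \ {c, d}).ncard + ({c, d} : Set V).ncard :=
    (Set.ncard_le_ncard (Set.subset_sdiff_union _ _)).trans (Set.ncard_union_le _ _)
  have h2 : ({c, d} : Set V).ncard ≤ 2 := (Set.ncard_insert_le _ _).trans (by simp)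
  obtain ⟨a, ha, b, hb, hab⟩ := (Set.one_lt_ncard (s := K.support \ {c, d})).1 (by omega)
  rcases (h a ha b hb).cases_head with e | ⟨v, hv, -⟩
  · exact absurd e hab
  · exact ⟨a, v, hv.2.2, hv.1.2, hv.2.1.2⟩

theorem xfrec_one [Nonempty V] (hF : Fam True A 𝒦) {K : SimpleGraph V} (hK : K ∈ 𝒦)
    (hp : Prime K) (h4 : 4 ≤ K.support.ncard) {X U0 : Set V} (hX : Clq True A X)
    (hXZ : X ⊆ K.support) (hU : U0 ⊆ X) :
    ∃ u v, K.Adj u v ∧ {u, v} ∩ X = U0 := by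
  obtain ⟨c, d, hcd, hadj⟩ := xfrec_clq hX
  rcases U0.eq_empty_or_nonempty with rfl | ⟨a, ha⟩
  · have hcn : Cn K (K.support \ {c, d}) := by
      by_cases e : c = d
      · subst e
        rw [Set.pair_eq_singleton]
        exact hp.1.2 c
      · obtain ⟨h1, h2, h3⟩ := hadj e
        exact hp.2 c d ((hF.1 K hK).2.2.1 c (hXZ h2) d (hXZ h3) h1)
    obtain ⟨u, v, huv, hu, hv⟩ := xfrec_edge h4 hcn
    refine ⟨u, v, huv, Set.eq_empty_of_forall_notMem ?_⟩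
    rintro z ⟨rfl | rfl, hz⟩
    · exact hu (hcd hz)
    · exact hv (hcd hz)
  by_cases h1 : ∀ b ∈ U0, b = a
  · obtain ⟨y, z, hyz, hy, hz⟩ := hp.1.two_nbr (hXZ (hU ha))
    have key : ∀ w, K.Adj a w → w ∉ X → ∃ u v, K.Adj u v ∧ {u, v} ∩ X = U0 := by
      intro w hw hwX
      refine ⟨a, w, hw, Set.Subset.antisymm ?_ fun b hb => ⟨Or.inl (h1 b hb), hU hb⟩⟩
      rintro b ⟨rfl | rfl, hb⟩
      · exact ha
      · exact absurd hb hwX
    by_cases hyX : y ∈ X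
    · by_cases hzX : z ∈ X
      · have e1 := hcd hyX
        have e2 := hcd hzX
        have e3 := hcd (hU ha)
        have n1 := hy.ne
        have n2 := hz.ne
        simp only [Set.mem_insert_iff, Set.mem_singleton_iff] at e1 e2 e3
        grind
      · exact key z hz hzX
    · exact key y hy hyX
  · push Not at h1
    obtain ⟨b, hb, hba⟩ := h1
    have e1 := hcd (hU ha)
    have e2 := hcd (hU hb)
    simp only [Set.mem_insert_iff, Set.mem_singleton_iff] at e1 e2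
    have hne : c ≠ d := by grind
    obtain ⟨h1, h2, h3⟩ := hadj hne
    refine ⟨c, d, (hF.1 K hK).2.2.1 c (hXZ h2) d (hXZ h3) h1,
      Set.Subset.antisymm ?_ fun z hz => ⟨hcd (hU hz), hU hz⟩⟩
    rintro z ⟨rfl | rfl, -⟩ <;> grind

/-- the property proved by induction -/
def xfrecP (A : SimpleGraph V) (𝒦 : Set (SimpleGraph V)) (Z : Set V) : Prop :=
  ∀ X U0 : Set V, Clq True A X → X ⊆ Z → U0 ⊆ X → ∃ U ⊆ Z, U ∩ X = U0 ∧
    (indu A U).IsAcyclic ∧ ∀ K ∈ 𝒦, K.support ⊆ Z → ∃ a ∈ U, ∃ b ∈ U, K.Adj a b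

omit [Finite V] in
theorem xfrec_glue [Nonempty V] {Z₁ Z₂ : Set V} (hS : Sp True A 𝒦 Z₁ Z₂) (h1 : xfrecP A 𝒦 Z₁)
    (h2 : xfrecP A 𝒦 Z₂) {X U0 : Set V} (hX : Clq True A X) (hXZ : X ⊆ Z₁) (hU : U0 ⊆ X) :
    ∃ U ⊆ Z₁ ∪ Z₂, U ∩ X = U0 ∧
      (indu A U).IsAcyclic ∧ ∀ K ∈ 𝒦, K.support ⊆ Z₁ ∪ Z₂ → ∃ a ∈ U, ∃ b ∈ U, K.Adj a b := by
  obtain ⟨U₁, hU₁, e₁, a₁, k₁⟩ := h1 X U0 hX hXZ hU
  obtain ⟨U₂, hU₂, e₂, a₂, k₂⟩ := h2 (Z₁ ∩ Z₂) (U₁ ∩ (Z₁ ∩ Z₂)) hS.2.1 Set.inter_subset_right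
    Set.inter_subset_right
  have t1 : ∀ z ∈ U₂, z ∈ Z₁ → z ∈ U₁ := fun z hz hz1 =>
    (e₂.subset ⟨hz, hz1, hU₂ hz⟩).1
  have t2 : ∀ z ∈ U₁, z ∈ Z₂ → z ∈ U₂ := fun z hz hz2 =>
    (e₂.superset ⟨hz, hU₁ hz, hz2⟩).1
  refine ⟨U₁ ∪ U₂, Set.union_subset_union hU₁ hU₂, ?_, ?_, fun K hK hKZ => ?_⟩
  · rw [← e₁]
    refine Set.Subset.antisymm ?_ (Set.inter_subset_inter_left _ Set.subset_union_left)
    rintro z ⟨hz | hz, hzX⟩
    · exact ⟨hz, hzX⟩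
    · exact ⟨t1 z hz (hXZ hzX), hzX⟩
  · obtain ⟨c, d, hcd, hadj⟩ := xfrec_clq hS.2.1
    have hs : ∀ U : Set V, (indu A U).support ⊆ U := fun U z ⟨_, hz⟩ => hz.2.1
    have mix : ∀ a b, A.Adj a b → a ∈ U₁ → b ∈ U₂ → (indu A U₁ ⊔ indu A U₂).Adj a b := by
      intro a b hab ha hb
      by_cases h3 : a ∈ Z₂
      · exact Or.inr ⟨hab, t2 a ha h3, hb⟩
      by_cases h4 : b ∈ Z₁
      · exact Or.inl ⟨hab, ha, t1 b hb h4⟩
      exact absurd hab (hS.1 a ⟨hU₁ ha, h3⟩ b ⟨hU₂ hb, h4⟩)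
    refine IsAcyclic.anti (G' := indu A U₁ ⊔ indu A U₂) ?_
      (glue_acyclic ((hs _).trans hU₁) ((hs _).trans hU₂) hcd (fun h => ?_) (fun h => ?_) a₁ a₂)
    · rintro a b ⟨hab, ha | ha, hb | hb⟩
      · exact Or.inl ⟨hab, ha, hb⟩
      · exact mix a b hab ha hb
      · exact (mix b a hab.symm hb ha).symm
      · exact Or.inr ⟨hab, ha, hb⟩
    · obtain ⟨-, hc, hd⟩ := hadj h.ne
      exact ⟨h.1, t1 c h.2.1 hc.1, t1 d h.2.2 hd.1⟩
    · by_cases hr : (indu A U₂).Reachable c d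
      · exact isAcyclic_iff_forall_adj_isBridge.1 a₂ ⟨(hadj h).1,
          hs _ (mem_support_of_reachable h hr), hs _ (mem_support_of_reachable h.symm hr.symm)⟩
      · exact IsBridge.of_not_reachable hr
  · rcases hS.2.2 K hK hKZ with h | h
    · obtain ⟨a, ha, b, hb, hab⟩ := k₁ K hK h
      exact ⟨a, Or.inl ha, b, Or.inl hb, hab⟩
    · obtain ⟨a, ha, b, hb, hab⟩ := k₂ K hK h
      exact ⟨a, Or.inr ha, b, Or.inr hb, hab⟩

theorem exists_f (hF : Fam True A 𝒦) (hp : ∀ K ∈ 𝒦, Prime K ∧ 4 ≤ K.support.ncard) :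
    ∃ U : Set V, (indu A U).IsAcyclic ∧ ∀ K ∈ 𝒦, ∃ a ∈ U, ∃ b ∈ U, K.Adj a b := by
  rcases isEmpty_or_nonempty V with hV | hV
  · refine ⟨∅, fun v => isEmptyElim v, fun K hK => ?_⟩
    obtain ⟨x, -, -⟩ := (hp K hK).1.1.ne_bot
    exact isEmptyElim x
  have key : xfrecP A 𝒦 Set.univ := by
    refine rec_ind hF (xfrecP A 𝒦) ?_ ?_ ?_ Set.univ
    · intro Z hZ X U0 hX hXZ hU
      obtain ⟨c, d, hcd, -⟩ := xfrec_clq hX
      exact ⟨U0, hU.trans hXZ, Set.inter_eq_left.2 hU, xfrec_pair (hU.trans hcd),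
        fun K hK h => absurd h (hZ K hK)⟩
    · intro K hK X U0 hX hXZ hU
      obtain ⟨u, v, huv, e⟩ := xfrec_one hF hK (hp K hK).1 (hp K hK).2 hX hXZ hU
      refine ⟨{u, v}, ?_, e, xfrec_pair subset_rfl, fun K' hK' h => ?_⟩
      · rintro z (rfl | rfl)
        · exact ⟨_, huv⟩
        · exact ⟨_, huv.symm⟩
      · rw [hF.eq_of_sub hK hK' h]
        exact ⟨u, Or.inl rfl, v, Or.inr rfl, huv⟩
    · intro Z₁ Z₂ hS h1 h2 X U0 hX hXZ hU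
      rcases hS.side hX hXZ with h | h
      · exact xfrec_glue hS h1 h2 hX h hU
      · rw [Set.union_comm]
        exact xfrec_glue hS.symm h2 h1 hX h hU
  obtain ⟨U, -, -, hU, hK⟩ := key ∅ ∅ (Or.inl Set.subsingleton_empty) (Set.empty_subset _)
    subset_rfl
  exact ⟨U, hU, fun K h => hK K h (Set.subset_univ _)⟩

end Pool.Agent.MP_1c0fc2_co.RI
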