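import Pool.Agent.MP_1c0fc2_co.RI.Tr

open Function SimpleGraph

namespace Pool.Agent.MP_1c0fc2_co.RI

variable {W : Type} [Finite W]

omit [Finite W] in
theorem xk3f_third {K : SimpleGraph W} (h : IsCp tri K) {a p : W} (hp : K.Adj a p) :
    ∃ q, K.Adj a q ∧ K.Adj p q := by
  obtain ⟨x, y, z, h1, h2, h3, rfl⟩ := isCp_tri.1 h
  have e1 : (edge x y ⊔ edge y z ⊔ edge x z).Adj x y := by simp [edge_adj, h1]
  have e2 : (edge x y ⊔ edge y z ⊔ edge x z).Adj y z := by simp [edge_adj, h2]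
  have e3 : (edge x y ⊔ edge y z ⊔ edge x z).Adj x z := by simp [edge_adj, h3]
  simp only [sup_adj, edge_adj] at hp
  rcases hp with (⟨⟨rfl, rfl⟩ | ⟨rfl, rfl⟩, -⟩ | ⟨⟨rfl, rfl⟩ | ⟨rfl, rfl⟩, -⟩) |
    ⟨⟨rfl, rfl⟩ | ⟨rfl, rfl⟩, -⟩
  · exact ⟨_, e3, e2⟩
  · exact ⟨_, e2, e3⟩
  · exact ⟨_, e1.symm, e3.symm⟩
  · exact ⟨_, e3.symm, e1.symm⟩
  · exact ⟨_, e1, e2.symm⟩
  · exact ⟨_, e2.symm, e1⟩

omit [Finite W] in
theorem xk3f_four {U : SimpleGraph W} (he : ∀ G ≤ U, G ≠ ⊥ → ec G + 3 ≤ 2 * G.support.ncard)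
    {y b p q : W} (h1 : U.Adj y b) (h2 : U.Adj y p) (h3 : U.Adj y q) (h4 : U.Adj b p)
    (h5 : U.Adj b q) (h6 : U.Adj p q) : False := by
  have ha : ∀ i j : Fin 4, i ≠ j → U.Adj (![y, b, p, q] i) (![y, b, p, q] j) := by
    intro i j hij
    fin_cases i <;> fin_cases j <;> first | exact absurd rfl hij | assumption | (symm; assumption)
  have hi : Injective ![y, b, p, q] := fun i j e => by_contra fun hij => (ha i j hij).ne e
  have hj : Set.InjOn ![y, b, p, q] (⊤ : SimpleGraph (Fin 4)).support := hi.injOn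
  have := he ((⊤ : SimpleGraph (Fin 4)).map ![y, b, p, q]) (fun u v h => by
    obtain ⟨i, j, hij, rfl, rfl⟩ := (map_adj_inj hj).1 h
    exact ha i j hij.ne) (fun e => by
    have h : ((⊤ : SimpleGraph (Fin 4)).map ![y, b, p, q]).Adj (![y, b, p, q] 0)
      (![y, b, p, q] 1) := (map_adj_app hi).2 (by simp)
    rw [e] at h
    exact h)
  have e1 : ec (⊤ : SimpleGraph (Fin 4)) = 6 := by
    rw [ec, ← coe_edgeFinset, Set.ncard_coe_finset, card_edgeFinset_top_eq_card_choose_two]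
    rfl
  have e2 : (⊤ : SimpleGraph (Fin 4)).support.ncard ≤ 4 := by
    simpa using Set.ncard_le_card (⊤ : SimpleGraph (Fin 4)).support
  rw [ec_map hj, support_map_inj hj, Set.ncard_image_of_injective _ hi, e1] at this
  omega

theorem k3_flag {U : SimpleGraph W} (he : ∀ G ≤ U, G ≠ ⊥ → ec G + 3 ≤ 2 * G.support.ncard)
    (hU : U ≤ Un tri U) (hne : U ≠ ⊥) (t : W) :
    ∃ a b, U.Adj a b ∧ a ≠ t ∧ b ≠ t ∧ Fl tri U a b := by
  classical
  cases nonempty_fintype W
  by_contra hc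
  have h1 : ∀ a b, U.Adj a b → a ≠ t → b ≠ t →
      ∃ p q, U.Adj a p ∧ U.Adj a q ∧ U.Adj p q ∧ p ≠ b ∧ q ≠ b := fun a b hab ha hb => by
    by_contra h
    refine hc ⟨a, b, hab, ha, hb, fun K hK ⟨p, hp⟩ => ?_⟩
    obtain ⟨q, hq, hpq⟩ := xk3f_third hK.1 hp
    by_contra h'
    exact h ⟨p, q, hK.2 hp, hK.2 hq, hK.2 hpq, fun e => h' (e ▸ hp), fun e => h' (e ▸ hq)⟩
  have h2 : ∀ y ∈ U.support, y ≠ t → 4 ≤ U.degree y + if U.Adj t y then 1 else 0 := by
    rintro y ⟨u, hu⟩ hy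
    obtain ⟨b, hb, hbt⟩ : ∃ b, U.Adj y b ∧ b ≠ t := by
      obtain ⟨K, hK, hu'⟩ := un_adj.1 (hU hu)
      obtain ⟨q, hq, huq⟩ := xk3f_third hK.1 hu'
      by_cases e : u = t
      · exact ⟨q, hK.2 hq, e ▸ huq.ne'⟩
      · exact ⟨u, hu, e⟩
    obtain ⟨p, q, hp, hq, hpq, hpb, hqb⟩ := h1 y b hb hy hbt
    have hs : ({b, p, q} : Finset W) ⊆ U.neighborFinset y := by
      simp [Finset.insert_subset_iff, hb, hp, hq]
    have h3 : ({b, p, q} : Finset W).card = 3 :=
      Finset.card_eq_three.2 ⟨b, p, q, hpb.symm, hqb.symm, hpq.ne, rfl⟩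
    have h4 := Finset.card_le_card hs
    rw [card_neighborFinset_eq_degree] at h4
    split_ifs with e
    · omega
    · by_contra h5
      have h6 := Finset.eq_of_subset_of_card_le hs (by rw [card_neighborFinset_eq_degree]; omega)
      have h7 : ∀ x, U.Adj y x → x = b ∨ x = p ∨ x = q := fun x hx => by
        simpa [← h6] using (mem_neighborFinset U y x).2 hx
      have h8 : U.Adj b q := by
        obtain ⟨u, v, a1, a2, a3, a4, a5⟩ := h1 y p hp hy fun e' => e (e' ▸ hp.symm)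
        rcases h7 u a1 with rfl | rfl | rfl <;> rcases h7 v a2 with rfl | rfl | rfl <;>
          first | exact a3 | exact a3.symm | exact absurd rfl a3.ne | exact absurd rfl a4
                | exact absurd rfl a5
      have h9 : U.Adj b p := by
        obtain ⟨u, v, a1, a2, a3, a4, a5⟩ := h1 y q hq hy fun e' => e (e' ▸ hq.symm)
        rcases h7 u a1 with rfl | rfl | rfl <;> rcases h7 v a2 with rfl | rfl | rfl <;>
          first | exact a3 | exact a3.symm | exact absurd rfl a3.ne | exact absurd rfl a4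
                | exact absurd rfl a5
      exact xk3f_four he hb hp hq h9 h8 hpq
  have h3 := he U le_rfl hne
  rw [ec, ← coe_edgeFinset, Set.ncard_coe_finset, Set.ncard_eq_toFinset_card'] at h3
  have h4 := Finset.card_nsmul_le_sum (U.support.toFinset.erase t) _ 4 fun y hy =>
    h2 y (Set.mem_toFinset.1 (Finset.mem_of_mem_erase hy)) (Finset.ne_of_mem_erase hy)
  have h5 := Finset.pred_card_le_card_erase (s := U.support.toFinset) (a := t)
  have h6 : ∑ y ∈ U.support.toFinset.erase t, U.degree y ≤ ∑ y ∈ Finset.univ.erase t, U.degree y :=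
    Finset.sum_le_sum_of_subset (Finset.erase_subset_erase _ (Finset.subset_univ _))
  have h7 : (∑ y ∈ U.support.toFinset.erase t, if U.Adj t y then 1 else 0) ≤ U.degree t := by
    rw [← Finset.card_filter, ← card_neighborFinset_eq_degree]
    exact Finset.card_le_card fun y hy => (mem_neighborFinset U t y).2 (Finset.mem_filter.1 hy).2
  have h8 := Finset.sum_erase_add Finset.univ (fun y => U.degree y) (Finset.mem_univ t)
  rw [sum_degrees_eq_twice_card_edges] at h8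
  rw [Finset.sum_add_distrib, smul_eq_mul] at h4
  omega

end Pool.Agent.MP_1c0fc2_co.RI
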