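import Pool.Agent.MP_1c0fc2_co.RI.L1
import Pool.Agent.MP_1c0fc2_co.RI.DP
import Pool.Agent.MP_1c0fc2_co.RI.E23
import Pool.Agent.MP_1c0fc2_co.RI.K3F

open Function SimpleGraph

namespace Pool.Agent.MP_1c0fc2_co.RI

variable {W : Type} [Finite W] {H : SimpleGraph W}

theorem xflag_lt {O U : SimpleGraph W} (hU : UnP O U) (h : ¬ IsCp O U) :
    ∃ K, Cop O U K ∧ K < U := by
  obtain ⟨x, y, hxy⟩ := hU.1.ne_bot
  obtain ⟨K, hK, -⟩ := un_adj.1 (hU.2 hxy)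
  exact ⟨K, hK, lt_of_le_of_ne hK.2 fun e => h (e ▸ hK.1)⟩

theorem xflag_gen {O U : SimpleGraph W} (hO : TwoC O)
    (hmx : ∀ J ≤ H, Stiff H J ∅ → ec J ≤ ec O)
    (hsep : ∀ U ≤ H, UnP O U → ¬ IsCp O U → ∃ S, S ⊂ U.support ∧ 3 ≤ S.ncard ∧
      (∀ n, Att U n S fun _ _ => True) ∧
      ∀ K, Cop O U K → K.support ⊆ S ∨ (K.support ∩ S).ncard ≤ 2)
    (hle : U ≤ H) (hU : UnP O U) (t : W) :
    ∃ a b, U.Adj a b ∧ a ≠ t ∧ b ≠ t ∧ Fl O U a b := by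
  have hne : U ≠ ⊥ := by
    obtain ⟨x, y, hxy⟩ := hU.1.ne_bot
    exact fun e => (e ▸ hxy : (⊥ : SimpleGraph W).Adj x y)
  rcases hO.1.eq_or_lt with h3 | h4
  · have c := twoC_three hO h3.symm
    have he := e23 (H := H) fun J hJ hs => (hmx J hJ hs).trans (c.ec_eq.trans ec_tri).le
    obtain ⟨a, b, h1, h2, h5, h6⟩ := k3_flag (U := U) (fun G hG => he G (hG.trans hle))
      (fun x y hxy => by
        obtain ⟨K, hK, h⟩ := un_adj.1 (hU.2 hxy)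
        exact un_adj.2 ⟨K, ⟨c.trans hK.1, hK.2⟩, h⟩) hne t
    exact ⟨a, b, h1, h2, h5, fun K hK => h6 K ⟨c.trans hK.1, hK.2⟩⟩
  · obtain ⟨F, h1, h2⟩ := dp hO h4 hsep U hle hU.2 hne
    exact dp_flag hO h1 h2 t

theorem flag_T {T U : SimpleGraph W} (hT : Mx H (RS H (⊥ : SimpleGraph W)) T) (hle : U ≤ H)
    (hU : UnP T U) (t : W) : ∃ a b, U.Adj a b ∧ a ≠ t ∧ b ≠ t ∧ Fl T U a b := by
  have : Nonempty W := ⟨t⟩
  refine xflag_gen (rs_bot.1 hT.2.1).1 (fun J hJ hs => hT.2.2 J hJ (rs_bot.2 hs))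
    (fun U hle hU hn => ?_) hle hU t
  obtain ⟨K₀, h1, h2⟩ := xflag_lt hU hn
  have h3 : ¬ Stiff H U ∅ := fun hs =>
    (h1.1.ec_eq ▸ ec_lt h2).not_ge (hT.2.2 U hle (rs_bot.2 hs))
  simp only [Stiff, not_and, not_forall, not_not] at h3
  obtain ⟨S, -, h4, h5, h6⟩ := h3 hU.1
  refine ⟨S, h4, h5, h6.1, fun K hK => ?_⟩
  rcases le_or_gt 3 (S ∩ K.support).ncard with h | h
  · exact Or.inl ((rs_bot.1 (hK.1.rs hT.2.1)).sub hK.2 (Set.empty_subset _) (Set.empty_subset _)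
      h6 h)
  · exact Or.inr (by rw [Set.inter_comm]; omega)

theorem flag_alpha {α U : SimpleGraph W} (hα : Mx H (RS H k2) α) (hle : U ≤ H)
    (hU : UnP α U) (t : W) : ∃ a b, U.Adj a b ∧ a ≠ t ∧ b ≠ t ∧ Fl α U a b := by
  have hO : TwoC α := (alpha_prime hα).1
  have h0 : k2 ≠ ⊥ := fun e => (e ▸ (by simp [k2] : k2.Adj 0 1) : (⊥ : SimpleGraph (Fin 2)).Adj 0 1)
  refine xflag_gen hO (fun J hJ hs => hα.2.2 J hJ ?_) (fun U hle hU hn => ?_) hle hU t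
  · obtain ⟨x, y, hxy⟩ := hs.1.ne_bot
    exact rs_k2.2 ⟨x, y, hxy, hs.anti (Set.empty_subset _)⟩
  obtain ⟨K₀, h1, h2⟩ := xflag_lt hU hn
  have h3 : ∀ n, Att U n K₀.support fun _ _ => True := fun n =>
    (((l1 h0 hα (h1.mono hle)).mono hle).2 n).mono le_rfl le_rfl fun _ _ _ _ _ _ => trivial
  refine ⟨K₀.support, ⟨support_mono h1.2, fun e => h2.not_ge fun x y hxy => ?_⟩,
    (h1.1.twoC hO).1, h3, fun K hK => ?_⟩
  · exact l1_ind hα (h1.mono hle) x (e ⟨y, hxy⟩) y (e ⟨x, hxy.symm⟩) (hle hxy)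
  rcases eq_or_ne K₀ K with rfl | hne
  · exact Or.inl subset_rfl
  obtain ⟨-, h4, h5⟩ := (fam_alpha hα hle).2 K₀ h1 K hK hne
  refine Or.inr (not_lt.1 fun h => ?_)
  obtain ⟨a, b, c, ha, hb, hc, hab, hac, hbc⟩ := (Set.two_lt_ncard_iff (Set.toFinite _)).1 h
  have h6 : ∀ x ∈ K.support ∩ K₀.support, At U (K.support \ K₀.support) x :=
    fun x hx => (h5 x hx).mono hK.2 subset_rfl
  rcases (h3 _ _ le_rfl Set.disjoint_sdiff_left (h4.mono hK.2) a ha.2 b hb.2 hab (h6 a ha)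
    (h6 b hb)).2 c hc.2 (h6 c hc) with e | e
  · exact hac e.symm
  · exact hbc e.symm

end Pool.Agent.MP_1c0fc2_co.RI
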