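import Pool.Agent.MP_1c0fc2_co.RI.Prime

open Function SimpleGraph

namespace Pool.Agent.MP_1c0fc2_co.RI

variable {W W' : Type} [Finite W] {H O : SimpleGraph W} {R₀ : SimpleGraph W'}

omit [Finite W] in
theorem xl1_le_indu {J : SimpleGraph W} {S : Set W} (hle : J ≤ H) (hS : J.support ⊆ S) :
    J ≤ indu H S := fun _ _ h => ⟨hle h, hS h.mem_support_left, hS h.mem_support_right⟩

omit [Finite W] in
theorem xl1_indu_le (S : Set W) : indu H S ≤ H := fun _ _ h => h.1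

theorem xl1_eq (hO : Mx H (RS H R₀) O) {J J' : SimpleGraph W} (hJ : Cop O H J) (hle : J ≤ J')
    (hle' : J' ≤ H) (hr : RS H R₀ J') : J = J' :=
  eq_of_le_ec hle (by rw [hJ.1.ec_eq]; exact hO.2.2 J' hle' hr)

omit [Finite W] in
theorem xl1_adj_of_map {J : SimpleGraph W} {f : W → W} (hf : Set.InjOn f J.support) {x y : W}
    (hx : x ∈ J.support) (hy : y ∈ J.support) (h : (J.map f).Adj (f x) (f y)) : J.Adj x y := by
  obtain ⟨a, b, hab, ha, hb⟩ := (map_adj_inj hf).1 h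
  have h1 : a = x := hf hab.mem_support_left hx ha
  have h2 : b = y := hf hab.mem_support_right hy hb
  exact h1 ▸ h2 ▸ hab

omit [Finite W] in
theorem xl1_cn_tor {G : SimpleGraph W} {Q : Set W} (h : Cn G Q) (S : Set W) :
    Cn (tor G S) (Q ∩ S) := by
  intro a ha b hb
  have h1 := cn_tor h S ha hb
  clear hb
  induction h1 with
  | refl => exact Relation.ReflTransGen.refl
  | @tail c d _ hcd ih =>
    by_cases he : c = d
    · exact he ▸ ih
    · refine ih.tail ⟨hcd.1, hcd.2.1, he, hcd.1.2, hcd.2.1.2, ?_⟩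
      rcases hcd.2.2 with h2 | ⟨D, hD, h3, h4, h5⟩
      · exact Or.inl h2
      · exact Or.inr ⟨D, Set.disjoint_left.2 fun z hz => (hD hz).2, h3, h4, h5⟩

/-- the first boundary vertex of `S` seen from `b` inside the connected set `Z` -/
theorem xl1_first {G : SimpleGraph W} {Z S : Set W} (hZ : Cn G Z) {b z : W} (hb : b ∈ Z)
    (hbS : b ∉ S) (hz : z ∈ Z) (hzS : z ∈ S) :
    ∃ D, b ∈ D ∧ D ⊆ Z \ S ∧ Cn G D ∧ (∀ a ∈ D, ∀ c ∈ Z \ S, G.Adj a c → c ∈ D) ∧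
      ∃ w ∈ Z, w ∈ S ∧ At G D w := by
  obtain ⟨D, hbD, hDZ, hD, hcl⟩ := exists_comp G (Z \ S) (x := b) ⟨hb, hbS⟩
  obtain ⟨w, hw, hwD, hat⟩ := hZ.exists_att (Q := D) (fun a ha => (hDZ ha).1) ⟨b, hbD⟩
    fun hs => (hDZ (hs hz)).2 hzS
  refine ⟨D, hbD, hDZ, hD, hcl, w, hw, ?_, hat⟩
  by_contra hwS
  obtain ⟨a, ha, hwa⟩ := hat
  exact hwD (hcl a ha w ⟨hw, hwS⟩ hwa.symm)

theorem xl1_at_diff {J : SimpleGraph W} (h : TwoC J) {u v : W} (hu : u ∈ J.support) :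
    At J (J.support \ {u, v}) u := by
  obtain ⟨y, z, hyz, hy, hz⟩ := h.two_nbr hu
  by_cases hyv : y = v
  · refine ⟨z, ⟨hz.mem_support_right, ?_⟩, hz⟩
    rintro (h1 | h1)
    · exact hz.ne h1.symm
    · exact hyz (hyv.trans (Eq.symm h1))
  · refine ⟨y, ⟨hy.mem_support_right, ?_⟩, hy⟩
    rintro (h1 | h1)
    · exact hy.ne h1.symm
    · exact hyv h1

/-- part (a): the torso set contains the old vertices -/
theorem xl1_sub {J R : SimpleGraph W} (hle : J ≤ H) (hRJ : R ≤ J) (hst : Stiff H J R.support)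
    {u v : W} (huv : R.Adj u v) {Q S : Set W} (hd : Disjoint Q J.support) (hQ : Cn H Q)
    (hbad : ∀ u v, J.Adj u v → ∃ b ∈ J.support, At H Q b ∧ b ≠ u ∧ b ≠ v)
    (hρ : R.support ⊆ S) (hS : S ⊆ J.support ∪ Q) (h3 : 3 ≤ S.ncard)
    (hT : Tor H (indu H (J.support ∪ Q)) S) : J.support ⊆ S := by
  have hJJ : J ≤ indu H (J.support ∪ Q) := xl1_le_indu hle Set.subset_union_left
  have hRs : R.support ⊆ J.support := support_mono hRJ
  by_cases h3' : 3 ≤ (S ∩ J.support).ncard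
  · exact hst.sub hJJ hρ hRs hT h3'
  exfalso
  have hu : u ∈ R.support := huv.mem_support_left
  have hv : v ∈ R.support := huv.mem_support_right
  have hsub : ({u, v} : Set W) ⊆ S ∩ J.support := by
    rintro z (rfl | rfl)
    · exact ⟨hρ hu, hRs hu⟩
    · exact ⟨hρ hv, hRs hv⟩
  have heq : ({u, v} : Set W) = S ∩ J.support :=
    Set.eq_of_subset_of_ncard_le hsub (by rw [Set.ncard_pair huv.ne]; omega)
  have hR : R.support = {u, v} := by
    apply Set.Subset.antisymm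
    · rw [heq]; exact fun z hz => ⟨hρ hz, hRs hz⟩
    · rintro z (rfl | rfl)
      · exact hu
      · exact hv
  have hp : Prime J := hst.prime hle (Or.inr ⟨u, v, hRJ huv, hR⟩)
  have hC : Cn J (J.support \ {u, v}) := hp.2 u v (hRJ huv)
  obtain ⟨b, hb, ⟨q, hq, hbq⟩, hbu, hbv⟩ := hbad u v (hRJ huv)
  have hbC : b ∈ J.support \ {u, v} := ⟨hb, by
    rintro (h1 | h1)
    · exact hbu h1
    · exact hbv h1⟩
  have hCS : ∀ c ∈ J.support \ {u, v}, c ∉ S := fun c hc hcS => hc.2 (heq ▸ ⟨hcS, hc.1⟩)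
  have hQ' : Cn (indu H (J.support ∪ Q)) Q :=
    hQ.mono' fun a ha c hc hac => ⟨hac, Or.inr ha, Or.inr hc⟩
  have hZ : Cn (indu H (J.support ∪ Q)) (J.support \ {u, v} ∪ Q) :=
    (hC.mono hJJ).union_adj hQ' hbC hq ⟨hbq, Or.inl hb, Or.inr hq⟩
  obtain ⟨z, hzS, hz⟩ : ∃ z ∈ S, z ∉ ({u, v} : Set W) := by
    by_contra hc
    push Not at hc
    have := Set.ncard_le_ncard (s := S) (t := {u, v}) hc
    rw [Set.ncard_pair huv.ne] at this
    omega
  have hzQ : z ∈ Q := (hS hzS).resolve_left fun h1 => hz (heq ▸ ⟨hzS, h1⟩)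
  obtain ⟨D, hbD, hDZ, hD, hcl, w, hw, hwS, hat⟩ :=
    xl1_first hZ (Or.inl hbC) (hCS b hbC) (Or.inr hzQ) hzS
  have hCD : J.support \ {u, v} ⊆ D :=
    (hC.mono hJJ).closed hbC hbD fun a _ haD c hc hac => hcl a haD c ⟨Or.inl hc, hCS c hc⟩ hac
  have hau : At (indu H (J.support ∪ Q)) D u := (xl1_at_diff hp.1 (hRs hu)).mono hJJ hCD
  have hav : At (indu H (J.support ∪ Q)) D v := by
    have := xl1_at_diff (v := u) hp.1 (hRs hv)
    rw [Set.pair_comm] at this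
    exact this.mono hJJ hCD
  have hw' := (hT.1 _ D le_rfl (Set.disjoint_left.2 fun a ha => (hDZ ha).2) hD u (hρ hu) v
    (hρ hv) huv.ne hau hav).2 w hwS hat
  rcases hw with hw | hw
  · exact hw.2 hw'
  · rcases hw' with rfl | rfl
    · exact Set.disjoint_left.1 hd hw (hRs hu)
    · exact Set.disjoint_left.1 hd hw (hRs hv)

theorem l1_ind (hO : Mx H (RS H R₀) O) {J : SimpleGraph W} (hJ : Cop O H J) :
    ∀ x ∈ J.support, ∀ y ∈ J.support, H.Adj x y → J.Adj x y := by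
  intro x hx y hy hxy
  obtain ⟨R, hR, hst⟩ := hJ.1.rs hO.2.1
  have hle : J ≤ indu H J.support := xl1_le_indu hJ.2 le_rfl
  have hs : (indu H J.support).support ⊆ J.support := by
    rintro a ⟨b, hab⟩
    exact hab.2.1
  have := xl1_eq hO hJ hle (xl1_indu_le _) ⟨R, hR.mono hle, hst.mono hle hs⟩
  have h2 : (indu H J.support).Adj x y := ⟨hxy, hx, hy⟩
  rwa [← this] at h2

theorem xl1_main (h0 : R₀ ≠ ⊥) (hO : Mx H (RS H R₀) O) (m : ℕ) :
    ∀ (J : SimpleGraph W) (Q : Set W), Q.ncard = m → Cop O H J → Disjoint Q J.support →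
      Cn H Q → ∀ x ∈ J.support, ∀ y ∈ J.support, x ≠ y → At H Q x → At H Q y →
      J.Adj x y ∧ ∀ z ∈ J.support, At H Q z → z = x ∨ z = y := by
  induction m using Nat.strong_induction_on with
  | _ m ih =>
  intro J Q hm hJ hd hQ x hx y hy hxy hax hay
  by_contra hbad
  obtain ⟨R, hR, hst⟩ := hJ.1.rs hO.2.1
  obtain ⟨u, v, huv⟩ : ∃ u v, R.Adj u v := by
    obtain ⟨g, hg, rfl⟩ := hR.1
    obtain ⟨a, b, hab⟩ : ∃ a b, R₀.Adj a b := by
      by_contra hc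
      push Not at hc
      exact h0 (by ext a b; simp [hc a b])
    exact ⟨g a, g b, (map_adj_inj hg).2 ⟨a, b, hab, rfl, rfl⟩⟩
  have hmin : ∀ T ⊆ Q, T.Nonempty → Cn H (Q \ T) → ∃ z ∈ J.support, At H T z := by
    intro T hT hTn hc
    by_contra hno
    have hat : ∀ z ∈ J.support, At H Q z → At H (Q \ T) z := by
      rintro z hz ⟨q, hq, hzq⟩
      exact ⟨q, ⟨hq, fun hqT => hno ⟨z, hz, q, hqT, hzq⟩⟩, hzq⟩
    have hlt : (Q \ T).ncard < m := by
      rw [← hm]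
      obtain ⟨t, ht⟩ := hTn
      exact Set.ncard_lt_ncard ⟨Set.sdiff_subset, fun hs => (hs (hT ht)).2 ht⟩
    have := ih _ hlt J (Q \ T) rfl hJ (hd.mono_left Set.sdiff_subset) hc x hx y hy hxy
      (hat x hx hax) (hat y hy hay)
    exact hbad ⟨this.1, fun z hz haz => this.2 z hz (hat z hz haz)⟩
  obtain ⟨h2, hsup⟩ := twoC_ext hst.1 hJ.2 hd hQ hxy hx hy hax hay hmin
  have hJJ : J ≤ indu H (J.support ∪ Q) := xl1_le_indu hJ.2 Set.subset_union_left
  have hne : J ≠ indu H (J.support ∪ Q) := by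
    intro he
    obtain ⟨q, hq, _⟩ := hax
    have : q ∈ J.support := by rw [he, hsup]; exact Or.inr hq
    exact Set.disjoint_left.1 hd hq this
  refine hne (xl1_eq hO hJ hJJ (xl1_indu_le _) ⟨R, hR.mono hJJ, h2, ?_⟩)
  intro S hρ hS h3 hT
  rw [hsup] at hS
  have hb : ∀ u v, J.Adj u v → ∃ b ∈ J.support, At H Q b ∧ b ≠ u ∧ b ≠ v := by
    intro u v huv
    by_contra hc
    have hc' : ∀ b ∈ J.support, At H Q b → b = u ∨ b = v := by
      intro b hb hab
      by_contra h1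
      exact hc ⟨b, hb, hab, fun h => h1 (Or.inl h), fun h => h1 (Or.inr h)⟩
    apply hbad
    rcases hc' x hx hax with rfl | rfl <;> rcases hc' y hy hay with rfl | rfl
    · exact absurd rfl hxy
    · exact ⟨huv, hc'⟩
    · exact ⟨huv.symm, fun z hz haz => (hc' z hz haz).symm⟩
    · exact absurd rfl hxy
  have hJS : J.support ⊆ S := xl1_sub hJ.2 hR.2 hst huv hd hQ hb hρ hS.1 h3 hT
  obtain ⟨hA, f, hf, hfa⟩ := hT
  have hfJ : Set.InjOn f J.support := hf.mono hJS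
  have hJ2 : Cop O H (J.map f) := by
    refine ⟨hJ.1.map hfJ, fun a b hab => ?_⟩
    obtain ⟨c, d, hcd, rfl, rfl⟩ := (map_adj_inj hfJ).1 hab
    exact hfa c d ⟨hcd.ne, hJS hcd.mem_support_left, hJS hcd.mem_support_right, Or.inl (hJJ hcd)⟩
  have hs2 : (J.map f).support = f '' J.support := support_map_inj hfJ
  have hQ' : Cn (indu H (J.support ∪ Q)) Q :=
    hQ.mono' fun a ha c hc hac => ⟨hac, Or.inr ha, Or.inr hc⟩
  have hat' : ∀ z ∈ J.support, At H Q z → At (indu H (J.support ∪ Q)) Q z := by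
    rintro z hz ⟨q, hq, hzq⟩
    exact ⟨q, hq, hzq, Or.inl hz, Or.inr hq⟩
  have hfx : f x ∈ (J.map f).support := hs2 ▸ Set.mem_image_of_mem f hx
  have hfy : f y ∈ (J.map f).support := hs2 ▸ Set.mem_image_of_mem f hy
  apply hbad
  rcases (Q ∩ S).eq_empty_or_nonempty with he | ⟨q₁, hq₁⟩
  · have hdS : Disjoint Q S := Set.disjoint_iff_inter_eq_empty.2 he
    refine ⟨xl1_adj_of_map hfJ hx hy (l1_ind hO hJ2 _ hfx _ hfy (hfa x y
      ⟨hxy, hJS hx, hJS hy, Or.inr ⟨Q, hdS, hQ', hat' x hx hax, hat' y hy hay⟩⟩)), ?_⟩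
    intro z hz haz
    exact (hA _ Q le_rfl hdS hQ' x (hJS hx) y (hJS hy) hxy (hat' x hx hax)
      (hat' y hy hay)).2 z (hJS hz) (hat' z hz haz)
  · have hlt : (f '' (Q ∩ S)).ncard < m := by
      refine lt_of_le_of_lt (Set.ncard_image_le (Set.toFinite _)) ?_
      rw [← hm]
      refine Set.ncard_lt_ncard ⟨Set.inter_subset_left, fun hs => hS.2 ?_⟩
      rintro a (ha | ha)
      · exact hJS ha
      · exact (hs ha).2
    have hd2 : Disjoint (f '' (Q ∩ S)) (J.map f).support := by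
      rw [hs2, Set.disjoint_left]
      rintro _ ⟨q, hq, rfl⟩ ⟨a, ha, hqa⟩
      have : a = q := hf (hJS ha) hq.2 hqa
      exact Set.disjoint_left.1 hd hq.1 (this ▸ ha)
    have hc2 : Cn H (f '' (Q ∩ S)) :=
      (xl1_cn_tor hQ' S).image f fun a _ b _ hab => Or.inr (hfa a b hab)
    have hat2 : ∀ z ∈ J.support, At H Q z → At H (f '' (Q ∩ S)) (f z) := by
      intro z hz haz
      obtain ⟨q, hq, hzq⟩ := hat' z hz haz
      by_cases hqS : q ∈ S
      · exact ⟨f q, Set.mem_image_of_mem f ⟨hq, hqS⟩,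
          hfa z q ⟨hzq.ne, hJS hz, hqS, Or.inl hzq⟩⟩
      · obtain ⟨D, hqD, hDZ, hD, -, w, hw, hwS, haw⟩ := xl1_first hQ' hq hqS hq₁.1 hq₁.2
        have hzw : z ≠ w := fun h => Set.disjoint_left.1 hd hw (h ▸ hz)
        exact ⟨f w, Set.mem_image_of_mem f ⟨hw, hwS⟩, hfa z w ⟨hzw, hJS hz, hwS,
          Or.inr ⟨D, Set.disjoint_left.2 fun a ha => (hDZ ha).2, hD, ⟨q, hqD, hzq⟩, haw⟩⟩⟩
    have := ih _ hlt (J.map f) _ rfl hJ2 hd2 hc2 _ hfx _ hfy (fun h => hxy (hfJ hx hy h))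
      (hat2 x hx hax) (hat2 y hy hay)
    refine ⟨xl1_adj_of_map hfJ hx hy this.1, fun z hz haz => ?_⟩
    exact (this.2 (f z) (hs2 ▸ Set.mem_image_of_mem f hz) (hat2 z hz haz)).imp
      (fun h => hfJ hz hx h) fun h => hfJ hz hy h

/-- copies of a maximal rooted stiff graph are gated -/
theorem l1 (h0 : R₀ ≠ ⊥) (hO : Mx H (RS H R₀) O) {J : SimpleGraph W} (hJ : Cop O H J) :
    Gate True H J := by
  refine ⟨l1_ind hO hJ, fun n Q _ hd hQ x hx y hy hxy hax hay => ?_⟩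
  have := xl1_main h0 hO _ J Q rfl hJ hd hQ x hx y hy hxy hax hay
  exact ⟨⟨trivial, this.1⟩, this.2⟩

theorem alpha_prime {α : SimpleGraph W} (hα : Mx H (RS H k2) α) : Prime α := by
  obtain ⟨u, v, huv, hs⟩ := rs_k2.1 hα.2.1
  exact hs.prime hα.1 (Or.inr ⟨u, v, huv, rfl⟩)

theorem fam_alpha {α A : SimpleGraph W} (hα : Mx H (RS H k2) α) (hA : A ≤ H) :
    Fam True A {K | Cop α A K} := by
  have h0 : k2 ≠ ⊥ := by
    intro h
    have : k2.Adj 0 1 := by simp [k2]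
    rw [h] at this
    exact this
  have hg : ∀ K, Cop α A K → Gate True A K := fun K hK => (l1 h0 hα (hK.mono hA)).mono hA
  have hp : ∀ K, Cop α A K → Prime K := fun K hK => hK.1.prime (alpha_prime hα)
  refine ⟨fun K hK => ⟨hK.2, (hp K hK).1, hg K hK⟩, fun K hK K' hK' hne => ?_⟩
  exact unc_of_prime (hg K hK) (hg K' hK') hK.2 hK'.2 (hp K' hK')
    (hK.1.ec_eq.trans hK'.1.ec_eq.symm) hne

end Pool.Agent.MP_1c0fc2_co.RI
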