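import Pool.Agent.MP_1c0fc2_co.RI.Two

open Function SimpleGraph

namespace Pool.Agent.MP_1c0fc2_co.RI

variable {V W : Type} [Finite V] {O : SimpleGraph W} {A : SimpleGraph V}

omit [Finite V] in
theorem xleaf_comp (U : SimpleGraph V) (c : V) (S : Set V) : ∃ Q : Set V, (c ∉ S → c ∈ Q) ∧
    (c ∈ S → Q = ∅) ∧ (∀ a ∈ Q, a ∉ S) ∧ Cn U Q ∧ ∀ a ∈ Q, ∀ b, b ∉ S → U.Adj a b → b ∈ Q := by
  by_cases h : c ∈ S
  · exact ⟨∅, fun h' => absurd h h', fun _ => rfl, fun _ ha => ha.elim,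
      cn_of_subsingleton Set.subsingleton_empty, fun _ ha => ha.elim⟩
  · obtain ⟨Q, h1, h2, h3, h4⟩ := exists_comp U Sᶜ (x := c) h
    exact ⟨Q, fun _ => h1, fun h' => absurd h' h, fun a ha => h2 ha, h3, h4⟩

omit [Finite V] in
theorem xleaf_att {U : SimpleGraph V} {c x : V} {S Q : Set V} (hc : c ∈ Q)
    (hS : ∀ a ∈ Q, a ∉ S) (hQ : ∀ a ∈ Q, ∀ b, b ∉ S → U.Adj a b → b ∈ Q) (hx : x ∈ S)
    (hr : U.Reachable c x) : ∃ t ∈ S, At U Q t := by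
  have h : ∀ y, Relation.ReflTransGen U.Adj c y → y ∈ Q ∨ ∃ t ∈ S, At U Q t := by
    intro y hy
    induction hy with
    | refl => exact Or.inl hc
    | @tail a b _ hab ih =>
      rcases ih with ih | ih
      · by_cases hb : b ∈ S
        · exact Or.inr ⟨b, hb, a, ih, hab.symm⟩
        · exact Or.inl (hQ a ih b hb hab)
      · exact Or.inr ih
  exact (h x ((reachable_iff_reflTransGen c x).1 hr)).resolve_left fun h' => hS x h' hx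

theorem xleaf_core (U : SimpleGraph V) (𝒦 : Set (SimpleGraph V)) (hn : 𝒦.Nonempty) (c : V)
    (h1 : ∀ K ∈ 𝒦, K ≤ U ∧ TwoC K ∧ Gate False U K)
    (h2 : ∀ K ∈ 𝒦, ∀ K' ∈ 𝒦, K ≠ K' → (K.support ∩ K'.support).Subsingleton)
    (h3 : ∀ K ∈ 𝒦, ∃ x ∈ K.support, U.Reachable c x) : ∃ K ∈ 𝒦, ∃ t,
      (c ∈ K.support → c = t) ∧ ∀ K' ∈ 𝒦, K' ≠ K → K.support ∩ K'.support ⊆ {t} := by
  choose R r1 r2 r3 r4 r5 using xleaf_comp U c
  obtain ⟨K, hK, hmax⟩ := Set.exists_max_image 𝒦 (fun K => (R K.support).ncard)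
    (Set.toFinite _) hn
  obtain ⟨t, ht, t1, t2⟩ : ∃ t ∈ K.support, (c ∈ K.support → c = t) ∧
      (c ∉ K.support → At U (R K.support) t) := by
    by_cases h : c ∈ K.support
    · exact ⟨c, h, fun _ => rfl, fun h' => absurd h h'⟩
    · obtain ⟨x, hx, hr⟩ := h3 K hK
      obtain ⟨t, ht, ht'⟩ := xleaf_att (r1 _ h) (r3 _) (r5 _) hx hr
      exact ⟨t, ht, fun h' => absurd h' h, fun _ => ht'⟩
  refine ⟨K, hK, t, t1, fun K' hK' hne v hv => ?_⟩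
  by_contra hvt
  have hvt : v ≠ t := hvt
  obtain ⟨a1, a2, a3⟩ := h1 K hK
  obtain ⟨b1, b2, -⟩ := h1 K' hK'
  have hs : ∀ w ∈ K.support, w ∈ K'.support → w = v := fun w hw hw' =>
    h2 K hK K' hK' hne.symm ⟨hw, hw'⟩ hv
  have hD : ∀ w ∈ R K.support, w ∉ K'.support := fun w hw hw' => by
    have hc : c ∉ K.support := fun h => by
      rw [r2 _ h] at hw
      exact hw
    have hwv : w ≠ v := fun h => r3 _ w hw (h ▸ hv.1)
    obtain ⟨y, -, -, hy, -⟩ := b2.two_nbr hv.2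
    refine (a3.2 _ (R K.support ∪ (K'.support \ {v})) le_rfl ?_
      ((r4 _).union ((b2.2 v).mono b1) ⟨w, hw, hw', hwv⟩) t ht v hv.1 hvt.symm
      ((t2 hc).mono le_rfl Set.subset_union_left)
      ⟨y, Or.inr ⟨hy.symm.mem_support_left, hy.ne'⟩, b1 hy⟩).1.1
    rw [Set.disjoint_left]
    rintro z (hz | hz) hz'
    · exact r3 _ z hz hz'
    · exact hz.2 (hs z hz' hz.1)
  have hc' : c ∉ K'.support := fun h => by
    by_cases hc : c ∈ K.support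
    · exact hvt ((hs c hc h).symm.trans (t1 hc))
    · exact hD c (r1 _ hc) h
  have hZ : Cn U (R K.support ∪ (K.support \ {v})) ∧ c ∈ R K.support ∪ (K.support \ {v}) := by
    by_cases hc : c ∈ K.support
    · rw [r2 _ hc, Set.empty_union]
      exact ⟨(a2.2 v).mono a1, hc, fun h => hvt (h.symm.trans (t1 hc))⟩
    · obtain ⟨y, hy, hy'⟩ := t2 hc
      exact ⟨(r4 _).union_adj ((a2.2 v).mono a1) hy ⟨ht, hvt.symm⟩ hy'.symm, Or.inl (r1 _ hc)⟩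
  have hsub : R K.support ∪ (K.support \ {v}) ⊆ R K'.support := by
    refine hZ.1.closed hZ.2 (r1 _ hc') fun x _ hx y hy hxy => r5 _ x hx y ?_ hxy
    rcases hy with hy | hy
    · exact hD y hy
    · exact fun h => hy.2 (hs y hy.1 h)
  have hlt : R K.support ⊂ R K'.support :=
    ⟨Set.subset_union_left.trans hsub, fun h => r3 _ t (h (hsub (Or.inr ⟨ht, hvt.symm⟩))) ht⟩
  exact absurd (hmax K' hK') (not_le.2 (Set.ncard_lt_ncard hlt))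

theorem xleaf_reach (U : SimpleGraph V) (𝒦 : Set (SimpleGraph V)) (c : V)
    (h1 : ∀ K ∈ 𝒦, K ≤ U ∧ TwoC K ∧ Gate False U K)
    (h2 : ∀ K ∈ 𝒦, ∀ K' ∈ 𝒦, K ≠ K' → (K.support ∩ K'.support).Subsingleton)
    (h3 : ∃ K ∈ 𝒦, ∃ x ∈ K.support, U.Reachable c x) : ∃ K ∈ 𝒦, ∃ t,
      (c ∈ K.support → c = t) ∧ ∀ K' ∈ 𝒦, K' ≠ K → K.support ∩ K'.support ⊆ {t} := by
  obtain ⟨K, hK, t, t1, t2⟩ := xleaf_core U {K ∈ 𝒦 | ∃ x ∈ K.support, U.Reachable c x} h3 c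
    (fun K hK => h1 K hK.1) (fun K hK K' hK' => h2 K hK.1 K' hK'.1) fun K hK => hK.2
  refine ⟨K, hK.1, t, t1, fun K' hK' hne v hv => ?_⟩
  obtain ⟨x, hx, hr⟩ := hK.2
  obtain ⟨a1, a2, -⟩ := h1 K hK.1
  exact t2 K' ⟨hK', v, hv.2, hr.trans ((a2.cn.mono a1).reach hx hv.1)⟩ hne hv

theorem leaf_of_gate (U : SimpleGraph V)
    (h1 : ∀ K, Cop O A K → K ≤ U ∧ TwoC K ∧ Gate False U K)
    (h2 : ∀ K K', Cop O A K → Cop O A K' → K ≠ K' → (K.support ∩ K'.support).Subsingleton) :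
    Leaf O A := by
  intro 𝒦 h𝒦 hn c
  have a1 := fun K hK => h1 K (h𝒦 K hK)
  have a2 := fun K hK K' hK' => h2 K K' (h𝒦 K hK) (h𝒦 K' hK')
  by_cases h : ∃ K ∈ 𝒦, ∃ x ∈ K.support, U.Reachable c x
  · exact xleaf_reach U 𝒦 c a1 a2 h
  · obtain ⟨K₀, hK₀⟩ := hn
    obtain ⟨x, y, hxy⟩ := (a1 K₀ hK₀).2.1.ne_bot
    obtain ⟨K, hK, t, -, t2⟩ := xleaf_reach U 𝒦 x a1 a2
      ⟨K₀, hK₀, x, hxy.mem_support_left, Reachable.refl x⟩
    exact ⟨K, hK, t, fun hc => absurd ⟨K, hK, c, hc, Reachable.refl c⟩ h, t2⟩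

end Pool.Agent.MP_1c0fc2_co.RI
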