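import Pool.Agent.MP_1c0fc2_co.RI.Peel

open Function SimpleGraph

namespace Pool.Agent.MP_1c0fc2_co.RI

variable {V W : Type} [Finite V] [Finite W] {O : SimpleGraph W} {A : SimpleGraph V}

theorem CR.mono {A' : SimpleGraph V} {x y : V} (h : CR O A' x y) (hle : A' ≤ A) : CR O A x y := by
  obtain ⟨hx, hy, J, ⟨hJ, hJA, z, hz⟩, hxJ, hyJ⟩ := h
  have hm : Un O A' ≤ Un O A := un_mono hle
  refine ⟨support_mono hm hx, support_mono hm hy, J, ⟨hJ, hJA.trans hle, z, ?_⟩, hxJ, hyJ⟩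
  intro w hw hwz
  obtain ⟨u, h1, h2⟩ := hz w hw hwz
  exact ⟨u, h1, hm h2⟩

theorem CR.symm {x y : V} (h : CR O A x y) : CR O A y x := by
  obtain ⟨hx, hy, J, hJ, hxJ, hyJ⟩ := h
  exact ⟨hy, hx, J, hJ, hyJ, hxJ⟩

theorem cr_of_un (hO : TwoC O) {x y : V} (h : (Un O A).Adj x y) : CR O A x y := by
  obtain ⟨J, hJ, hxy⟩ := un_adj.1 h
  refine ⟨⟨y, h⟩, ⟨x, h.symm⟩, J, ⟨hJ.1.twoC hO, hJ.2, x, ?_⟩, ⟨y, hxy⟩, ⟨x, hxy.symm⟩⟩
  intro w hw _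
  obtain ⟨u, hu⟩ := hw
  exact ⟨u, hu, hJ.le_un hu⟩

theorem cls_sub {x : V} (hx : x ∈ (Un O A).support) : cls O A x ⊆ (Un O A).support := by
  intro y hy
  have hy' : Relation.ReflTransGen (CR O A) x y := hy
  induction hy' with
  | refl => exact hx
  | tail _ h _ => exact h.2.1

theorem xmzero_symm {x y : V} (h : Relation.ReflTransGen (CR O A) x y) :
    Relation.ReflTransGen (CR O A) y x := by
  induction h with
  | refl => exact Relation.ReflTransGen.refl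
  | tail _ h ih => exact Relation.ReflTransGen.head h.symm ih

theorem xmzero_mono {r q : V → V → Prop} (hrq : ∀ u v, r u v → q u v) {x y : V}
    (h : Relation.ReflTransGen r x y) : Relation.ReflTransGen q x y := by
  induction h with
  | refl => exact Relation.ReflTransGen.refl
  | tail _ h ih => exact ih.tail (hrq _ _ h)

theorem xmzero_cls_eq {x y : V} (h : y ∈ cls O A x) : cls O A y = cls O A x := by
  have h' : Relation.ReflTransGen (CR O A) x y := h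
  ext z
  exact ⟨fun hz => Relation.ReflTransGen.trans h' hz,
    fun hz => Relation.ReflTransGen.trans (xmzero_symm h') hz⟩

theorem xmzero_comp (hO : TwoC O) {x : V} (hx : x ∈ (Un O A).support) :
    ∃ C : Set V, C.Nonempty ∧ C ⊆ cls O A x ∧ C ⊆ (Un O A).support ∧ Cn (Un O A) C ∧
      ∀ a ∈ C, ∀ b, (Un O A).Adj a b → b ∈ C := by
  obtain ⟨Q, hxQ, hQ, hc, hcl⟩ := exists_comp (Un O A) (Un O A).support hx
  refine ⟨Q, ⟨x, hxQ⟩, ?_, hQ, hc, fun a ha b hab => hcl a ha b ⟨a, hab.symm⟩ hab⟩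
  intro y hy
  exact xmzero_mono (q := CR O A) (fun u v h => cr_of_un hO h.2.2) (hc x hxQ y hy)

theorem xmzero_sub (hO : TwoC O) {C : Set V} (hcl : ∀ a ∈ C, ∀ b, (Un O A).Adj a b → b ∈ C)
    {K : SimpleGraph V} (hK : Cop O A K) {a : V} (ha : a ∈ K.support) (haC : a ∈ C) :
    K.support ⊆ C :=
  (hK.1.twoC hO).cn.closed ha haC fun x _ hxC y _ hxy => hcl x hxC y (hK.le_un hxy)

theorem xmzero_edge (hO : TwoC O) (hL : Leaf O A) (Φ : SimpleGraph V → V → V → Prop)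
    (hch : ∀ K, Cop O A K → ∀ t, ∃ a b, K.Adj a b ∧ a ≠ t ∧ b ≠ t ∧ Φ K a b) {C : Set V}
    (hn : C.Nonempty) (hs : C ⊆ (Un O A).support)
    (hcl : ∀ a ∈ C, ∀ b, (Un O A).Adj a b → b ∈ C) (c : V) :
    ∃ (K : SimpleGraph V) (a b : V), Cop O A K ∧ K.Adj a b ∧ Φ K a b ∧ a ∈ C ∧ b ∈ C ∧
      a ≠ c ∧ b ≠ c ∧ ∀ K', Cop O A K' → a ∈ K'.support ∨ b ∈ K'.support → K' = K := by
  obtain ⟨r, hr⟩ := hn
  obtain ⟨y, hy⟩ := hs hr
  obtain ⟨K₀, hK₀, hry⟩ := un_adj.1 hy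
  obtain ⟨K, ⟨hK, hKC⟩, t, ht, hlf⟩ := hL {K | Cop O A K ∧ K.support ⊆ C} (fun K h => h.1)
    ⟨K₀, hK₀, xmzero_sub hO hcl hK₀ ⟨y, hry⟩ hr⟩ c
  obtain ⟨a, b, hab, hat, hbt, hΦ⟩ := hch K hK t
  have haK : a ∈ K.support := ⟨b, hab⟩
  have hbK : b ∈ K.support := ⟨a, hab.symm⟩
  refine ⟨K, a, b, hK, hab, hΦ, hKC haK, hKC hbK, ?_, ?_, ?_⟩
  · rintro rfl
    exact hat (ht haK)
  · rintro rfl
    exact hbt (ht hbK)
  · intro K' hK' h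
    by_contra hne
    rcases h with h | h
    · exact hat (hlf K' ⟨hK', xmzero_sub hO hcl hK' h (hKC haK)⟩ hne ⟨haK, h⟩)
    · exact hbt (hlf K' ⟨hK', xmzero_sub hO hcl hK' h (hKC hbK)⟩ hne ⟨hbK, h⟩)

theorem exists_m0 [Nonempty V] (hO : TwoC O) (hL : Leaf O A) (Φ : SimpleGraph V → V → V → Prop)
    (hch : ∀ K, Cop O A K → ∀ t, ∃ a b, K.Adj a b ∧ a ≠ t ∧ b ≠ t ∧ Φ K a b) {s : ℕ}
    (hs : Pot O A (s + 1)) :
    ∃ M ≤ A, Mt M ∧ (∀ a ∈ M.support, ∀ b ∈ M.support, A.Adj a b → M.Adj a b) ∧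
      Disjoint (Un O (A \ M)).support M.support ∧ Pot O (A \ M) s ∧
      ∀ a b, M.Adj a b → ∃ K, Cop O A K ∧ K.Adj a b ∧ (Φ K a b ∨ Φ K b a) := by
  classical
  let 𝒳 : Set (Set V) := {X | ∃ x ∈ (Un O A).support, X = cls O A x}
  have h1 : ∀ X ∈ 𝒳, ∃ C : Set V, C.Nonempty ∧ C ⊆ X ∧ C ⊆ (Un O A).support ∧ Cn (Un O A) C ∧
      ∀ a ∈ C, ∀ b, (Un O A).Adj a b → b ∈ C := by
    rintro X ⟨x, hx, rfl⟩
    exact xmzero_comp hO hx
  choose! cp hcp using h1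
  have hX : ∀ X ∈ 𝒳, ∀ y ∈ X, X = cls O A y := by
    rintro X ⟨x, _, rfl⟩ y hy
    exact (xmzero_cls_eq hy).symm
  let 𝒞 : Set (Set V) := cp '' 𝒳
  have hr : ∀ C ∈ 𝒞, ∀ C' ∈ 𝒞, C ≠ C' → ∀ x ∈ C, ∀ y ∈ C', ¬ CR O A x y := by
    rintro _ ⟨X, hX1, rfl⟩ _ ⟨X', hX2, rfl⟩ hne x hx y hy hxy
    apply hne
    have e1 := hX X hX1 x ((hcp X hX1).2.1 hx)
    have e2 := hX X' hX2 y ((hcp X' hX2).2.1 hy)
    have e3 : y ∈ cls O A x := Relation.ReflTransGen.single hxy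
    rw [e1, e2, xmzero_cls_eq e3]
  have hd : ∀ C ∈ 𝒞, ∀ C' ∈ 𝒞, C ≠ C' → Disjoint C C' := by
    rintro _ ⟨X, hX1, rfl⟩ _ ⟨X', hX2, rfl⟩ hne
    rw [Set.disjoint_left]
    intro x hx hx'
    apply hne
    have e1 := hX X hX1 x ((hcp X hX1).2.1 hx)
    have e2 := hX X' hX2 x ((hcp X' hX2).2.1 hx')
    rw [e1, e2]
  have hc : ∀ C ∈ 𝒞, Cn (Un O A) C ∧ C ⊆ (Un O A).support := by
    rintro _ ⟨X, hX1, rfl⟩
    exact ⟨(hcp X hX1).2.2.2.1, (hcp X hX1).2.2.1⟩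
  obtain ⟨ex, hex⟩ := peel 𝒞 hd hc hr
  have h2 : ∀ C ∈ 𝒞, ∃ (K : SimpleGraph V) (a b : V), Cop O A K ∧ K.Adj a b ∧ Φ K a b ∧
      a ∈ C ∧ b ∈ C ∧ a ≠ ex C ∧ b ≠ ex C ∧
      ∀ K', Cop O A K' → a ∈ K'.support ∨ b ∈ K'.support → K' = K := by
    rintro _ ⟨X, hX1, rfl⟩
    obtain ⟨g1, _, g3, _, g5⟩ := hcp X hX1
    exact xmzero_edge hO hL Φ hch g1 g3 g5 _
  choose! Kf af bf hf using h2
  let M : SimpleGraph V :=
    { Adj := fun x y => ∃ C ∈ 𝒞, (x = af C ∧ y = bf C) ∨ (x = bf C ∧ y = af C)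
      symm := ⟨fun _ _ ⟨C, hC, h⟩ => ⟨C, hC, h.symm.imp And.symm And.symm⟩⟩
      loopless := ⟨fun _ ⟨C, hC, h⟩ => (hf C hC).2.1.ne (by
        rcases h with ⟨h, h'⟩ | ⟨h, h'⟩
        · exact h.symm.trans h'
        · exact h'.symm.trans h)⟩ }
  have hM : ∀ x y, M.Adj x y ↔ ∃ C ∈ 𝒞, (x = af C ∧ y = bf C) ∨ (x = bf C ∧ y = af C) :=
    fun _ _ => Iff.rfl
  have hsup : ∀ x ∈ M.support, ∃ C ∈ 𝒞, x = af C ∨ x = bf C := by
    rintro x ⟨y, C, hC, h⟩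
    exact ⟨C, hC, h.imp And.left And.left⟩
  have hmem : ∀ C ∈ 𝒞, ∀ x, x = af C ∨ x = bf C → x ∈ C ∧ x ≠ ex C := by
    rintro C hC x (rfl | rfl)
    · exact ⟨(hf C hC).2.2.2.1, (hf C hC).2.2.2.2.2.1⟩
    · exact ⟨(hf C hC).2.2.2.2.1, (hf C hC).2.2.2.2.2.2.1⟩
  have hdis : Disjoint (Un O (A \ M)).support M.support := by
    rw [Set.disjoint_left]
    rintro x ⟨y, hy⟩ hx
    obtain ⟨K', hK', hxy⟩ := un_adj.1 hy
    obtain ⟨C, hC, hxC⟩ := hsup x hx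
    have hxK : x ∈ K'.support := ⟨y, hxy⟩
    have e : K' = Kf C := (hf C hC).2.2.2.2.2.2.2 K' (hK'.mono sdiff_le) (by
      rcases hxC with h | h
      · exact Or.inl (h ▸ hxK)
      · exact Or.inr (h ▸ hxK))
    have h3 : K'.Adj (af C) (bf C) := e ▸ (hf C hC).2.1
    have h4 := hK'.2 h3
    rw [sdiff_adj] at h4
    exact h4.2 ⟨C, hC, Or.inl ⟨rfl, rfl⟩⟩
  refine ⟨M, ?_, ?_, ?_, hdis, ?_, ?_⟩
  · rintro x y ⟨C, hC, ⟨rfl, rfl⟩ | ⟨rfl, rfl⟩⟩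
    · exact (hf C hC).1.2 (hf C hC).2.1
    · exact (hf C hC).1.2 (hf C hC).2.1.symm
  · rintro x y z ⟨C, hC, h⟩ ⟨C', hC', h'⟩
    have e : C = C' := by
      by_contra hne
      exact Set.disjoint_left.1 (hd C hC C' hC' hne)
        (hmem C hC x (h.imp And.left And.left)).1 (hmem C' hC' x (h'.imp And.left And.left)).1
    subst e
    have hne := (hf C hC).2.1.ne
    rcases h with ⟨h1, h2⟩ | ⟨h1, h2⟩ <;> rcases h' with ⟨h3, h4⟩ | ⟨h3, h4⟩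
    · exact h2.trans h4.symm
    · exact absurd (h1.symm.trans h3) hne
    · exact absurd (h3.symm.trans h1) hne
    · exact h2.trans h4.symm
  · intro x hx y hy hxy
    obtain ⟨C, hC, h⟩ := hsup x hx
    obtain ⟨C', hC', h'⟩ := hsup y hy
    have e : C = C' := by
      by_contra hne
      rcases hex C hC C' hC' hne x (hmem C hC x h).1 y (hmem C' hC' y h').1 hxy with g | g
      · exact (hmem C hC x h).2 g
      · exact (hmem C' hC' y h').2 g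
    subst e
    rcases h with h | h <;> rcases h' with h' | h'
    · exact absurd (h.trans h'.symm) hxy.ne
    · exact ⟨C, hC, Or.inl ⟨h, h'⟩⟩
    · exact ⟨C, hC, Or.inr ⟨h, h'⟩⟩
    · exact absurd (h.trans h'.symm) hxy.ne
  · intro x hx
    have hx' : x ∈ (Un O A).support := support_mono (un_mono sdiff_le) hx
    have hX1 : cls O A x ∈ 𝒳 := ⟨x, hx', rfl⟩
    have hC : cp (cls O A x) ∈ 𝒞 := ⟨_, hX1, rfl⟩
    have ha : af (cp (cls O A x)) ∈ cls O A x := (hcp _ hX1).2.1 (hf _ hC).2.2.2.1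
    have hsub : cls O (A \ M) x ⊆ cls O A x := fun y hy =>
      xmzero_mono (r := CR O (A \ M)) (q := CR O A) (fun u v h => CR.mono h sdiff_le) hy
    have hnot : af (cp (cls O A x)) ∉ cls O (A \ M) x := fun h =>
      Set.disjoint_left.1 hdis (cls_sub hx h) ⟨_, _, hC, Or.inl ⟨rfl, rfl⟩⟩
    have hlt : (cls O (A \ M) x).ncard < (cls O A x).ncard :=
      Set.ncard_lt_ncard ⟨hsub, fun h => hnot (h ha)⟩ (Set.toFinite _)
    have := hs x hx'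
    omega
  · rintro x y ⟨C, hC, ⟨rfl, rfl⟩ | ⟨rfl, rfl⟩⟩
    · exact ⟨Kf C, (hf C hC).1, (hf C hC).2.1, Or.inl (hf C hC).2.2.1⟩
    · exact ⟨Kf C, (hf C hC).1, (hf C hC).2.1.symm, Or.inr (hf C hC).2.2.1⟩

end Pool.Agent.MP_1c0fc2_co.RI
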