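import Pool.Agent.MP_1c0fc2_co.RI.Cp

open Function SimpleGraph

namespace Pool.Agent.MP_1c0fc2_co.RI

variable {V W : Type} [Finite V] {O : SimpleGraph W} {A : SimpleGraph V}

theorem xmatch_fam [Nonempty V] (hL : Leaf O A) (Φ : SimpleGraph V → V → V → Prop)
    (hch : ∀ K, Cop O A K → ∀ t, ∃ a b, K.Adj a b ∧ a ≠ t ∧ b ≠ t ∧ Φ K a b) (n : ℕ) :
    ∀ 𝒦 : Set (SimpleGraph V), 𝒦.ncard = n → (∀ K ∈ 𝒦, Cop O A K) →
      ∃ M : SimpleGraph V, Mt M ∧ (∀ K ∈ 𝒦, ∃ a b, K.Adj a b ∧ M.Adj a b) ∧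
        ∀ a b, M.Adj a b → ∃ K ∈ 𝒦, K.Adj a b ∧ (Φ K a b ∨ Φ K b a) := by
  induction n with
  | zero =>
    intro 𝒦 h0 _
    rw [Set.ncard_eq_zero (Set.toFinite _)] at h0
    subst h0
    exact ⟨⊥, fun a b c h => h.elim, fun K hK => hK.elim, fun a b h => h.elim⟩
  | succ n ih =>
    intro 𝒦 h0 hK
    have hne : 𝒦.Nonempty := Set.nonempty_of_ncard_ne_zero (by omega)
    obtain ⟨K, hKm, t, -, ht⟩ := hL 𝒦 hK hne (Classical.arbitrary V)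
    obtain ⟨M, h1, h2, h3⟩ := ih (𝒦 \ {K})
      (by rw [Set.ncard_sdiff_singleton_of_mem hKm, h0]; rfl) fun K' h => hK K' h.1
    obtain ⟨a, b, hab, ha, hb, hΦ⟩ := hch K (hK K hKm) t
    have key : ∀ x y, M.Adj x y → x ≠ a ∧ x ≠ b := by
      intro x y hxy
      obtain ⟨K', hK', h, -⟩ := h3 x y hxy
      have := ht K' hK'.1 hK'.2
      constructor
      · rintro rfl
        exact ha (this ⟨⟨b, hab⟩, ⟨y, h⟩⟩)
      · rintro rfl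
        exact hb (this ⟨⟨a, hab.symm⟩, ⟨y, h⟩⟩)
    refine ⟨M ⊔ edge a b, ?_, ?_, ?_⟩
    · intro x y z hy hz
      rw [sup_adj, edge_adj] at hy hz
      have hne := hab.ne
      rcases hy with hy | ⟨hy, -⟩ <;> rcases hz with hz | ⟨hz, -⟩
      · exact h1 x y z hy hz
      · have := key x y hy
        tauto
      · have := key x z hz
        tauto
      · rcases hy with ⟨rfl, rfl⟩ | ⟨rfl, rfl⟩ <;> rcases hz with ⟨h, rfl⟩ | ⟨h, rfl⟩ <;>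
          first | rfl | exact absurd h hne | exact absurd h.symm hne
    · intro K' hK'
      by_cases h : K' = K
      · subst h
        exact ⟨a, b, hab, Or.inr ((edge_adj _ _ _ _).2 ⟨Or.inl ⟨rfl, rfl⟩, hab.ne⟩)⟩
      · obtain ⟨x, y, h4, h5⟩ := h2 K' ⟨hK', h⟩
        exact ⟨x, y, h4, Or.inl h5⟩
    · intro x y hxy
      rw [sup_adj, edge_adj] at hxy
      rcases hxy with hxy | ⟨⟨rfl, rfl⟩ | ⟨rfl, rfl⟩, -⟩
      · obtain ⟨K', hK', h⟩ := h3 x y hxy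
        exact ⟨K', hK'.1, h⟩
      · exact ⟨K, hKm, hab, Or.inl hΦ⟩
      · exact ⟨K, hKm, hab.symm, Or.inr hΦ⟩

theorem exists_match [Nonempty V] (hL : Leaf O A) (Φ : SimpleGraph V → V → V → Prop)
    (hch : ∀ K, Cop O A K → ∀ t, ∃ a b, K.Adj a b ∧ a ≠ t ∧ b ≠ t ∧ Φ K a b) :
    ∃ M ≤ A, Mt M ∧ ¬ Has O (A \ M) ∧
      ∀ a b, M.Adj a b → ∃ K, Cop O A K ∧ K.Adj a b ∧ (Φ K a b ∨ Φ K b a) := by
  obtain ⟨M, h1, h2, h3⟩ := xmatch_fam hL Φ hch _ {K | Cop O A K} rfl fun _ h => h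
  refine ⟨M, fun a b h => ?_, h1, ?_, h3⟩
  · obtain ⟨K, hK, h', -⟩ := h3 a b h
    exact hK.2 h'
  · rintro ⟨K, hK⟩
    obtain ⟨a, b, h4, h5⟩ := h2 K ⟨hK.1, hK.2.trans sdiff_le⟩
    exact ((sdiff_adj _ _ _ _).1 (hK.2 h4)).2 h5

end Pool.Agent.MP_1c0fc2_co.RI
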