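import Pool.Agent.MP_1c0fc2_co.RI.Rec
import Pool.Agent.MP_1c0fc2_co.RI.GL

open Function SimpleGraph

namespace Pool.Agent.MP_1c0fc2_co.RI

variable {V W : Type} [Finite V] {A : SimpleGraph V} {𝒦 : Set (SimpleGraph V)}

/-- the acyclicity part of the induction statement -/
def xwrecB (A : SimpleGraph V) (Z X S : Set V) : Prop :=
  (star (indu A Z) S).IsAcyclic ∧
    ∀ a ∈ X, ∀ a' ∈ X, a ≠ a' → (star (indu A Z) S).IsBridge s(a, a')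

/-- the induction statement -/
def xwrecP (A : SimpleGraph V) (𝒦 : Set (SimpleGraph V)) (b : Prop) (Z : Set V) : Prop :=
  ∀ X W0 : Set V, Clq True A X → X ⊆ Z → W0 ⊆ X → Indep A W0 →
    ∃ S ⊆ Z, S ∩ X = W0 ∧ Indep A S ∧
      (∀ K ∈ 𝒦, K.support ⊆ Z → ∃ w ∈ S ∩ K.support, ∀ w' ∈ S ∩ K.support, w' = w) ∧
      (b → xwrecB A Z X S)

omit [Finite V] in
theorem xwrec_adj {X : Set V} (hX : Clq True A X) {a a' : V} (ha : a ∈ X) (ha' : a' ∈ X)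
    (hne : a ≠ a') : A.Adj a a' ∧ X = {a, a'} := by
  rcases hX with h | ⟨-, x, y, hxy, rfl⟩
  · exact absurd (h ha ha') hne
  · rcases ha with rfl | rfl <;> rcases ha' with rfl | rfl
    · exact absurd rfl hne
    · exact ⟨hxy, rfl⟩
    · exact ⟨hxy.symm, Set.pair_comm _ _⟩
    · exact absurd rfl hne

omit [Finite V] in
theorem xwrec_sub {X W0 : Set V} (hX : Clq True A X) (hW : W0 ⊆ X) (hI : Indep A W0) :
    W0.Subsingleton := by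
  intro a ha a' ha'
  by_contra hne
  exact hI a ha a' ha' (xwrec_adj hX (hW ha) (hW ha') hne).1

omit [Finite V] in
theorem xwrec_acyc {G : SimpleGraph V} {S : Set V} (hS : S.Subsingleton) :
    (star G S).IsAcyclic := by
  rcases hS.eq_empty_or_singleton with rfl | ⟨w, rfl⟩
  · have : star G ∅ = ⊥ := by
      ext a b
      simp [star]
    rw [this]
    exact isAcyclic_bot
  · exact acyclic_of_center (w := w) fun x y h => h.2

omit [Finite V] in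
theorem xwrec_base {Z X W0 : Set V} (hX : Clq True A X) (hZ : X ⊆ Z) (hW : W0 ⊆ X)
    (hI : Indep A W0) : xwrecB A Z X W0 := by
  have hS := xwrec_sub hX hW hI
  refine ⟨xwrec_acyc hS, fun a ha a' ha' hne => ?_⟩
  obtain ⟨hadj, hXe⟩ := xwrec_adj hX ha ha' hne
  rcases W0.eq_empty_or_nonempty with rfl | ⟨w, hw⟩
  · refine IsBridge.of_not_reachable fun h => ?_
    obtain ⟨y, hy⟩ := mem_support_of_reachable hne h
    exact hy.2.elim id id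
  · refine isAcyclic_iff_forall_adj_isBridge.1 (xwrec_acyc hS) ⟨⟨hadj, hZ ha, hZ ha'⟩, ?_⟩
    have := hW hw
    rw [hXe] at this
    rcases this with rfl | rfl
    · exact Or.inl hw
    · exact Or.inr hw

omit [Finite V] in
theorem xwrec_h0 (b : Prop) (Z : Set V) (h : ∀ K ∈ 𝒦, ¬ K.support ⊆ Z) : xwrecP A 𝒦 b Z := by
  intro X W0 hX hZ hW hI
  exact ⟨W0, hW.trans hZ, Set.inter_eq_left.2 hW, hI, fun K hK hs => absurd hs (h K hK),
    fun _ => xwrec_base hX hZ hW hI⟩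

theorem xwrec_pick (hF : Fam True A 𝒦) (b : Prop) (hb : b → ∀ K ∈ 𝒦, ¬ Cone K)
    {K : SimpleGraph V} (hK : K ∈ 𝒦) {X : Set V} (hX : Clq True A X) (hZ : X ⊆ K.support) :
    ∃ w ∈ K.support, w ∉ X ∧ (b → X.Subsingleton ∨ ∃ x ∈ X, ¬ A.Adj x w) := by
  have h3 : 3 ≤ K.support.ncard := (hF.1 K hK).2.1.1
  have hex : ∃ w ∈ K.support, w ∉ X := by
    by_contra hc
    push Not at hc
    have h1 : K.support.ncard ≤ X.ncard := Set.ncard_le_ncard hc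
    have h2 : X.ncard ≤ 2 := by
      rcases hX with h | ⟨-, x, y, -, rfl⟩
      · have := (Set.ncard_le_one (s := X)).2 fun a ha c hc => h ha hc
        omega
      · exact (Set.ncard_insert_le _ _).trans (by simp)
    omega
  by_cases hb' : b
  · rcases hX with h | ⟨-, x, y, hxy, rfl⟩
    · obtain ⟨w, hw, hw'⟩ := hex
      exact ⟨w, hw, hw', fun _ => Or.inl h⟩
    · have hc := hb hb' K hK
      have hx : x ∈ K.support := hZ (Or.inl rfl)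
      have : ∃ w ∈ K.support, w ≠ x ∧ ¬ K.Adj x w := by
        by_contra hn
        push Not at hn
        exact hc ⟨x, hx, hn⟩
      obtain ⟨w, hw, hwx, hn⟩ := this
      have hn' : ¬ A.Adj x w := fun h => hn ((hF.1 K hK).2.2.1 x hx w hw h)
      refine ⟨w, hw, ?_, fun _ => Or.inr ⟨x, Or.inl rfl, hn'⟩⟩
      rintro (rfl | rfl)
      · exact hwx rfl
      · exact hn' hxy
  · obtain ⟨w, hw, hw'⟩ := hex
    exact ⟨w, hw, hw', fun h => absurd h hb'⟩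

theorem xwrec_h1 (hF : Fam True A 𝒦) (b : Prop) (hb : b → ∀ K ∈ 𝒦, ¬ Cone K)
    (K : SimpleGraph V) (hK : K ∈ 𝒦) : xwrecP A 𝒦 b K.support := by
  intro X W0 hX hZ hW hI
  rcases W0.eq_empty_or_nonempty with rfl | ⟨w, hw⟩
  · obtain ⟨w, hw, hwX, hwb⟩ := xwrec_pick hF b hb hK hX hZ
    refine ⟨{w}, Set.singleton_subset_iff.2 hw, Set.singleton_inter_eq_empty.2 hwX, ?_, ?_,
      fun hb' => ⟨xwrec_acyc Set.subsingleton_singleton, fun a ha a' ha' hne => ?_⟩⟩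
    · rintro _ rfl _ rfl h
      exact h.ne rfl
    · intro K' hK' hs
      obtain rfl := hF.eq_of_sub hK hK' hs
      exact ⟨w, ⟨rfl, hw⟩, fun w' h => h.1⟩
    · rcases hwb hb' with h | ⟨x, hx, hn⟩
      · exact absurd (h ha ha') hne
      · have hiso : x ∉ (star (indu A K.support) {w}).support := by
          rintro ⟨y, hy, rfl | rfl⟩
          · exact hwX hx
          · exact hn hy.1
        refine IsBridge.of_not_reachable fun h => hiso ?_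
        rw [(xwrec_adj hX ha ha' hne).2] at hx
        rcases hx with rfl | rfl
        · exact mem_support_of_reachable hne h
        · exact mem_support_of_reachable hne.symm h.symm
  · refine ⟨W0, hW.trans hZ, Set.inter_eq_left.2 hW, hI, ?_, fun _ => xwrec_base hX hZ hW hI⟩
    intro K' hK' hs
    obtain rfl := hF.eq_of_sub hK hK' hs
    exact ⟨w, ⟨hw, hZ (hW hw)⟩, fun w' h => xwrec_sub hX hW hI h.1 hw⟩

omit [Finite V] in
theorem xwrec_glue [Nonempty V] (b : Prop) {Z₁ Z₂ : Set V} (hS : Sp True A 𝒦 Z₁ Z₂)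
    (h1 : xwrecP A 𝒦 b Z₁) (h2 : xwrecP A 𝒦 b Z₂) {X W0 : Set V} (hX : Clq True A X)
    (hZ : X ⊆ Z₁) (hW : W0 ⊆ X) (hI : Indep A W0) :
    ∃ S ⊆ Z₁ ∪ Z₂, S ∩ X = W0 ∧ Indep A S ∧
      (∀ K ∈ 𝒦, K.support ⊆ Z₁ ∪ Z₂ →
        ∃ w ∈ S ∩ K.support, ∀ w' ∈ S ∩ K.support, w' = w) ∧
      (b → xwrecB A (Z₁ ∪ Z₂) X S) := by
  obtain ⟨S₁, s1, e1, i1, k1, b1⟩ := h1 X W0 hX hZ hW hI
  obtain ⟨S₂, s2, e2, i2, k2, b2⟩ := h2 (Z₁ ∩ Z₂) (S₁ ∩ (Z₁ ∩ Z₂)) hS.2.1 Set.inter_subset_right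
    Set.inter_subset_right fun a ha c hc => i1 a ha.1 c hc.1
  have m1 : ∀ a ∈ S₁ ∪ S₂, a ∈ Z₁ → a ∈ S₁ := by
    rintro a (ha | ha) hz
    · exact ha
    · have : a ∈ S₂ ∩ (Z₁ ∩ Z₂) := ⟨ha, hz, s2 ha⟩
      rw [e2] at this
      exact this.1
  have m2 : ∀ a ∈ S₁ ∪ S₂, a ∈ Z₂ → a ∈ S₂ := by
    rintro a (ha | ha) hz
    · have : a ∈ S₁ ∩ (Z₁ ∩ Z₂) := ⟨ha, s1 ha, hz⟩
      rw [← e2] at this
      exact this.1
    · exact ha
  have hc : ∀ a ∈ Z₁ ∪ Z₂, ∀ c ∈ Z₁ ∪ Z₂, A.Adj a c → (a ∈ Z₁ ∧ c ∈ Z₁) ∨ (a ∈ Z₂ ∧ c ∈ Z₂) := by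
    intro a ha c hc h
    by_contra hn
    by_cases ha1 : a ∈ Z₁
    · have hc1 : c ∉ Z₁ := fun h' => hn (Or.inl ⟨ha1, h'⟩)
      have hc2 : c ∈ Z₂ := hc.resolve_left hc1
      exact hS.1 a ⟨ha1, fun h' => hn (Or.inr ⟨h', hc2⟩)⟩ c ⟨hc2, hc1⟩ h
    · have ha2 : a ∈ Z₂ := ha.resolve_left ha1
      have hc2 : c ∉ Z₂ := fun h' => hn (Or.inr ⟨ha2, h'⟩)
      exact hS.1 c ⟨hc.resolve_right hc2, hc2⟩ a ⟨ha2, ha1⟩ h.symm
  have hs : S₁ ∪ S₂ ⊆ Z₁ ∪ Z₂ := Set.union_subset_union s1 s2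
  refine ⟨S₁ ∪ S₂, hs, ?_, ?_, ?_, fun hb => ?_⟩
  · rw [← e1]
    ext a
    exact ⟨fun h => ⟨m1 a h.1 (hZ h.2), h.2⟩, fun h => ⟨Or.inl h.1, h.2⟩⟩
  · intro a ha c hc' h
    rcases hc a (hs ha) c (hs hc') h with h' | h'
    · exact i1 a (m1 a ha h'.1) c (m1 c hc' h'.2) h
    · exact i2 a (m2 a ha h'.1) c (m2 c hc' h'.2) h
  · intro K hK hKs
    rcases hS.2.2 K hK hKs with h | h
    · obtain ⟨w, hw, hu⟩ := k1 K hK h
      exact ⟨w, ⟨Or.inl hw.1, hw.2⟩, fun w' h' => hu w' ⟨m1 w' h'.1 (h h'.2), h'.2⟩⟩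
    · obtain ⟨w, hw, hu⟩ := k2 K hK h
      exact ⟨w, ⟨Or.inr hw.1, hw.2⟩, fun w' h' => hu w' ⟨m2 w' h'.1 (h h'.2), h'.2⟩⟩
  · obtain ⟨a1, r1⟩ := b1 hb
    obtain ⟨a2, r2⟩ := b2 hb
    have he : star (indu A (Z₁ ∪ Z₂)) (S₁ ∪ S₂) =
        star (indu A Z₁) S₁ ⊔ star (indu A Z₂) S₂ := by
      ext a c
      constructor
      · rintro ⟨⟨h, ha, hc'⟩, h'⟩
        rcases hc a ha c hc' h with g | g
        · exact Or.inl ⟨⟨h, g⟩, h'.imp (fun t => m1 a t g.1) fun t => m1 c t g.2⟩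
        · exact Or.inr ⟨⟨h, g⟩, h'.imp (fun t => m2 a t g.1) fun t => m2 c t g.2⟩
      · rintro (⟨⟨h, ha, hc'⟩, h'⟩ | ⟨⟨h, ha, hc'⟩, h'⟩)
        · exact ⟨⟨h, Or.inl ha, Or.inl hc'⟩, h'.imp Or.inl Or.inl⟩
        · exact ⟨⟨h, Or.inr ha, Or.inr hc'⟩, h'.imp Or.inr Or.inr⟩
    have u1 : (star (indu A Z₁) S₁).support ⊆ Z₁ := fun a ⟨c, h⟩ => h.1.2.1
    have u2 : (star (indu A Z₂) S₂).support ⊆ Z₂ := fun a ⟨c, h⟩ => h.1.2.1
    have hcd : ∃ c d, Z₁ ∩ Z₂ ⊆ {c, d} ∧ (c ≠ d → c ∈ Z₁ ∩ Z₂ ∧ d ∈ Z₁ ∩ Z₂) := by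
      rcases hS.2.1 with h | ⟨-, x, y, -, h⟩
      · rcases h.eq_empty_or_singleton with h | ⟨x, h⟩
        · obtain ⟨x⟩ := ‹Nonempty V›
          exact ⟨x, x, h ▸ Set.empty_subset _, fun g => absurd rfl g⟩
        · exact ⟨x, x, h ▸ by simp, fun g => absurd rfl g⟩
      · exact ⟨x, y, h.subset, fun _ => h ▸ ⟨Or.inl rfl, Or.inr rfl⟩⟩
    obtain ⟨c, d, hY, hcd⟩ := hcd
    have g1 : (star (indu A Z₂) S₂).Adj c d → (star (indu A Z₁) S₁).Adj c d := by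
      intro h
      obtain ⟨hc1, hd1⟩ := hcd h.ne
      exact ⟨⟨h.1.1, hc1.1, hd1.1⟩,
        h.2.imp (fun t => m1 c (Or.inr t) hc1.1) fun t => m1 d (Or.inr t) hd1.1⟩
    have g2 : c ≠ d → (star (indu A Z₂) S₂).IsBridge s(c, d) := fun h =>
      r2 c (hcd h).1 d (hcd h).2 h
    unfold xwrecB
    rw [he]
    exact ⟨glue_acyclic u1 u2 hY g1 g2 a1 a2, fun a ha a' ha' hne =>
      glue_bridge u1 u2 hY g1 g2 (hZ ha) (hZ ha') (r1 a ha a' ha' hne)⟩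

theorem exists_w (hF : Fam True A 𝒦) (b : Prop) (hb : b → ∀ K ∈ 𝒦, ¬ Cone K) :
    ∃ S : Set V, Indep A S ∧ (∀ K ∈ 𝒦, ∃ w ∈ S ∩ K.support, ∀ w' ∈ S ∩ K.support, w' = w) ∧
      (b → (star A S).IsAcyclic) := by
  rcases isEmpty_or_nonempty V with hV | hV
  · refine ⟨∅, fun a => isEmptyElim a, fun K hK => ?_, fun _ => xwrec_acyc Set.subsingleton_empty⟩
    obtain ⟨x, -⟩ := (hF.1 K hK).2.1.ne_bot
    exact isEmptyElim x
  have H : xwrecP A 𝒦 b Set.univ := by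
    refine rec_ind hF (xwrecP A 𝒦 b) (xwrec_h0 b) (xwrec_h1 hF b hb) ?_ _
    intro Z₁ Z₂ hS h1 h2 X W0 hX hZ hW hI
    rcases hS.side hX hZ with h | h
    · exact xwrec_glue b hS h1 h2 hX h hW hI
    · rw [Set.union_comm]
      exact xwrec_glue b hS.symm h2 h1 hX h hW hI
  obtain ⟨S, -, -, hI, hK, hB⟩ := H ∅ ∅ (Or.inl Set.subsingleton_empty) (Set.empty_subset _)
    subset_rfl fun a ha => ha.elim
  refine ⟨S, hI, fun K h => hK K h (Set.subset_univ _), fun h => ?_⟩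
  have : indu A Set.univ = A := by
    ext a c
    simp [indu]
  exact this ▸ (hB h).1

theorem not_has_sdiff_star {O : SimpleGraph W} {S : Set V}
    (h : ∀ K, Cop O A K → (S ∩ K.support).Nonempty) : ¬ Has O (A \ star A S) := by
  rintro ⟨K, hK⟩
  obtain ⟨w, hw, y, hy⟩ := h K ⟨hK.1, hK.2.trans sdiff_le⟩
  have := hK.2 hy
  exact this.2 ⟨this.1, Or.inl hw⟩

theorem not_has_star [Finite W] {O : SimpleGraph W} {S : Set V} (hO : TwoC O)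
    (h : ∀ K, Cop O A K → ∃ w ∈ S ∩ K.support, ∀ w' ∈ S ∩ K.support, w' = w) :
    ¬ Has O (star A S) := by
  rintro ⟨K, hK⟩
  obtain ⟨w, -, hu⟩ := h K ⟨hK.1, hK.2.trans fun a c g => g.1⟩
  refine not_twoC_of_star (w := w) (fun x y g => ?_) (hK.1.twoC hO)
  exact (hK.2 g).2.imp (fun t => hu x ⟨t, g.mem_support_left⟩) fun t =>
    hu y ⟨t, g.mem_support_right⟩

end Pool.Agent.MP_1c0fc2_co.RI
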