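import Pool.Agent.MP_1c0fc2_co.RI.L1
import Pool.Agent.MP_1c0fc2_co.RI.WRec
import Pool.Agent.MP_1c0fc2_co.RI.FRec
import Pool.Agent.MP_1c0fc2_co.RI.Deg2
import Pool.Agent.MP_1c0fc2_co.RI.FK3

open Function SimpleGraph

namespace Pool.Agent.MP_1c0fc2_co.RI

variable {W : Type} [Finite W] {H α A : SimpleGraph W}

omit [Finite W] in
theorem xpar_not_has {U : Set W} (h : ∀ K, Cop α A K → ∃ a ∈ U, ∃ b ∈ U, K.Adj a b) :
    ¬ Has α (A \ indu A U) := by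
  rintro ⟨K, hK⟩
  obtain ⟨a, ha, b, hb, hab⟩ := h K (hK.mono sdiff_le)
  have h1 := hK.2 hab
  rw [sdiff_adj] at h1
  exact h1.2 ⟨h1.1, ha, hb⟩

theorem exists_forest (hα : Mx H (RS H k2) α) (hA : A ≤ H) :
    ∃ U : Set W, (indu A U).IsAcyclic ∧ ¬ Has α (A \ indu A U) := by
  have hp := alpha_prime hα
  by_cases h3 : α.support.ncard = 3
  · have ht := twoC_three hp.1 h3
    have he : ec α = 3 := ht.ec_eq.trans ec_tri
    have hd := deg2 (H := H) fun J hJ u v huv hs =>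
      he ▸ hα.2.2 J hJ (rs_k2.2 ⟨u, v, huv, hs⟩)
    obtain ⟨U, h1, h2⟩ := exists_f3 (A := A) fun G hG => hd G (hG.trans hA)
    exact ⟨U, h1, xpar_not_has fun K hK => h2 K ⟨ht.trans hK.1, hK.2⟩⟩
  · obtain ⟨U, h1, h2⟩ := exists_f (fam_alpha hα hA) fun K hK =>
      ⟨IsCp.prime hK.1 hp, by
        have h4 := hp.1.1
        have h5 := IsCp.ncard hK.1
        omega⟩
    exact ⟨U, h1, xpar_not_has h2⟩

theorem exists_cut (hα : Mx H (RS H k2) α) (hA : A ≤ H) :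
    ∃ S : Set W, Indep A S ∧ ¬ Has α (A \ star A S) ∧ ¬ Has α (star A S) := by
  obtain ⟨S, h1, h2, -⟩ := exists_w (fam_alpha hα hA) False fun h => h.elim
  refine ⟨S, h1, not_has_sdiff_star fun K hK => ?_,
    not_has_star (alpha_prime hα).1 fun K hK => h2 K hK⟩
  obtain ⟨w, hw, -⟩ := h2 K hK
  exact ⟨w, hw⟩

end Pool.Agent.MP_1c0fc2_co.RI
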