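import Pool.Agent.MP_1c0fc2_co.RI.Two

open Function SimpleGraph

namespace Pool.Agent.MP_1c0fc2_co.RI

variable {V W : Type} [Finite V] {O : SimpleGraph W} {A : SimpleGraph V}

/-- a component of `G` inside `Z` -/
def xpeelComp (G : SimpleGraph V) (Z Q : Set V) : Prop :=
  Q.Nonempty ∧ Q ⊆ Z ∧ Cn G Q ∧ ∀ a ∈ Q, ∀ b ∈ Z, G.Adj a b → b ∈ Q

/-- the property that is minimised -/
def xpeelP (G L : SimpleGraph V) (U Z : Set V) (z : V) : Prop :=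
  Z ⊆ U ∧ (∃ a ∈ Z, ∃ b ∈ Z, L.Adj a b) ∧ ∀ Q, xpeelComp G Z Q → z ∉ Q →
    ∃ a ∈ Q, ∃ b ∈ Q, a ≠ b ∧ At L Z a ∧ At L Z b

omit [Finite V] in
theorem xpeel_comp (G : SimpleGraph V) {Z : Set V} {x : V} (hx : x ∈ Z) :
    ∃ Q, x ∈ Q ∧ xpeelComp G Z Q := by
  obtain ⟨Q, h1, h2, h3, h4⟩ := exists_comp G Z hx
  exact ⟨Q, h1, ⟨x, h1⟩, h2, h3, h4⟩

omit [Finite V] in
theorem xpeel_one {G L : SimpleGraph V} {U Z R : Set V} {z y : V} (h : xpeelP G L U Z z)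
    (hz : z ∉ R) (hR : ∀ a ∈ R, ∀ b ∈ Z, (G ⊔ L).Adj a b → b ∈ R ∨ b = y)
    (hl : ∃ a ∈ Z ∩ insert y R, ∃ b ∈ Z ∩ insert y R, L.Adj a b) :
    xpeelP G L U (Z ∩ insert y R) y := by
  refine ⟨Set.inter_subset_left.trans h.1, hl, fun Q hQ hy => ?_⟩
  have hQR : Q ⊆ R := fun a ha => ((hQ.2.1 ha).2).resolve_left fun e => hy (e ▸ ha)
  have hin : ∀ a ∈ Q, ∀ b ∈ Z, (G ⊔ L).Adj a b → b ∈ Z ∩ insert y R := fun a ha b hb hab =>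
    ⟨hb, (hR a (hQR ha) b hb hab).symm⟩
  obtain ⟨a, ha, b, hb, hab, ⟨c, hc, hac⟩, ⟨d, hd, hbd⟩⟩ := h.2.2 Q
    ⟨hQ.1, hQ.2.1.trans Set.inter_subset_left, hQ.2.2.1,
      fun a ha b hb hab => hQ.2.2.2 a ha b (hin a ha b hb (Or.inl hab)) hab⟩ fun e => hz (hQR e)
  exact ⟨a, ha, b, hb, hab, ⟨c, hin a ha c hc (Or.inr hac), hac⟩,
    ⟨d, hin b hb d hd (Or.inr hbd), hbd⟩⟩

omit [Finite V] in
theorem xpeel_two {G L : SimpleGraph V} {U Z R : Set V} {z y : V} (h : xpeelP G L U Z z)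
    (hz : z ∉ R) (hy : y ∉ R) (hR : ∀ a ∈ R, ∀ b ∈ Z, (G ⊔ L).Adj a b → b ∈ R ∨ b = y)
    (hl : ¬ ∃ a ∈ Z ∩ insert y R, ∃ b ∈ Z ∩ insert y R, L.Adj a b) :
    xpeelP G L U (Z \ R) z := by
  have key : ∀ a ∈ Z, ∀ b ∈ Z, L.Adj a b → a ∉ R := fun a ha b hb hab haR =>
    hl ⟨a, ⟨ha, Or.inr haR⟩, b, ⟨hb, (hR a haR b hb (Or.inr hab)).symm⟩, hab⟩
  refine ⟨Set.sdiff_subset.trans h.1, ?_, fun Q' hQ' hzQ => ?_⟩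
  · obtain ⟨a, ha, b, hb, hab⟩ := h.2.1
    exact ⟨a, ⟨ha, key a ha b hb hab⟩, b, ⟨hb, key b hb a ha hab.symm⟩, hab⟩
  obtain ⟨x, hx⟩ := hQ'.1
  obtain ⟨Q, hxQ, hQ⟩ := xpeel_comp G (hQ'.2.1 hx).1
  have hcn : Cn G (Q \ R) := by
    by_cases hyQ : y ∈ Q
    · exact hQ.2.2.1.diff_hang hyQ hy fun a ha b hb hab => hR a ha b (hQ.2.1 hb) (Or.inl hab)
    · have : Q \ R = Q := by
        refine Set.Subset.antisymm Set.sdiff_subset fun a ha => ⟨ha, fun haR => ?_⟩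
        refine (hQ'.2.1 hx).2 (hQ.2.2.1.closed ha haR (fun u _ huR v hv huv => ?_) hxQ)
        exact (hR u huR v (hQ.2.1 hv) (Or.inl huv)).resolve_right fun e => hyQ (e ▸ hv)
      rw [this]
      exact hQ.2.2.1
  have hsub : Q \ R ⊆ Q' := hcn.closed ⟨hxQ, (hQ'.2.1 hx).2⟩ hx
    fun u _ hu v hv huv => hQ'.2.2.2 u hu v ⟨hQ.2.1 hv.1, hv.2⟩ huv
  obtain ⟨a, ha, b, hb, hab, ⟨c, hc, hac⟩, ⟨d, hd, hbd⟩⟩ := h.2.2 Q hQ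
    fun e => hzQ (hsub ⟨e, hz⟩)
  exact ⟨a, hsub ⟨ha, key a (hQ.2.1 ha) c hc hac⟩, b, hsub ⟨hb, key b (hQ.2.1 hb) d hd hbd⟩, hab,
    ⟨c, ⟨hc, key c hc a (hQ.2.1 ha) hac.symm⟩, hac⟩,
    ⟨d, ⟨hd, key d hd b (hQ.2.1 hb) hbd.symm⟩, hbd⟩⟩

theorem xpeel_cn {G L : SimpleGraph V} {U Z : Set V} {z : V} (h : xpeelP G L U Z z)
    (hmin : ∀ Z' z', xpeelP G L U Z' z' → Z.ncard ≤ Z'.ncard) (y : V) :
    Cn (G ⊔ L) (Z \ {y}) := by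
  have key : ∀ R, xpeelComp (G ⊔ L) (Z \ {y}) R → z ∉ R → Z \ {y} ⊆ R := by
    intro R hR hz w hw
    by_contra hwR
    have hcl : ∀ a ∈ R, ∀ b ∈ Z, (G ⊔ L).Adj a b → b ∈ R ∨ b = y := fun a ha b hb hab =>
      (em (b = y)).symm.imp_left fun e => hR.2.2.2 a ha b ⟨hb, e⟩ hab
    by_cases hl : ∃ a ∈ Z ∩ insert y R, ∃ b ∈ Z ∩ insert y R, L.Adj a b
    · refine absurd (hmin _ _ (xpeel_one h hz hcl hl)) (not_le.2 (Set.ncard_lt_ncard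
        ⟨Set.inter_subset_left, fun e => ?_⟩))
      exact (e hw.1).2.elim hw.2 hwR
    · refine absurd (hmin _ _ (xpeel_two h hz (fun e => (hR.2.1 e).2 rfl) hcl hl))
        (not_le.2 (Set.ncard_lt_ncard ⟨Set.sdiff_subset, fun e => ?_⟩))
      obtain ⟨r, hr⟩ := hR.1
      exact (e (hR.2.1 hr).1).2 hr
  intro a ha b hb
  obtain ⟨R, haR, hR⟩ := xpeel_comp (G ⊔ L) ha
  obtain ⟨R', hbR, hR'⟩ := xpeel_comp (G ⊔ L) hb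
  have fin : ∀ S, S ⊆ Z \ {y} → Cn (G ⊔ L) S → a ∈ S → b ∈ S → Relation.ReflTransGen
      (fun u v => u ∈ Z \ {y} ∧ v ∈ Z \ {y} ∧ (G ⊔ L).Adj u v) a b := fun S hS hc h1 h2 =>
    Relation.ReflTransGen.mono (fun u v huv => ⟨hS huv.1, hS huv.2.1, huv.2.2⟩) _ _
      (hc a h1 b h2)
  by_cases h1 : z ∈ R
  · by_cases h2 : z ∈ R'
    · exact fin (R ∪ R') (Set.union_subset hR.2.1 hR'.2.1) (hR.2.2.1.union hR'.2.2.1 ⟨z, h1, h2⟩)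
        (Or.inl haR) (Or.inr hbR)
    · exact fin R' hR'.2.1 hR'.2.2.1 (key R' hR' h2 ha) hbR
  · exact fin R hR.2.1 hR.2.2.1 haR (key R hR h1 hb)

omit [Finite V] in
theorem xpeel_nbr {G : SimpleGraph V} {Q : Set V} (h : Cn G Q) {x w : V} (hx : x ∈ Q)
    (hw : w ∈ Q) (hne : w ≠ x) : ∃ y ∈ Q, G.Adj x y := by
  obtain ⟨y, hy, -, u, rfl, hu⟩ := h.exists_att (Set.singleton_subset_iff.2 hx)
    (Set.singleton_nonempty x) fun e => hne (e hw)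
  exact ⟨y, hy, hu.symm⟩

theorem xpeel_core {G L : SimpleGraph V} {U : Set V} {z₀ : V} (h₀ : xpeelP G L U U z₀)
    (hno : ∀ Q, Cn G Q → ∀ a ∈ Q, ∀ b ∈ Q, ¬ L.Adj a b) :
    ∃ J ≤ G ⊔ L, TwoC J ∧ (∃ z, ∀ x ∈ J.support, x ≠ z → ∃ y, J.Adj x y ∧ G.Adj x y) ∧
      ∃ a ∈ J.support, ∃ b ∈ J.support, L.Adj a b := by
  obtain ⟨Z, ⟨z, h⟩, hm⟩ := exists_minimalFor_of_wellFoundedLT (fun Z => ∃ z, xpeelP G L U Z z)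
    Set.ncard ⟨U, z₀, h₀⟩
  have hmin : ∀ Z' z', xpeelP G L U Z' z' → Z.ncard ≤ Z'.ncard := fun Z' z' h' =>
    (le_total _ _).elim id fun e => hm ⟨z', h'⟩ e
  have hcn := xpeel_cn h hmin
  have h3 : 3 ≤ Z.ncard := by
    have key : ∀ a ∈ Z, ∀ b ∈ Z, L.Adj a b → ∀ Q, a ∈ Q → xpeelComp G Z Q → z ∉ Q →
        3 ≤ Z.ncard := by
      intro a _ b hb hab Q haQ hQ hz
      obtain ⟨c, hc, d, hd, hcd, -⟩ := h.2.2 Q hQ hz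
      have hbQ : b ∉ Q := fun e => hno Q hQ.2.2.1 a haQ b e hab
      exact (Set.two_lt_ncard_iff (Set.toFinite Z)).2 ⟨c, d, b, hQ.2.1 hc, hQ.2.1 hd, hb, hcd,
        fun e => hbQ (e ▸ hc), fun e => hbQ (e ▸ hd)⟩
    obtain ⟨a, ha, b, hb, hab⟩ := h.2.1
    obtain ⟨Q, haQ, hQ⟩ := xpeel_comp G ha
    obtain ⟨Q', hbQ, hQ'⟩ := xpeel_comp G hb
    by_cases h1 : z ∈ Q
    · refine key b hb a ha hab.symm Q' hbQ hQ' fun h2 => ?_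
      exact hno _ (hQ.2.2.1.union hQ'.2.2.1 ⟨z, h1, h2⟩) a (Or.inl haQ) b (Or.inr hbQ) hab
    · exact key a ha b hb hab Q haQ hQ h1
  have hs : (indu (G ⊔ L) Z).support = Z := by
    refine Set.Subset.antisymm (fun x ⟨_, hx⟩ => hx.2.1) fun x hx => ?_
    obtain ⟨y, hy, hyx⟩ := Set.exists_ne_of_one_lt_ncard (by omega : 1 < Z.ncard) x
    have : ¬ Z ⊆ {x, y} := fun e => by
      have h1 := Set.ncard_le_ncard e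
      rw [Set.ncard_pair hyx.symm] at h1
      omega
    obtain ⟨w, hw, hw'⟩ := Set.not_subset.1 this
    obtain ⟨u, hu, hxu⟩ := xpeel_nbr (hcn y) (x := x) (w := w) ⟨hx, hyx.symm⟩
      ⟨hw, fun e => hw' (Or.inr e)⟩ fun e => hw' (Or.inl e)
    exact ⟨u, hxu, hx, hu.1⟩
  refine ⟨indu (G ⊔ L) Z, fun _ _ e => e.1, ⟨hs.symm ▸ h3, fun y => ?_⟩, ⟨z, fun x hx hxz => ?_⟩,
    hs.symm ▸ h.2.1⟩
  · rw [hs]
    exact (hcn y).mono' fun a ha b hb hab => ⟨hab, ha.1, hb.1⟩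
  · rw [hs] at hx
    obtain ⟨Q, hxQ, hQ⟩ := xpeel_comp G hx
    have : ∃ w ∈ Q, w ≠ x := by
      by_cases h1 : z ∈ Q
      · exact ⟨z, h1, hxz.symm⟩
      · obtain ⟨c, hc, d, hd, hcd, -⟩ := h.2.2 Q hQ h1
        by_cases e : c = x
        · exact ⟨d, hd, e ▸ hcd.symm⟩
        · exact ⟨c, hc, e⟩
    obtain ⟨w, hw, hwx⟩ := this
    obtain ⟨u, hu, hxu⟩ := xpeel_nbr hQ.2.2.1 hxQ hw hwx
    exact ⟨u, ⟨Or.inl hxu, hx, hQ.2.1 hu⟩, hxu⟩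

theorem dense_good [Nonempty V] (𝒞 : Set (Set V)) (hn : 𝒞.Nonempty)
    (hd : ∀ C ∈ 𝒞, ∀ C' ∈ 𝒞, C ≠ C' → Disjoint C C')
    (hc : ∀ C ∈ 𝒞, Cn (Un O A) C ∧ C ⊆ (Un O A).support)
    (hp : ∀ C ∈ 𝒞, ∀ c, ∃ x ∈ C, x ≠ c ∧ ∃ C' ∈ 𝒞, C' ≠ C ∧ At A C' x) :
    ∃ C ∈ 𝒞, ∃ C' ∈ 𝒞, C ≠ C' ∧ ∃ x ∈ C, ∃ y ∈ C', CR O A x y := by
  let G : SimpleGraph V :=
    { Adj := fun a b => (Un O A).Adj a b ∧ ∃ C ∈ 𝒞, a ∈ C ∧ b ∈ C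
      symm := ⟨fun _ _ ⟨h, C, h1, h2, h3⟩ => ⟨h.symm, C, h1, h3, h2⟩⟩
      loopless := ⟨fun _ h => h.1.ne rfl⟩ }
  let L : SimpleGraph V :=
    { Adj := fun a b => A.Adj a b ∧ ∃ C ∈ 𝒞, ∃ C' ∈ 𝒞, C ≠ C' ∧ a ∈ C ∧ b ∈ C'
      symm := ⟨fun _ _ ⟨h, C, h1, C', h2, h3, h4, h5⟩ => ⟨h.symm, C', h2, C, h1, h3.symm, h5, h4⟩⟩
      loopless := ⟨fun _ h => h.1.ne rfl⟩ }
  have huniq : ∀ C ∈ 𝒞, ∀ C' ∈ 𝒞, ∀ x ∈ C, x ∈ C' → C = C' := fun C h1 C' h2 x h3 h4 =>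
    by_contra fun e => Set.disjoint_left.1 (hd C h1 C' h2 e) h3 h4
  have hat : ∀ C ∈ 𝒞, ∀ c, ∃ x ∈ C, x ≠ c ∧ At L (⋃₀ 𝒞) x := by
    intro C hC c
    obtain ⟨x, hx, hxc, C', hC', hne, y, hy, hxy⟩ := hp C hC c
    exact ⟨x, hx, hxc, y, ⟨C', hC', hy⟩, hxy, C, hC, C', hC', hne.symm, hx, hy⟩
  have h₀ : xpeelP G L (⋃₀ 𝒞) (⋃₀ 𝒞) (Classical.arbitrary V) := by
    refine ⟨subset_rfl, ?_, fun Q hQ _ => ?_⟩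
    · obtain ⟨C, hC⟩ := hn
      obtain ⟨x, hx, -, y, hy, hxy⟩ := hat C hC (Classical.arbitrary V)
      exact ⟨x, ⟨C, hC, hx⟩, y, hy, hxy⟩
    · obtain ⟨x, hx⟩ := hQ.1
      obtain ⟨C, hC, hxC⟩ := hQ.2.1 hx
      have hcn : Cn G C := (hc C hC).1.mono' fun a ha b hb hab => ⟨hab, C, hC, ha, hb⟩
      have hsub : C ⊆ Q := hcn.closed hxC hx fun u _ hu v hv huv =>
        hQ.2.2.2 u hu v ⟨C, hC, hv⟩ huv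
      obtain ⟨a, ha, -, ha'⟩ := hat C hC x
      obtain ⟨b, hb, hba, hb'⟩ := hat C hC a
      exact ⟨a, hsub ha, b, hsub hb, hba.symm, ha', hb'⟩
  have hno : ∀ Q, Cn G Q → ∀ a ∈ Q, ∀ b ∈ Q, ¬ L.Adj a b := by
    rintro Q hQ a ha b hb ⟨-, C, hC, C', hC', hne, haC, hbC⟩
    refine hne (huniq C hC C' hC' b (hQ.closed ha haC ?_ hb) hbC)
    rintro u - hu v - ⟨-, D, hD, h1, h2⟩
    exact huniq D hD C hC u h1 hu ▸ h2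
  obtain ⟨J, hle, h2, ⟨z, hz⟩, a, ha, b, hb, -, C, hC, C', hC', hne, haC, hbC⟩ :=
    xpeel_core h₀ hno
  have hUA : Un O A ≤ A := sSup_le fun _ hJ => hJ.2
  refine ⟨C, hC, C', hC', hne, a, haC, b, hbC, (hc C hC).2 haC, (hc C' hC').2 hbC, J,
    ⟨h2, hle.trans (sup_le (fun _ _ e => hUA e.1) fun _ _ e => e.1), z, fun x hx hxz => ?_⟩, ha, hb⟩
  obtain ⟨y, h3, h4⟩ := hz x hx hxz
  exact ⟨y, h3, h4.1⟩

theorem peel [Nonempty V] (𝒞 : Set (Set V))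
    (hd : ∀ C ∈ 𝒞, ∀ C' ∈ 𝒞, C ≠ C' → Disjoint C C')
    (hc : ∀ C ∈ 𝒞, Cn (Un O A) C ∧ C ⊆ (Un O A).support)
    (hr : ∀ C ∈ 𝒞, ∀ C' ∈ 𝒞, C ≠ C' → ∀ x ∈ C, ∀ y ∈ C', ¬ CR O A x y) :
    ∃ ex : Set V → V, ∀ C ∈ 𝒞, ∀ C' ∈ 𝒞, C ≠ C' → ∀ x ∈ C, ∀ y ∈ C', A.Adj x y →
      x = ex C ∨ y = ex C' := by
  classical
  induction hk : 𝒞.ncard using Nat.strong_induction_on generalizing 𝒞 with
  | _ k ih =>
  rcases 𝒞.eq_empty_or_nonempty with rfl | hn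
  · exact ⟨fun _ => Classical.arbitrary V, fun _ h => h.elim⟩
  have : ¬ ∀ C ∈ 𝒞, ∀ c, ∃ x ∈ C, x ≠ c ∧ ∃ C' ∈ 𝒞, C' ≠ C ∧ At A C' x := fun hp => by
    obtain ⟨C, hC, C', hC', hne, x, hx, y, hy, h⟩ := dense_good 𝒞 hn hd hc hp
    exact hr C hC C' hC' hne x hx y hy h
  push Not at this
  obtain ⟨D, hD, c, hDc⟩ := this
  obtain ⟨ex, hex⟩ := ih (𝒞 \ {D}).ncard (hk ▸ Set.ncard_sdiff_singleton_lt_of_mem hD) (𝒞 \ {D})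
    (fun C h C' h' => hd C h.1 C' h'.1) (fun C h => hc C h.1)
    (fun C h C' h' => hr C h.1 C' h'.1) rfl
  refine ⟨update ex D c, fun C hC C' hC' hne x hx y hy hxy => ?_⟩
  by_cases h1 : C = D
  · subst h1
    rw [update_self]
    exact Or.inl (by_contra fun e => hDc x hx e C' hC' hne.symm ⟨y, hy, hxy⟩)
  by_cases h2 : C' = D
  · subst h2
    rw [update_self]
    exact Or.inr (by_contra fun e => hDc y hy e C hC hne ⟨x, hx, hxy.symm⟩)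
  rw [update_of_ne h1, update_of_ne h2]
  exact hex C ⟨hC, h1⟩ C' ⟨hC', h2⟩ hne x hx y hy hxy

end Pool.Agent.MP_1c0fc2_co.RI
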