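import Pool.Agent.MP_1c0fc2_co.RI.MZero

open Function SimpleGraph

namespace Pool.Agent.MP_1c0fc2_co.RI

variable {V V' W : Type} [Finite V] [Finite V'] [Finite W] {O : SimpleGraph W}

theorem Good.map {G J : SimpleGraph V} (h : Good O G J) {f : V → V'}
    (hf : Set.InjOn f G.support) : Good O (G.map f) (J.map f) := by
  obtain ⟨h1, h2, z, h3⟩ := h
  have hJ : Set.InjOn f J.support := hf.mono (support_mono h2)
  refine ⟨IsCp.twoC ⟨f, hJ, rfl⟩ h1, map_monotone f h2, f z, fun x hx hz => ?_⟩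
  rw [support_map_inj hJ] at hx
  obtain ⟨a, ha, rfl⟩ := hx
  obtain ⟨b, h4, h5⟩ := h3 a ha fun e => hz (congrArg f e)
  exact ⟨f b, (map_adj_inj hJ).2 ⟨a, b, h4, rfl, rfl⟩,
    un_map hf ((map_adj_inj (hf.mono (support_mono un_le))).2 ⟨a, b, h5, rfl, rfl⟩)⟩

theorem Good.mono {G G' J : SimpleGraph V} (h : Good O G J) (hle : G ≤ G') : Good O G' J := by
  obtain ⟨h1, h2, z, h3⟩ := h
  exact ⟨h1, h2.trans hle, z, fun x hx hz => (h3 x hx hz).imp fun y hy => ⟨hy.1, un_mono hle hy.2⟩⟩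

theorem Pot.of_has {A : SimpleGraph V} {B : SimpleGraph V'} {s : ℕ} (h : Pot O A s)
    (hB : Has B A) : Pot O B s := by
  obtain ⟨J, ⟨f, hf, rfl⟩, hle⟩ := hB
  have hu : Set.InjOn f (Un O B).support := hf.mono (support_mono un_le)
  have h1 : ∀ x ∈ (Un O B).support, f x ∈ (Un O A).support := fun x hx =>
    support_mono ((un_map hf).trans (un_mono hle)) (support_map_inj hu ▸ ⟨x, hx, rfl⟩)
  intro x hx
  refine lt_of_le_of_lt (Set.ncard_le_ncard_of_injOn f (fun y hy => ?_)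
    (hu.mono (cls_sub hx)) (Set.toFinite _)) (h _ (h1 x hx))
  show Relation.ReflTransGen _ _ _
  induction hy with
  | refl => exact .refl
  | tail _ hc ih =>
    obtain ⟨ha, hb, K, hK, ka, kb⟩ := hc
    have e := support_map_inj (hf.mono (support_mono hK.2.1))
    exact ih.tail ⟨h1 _ ha, h1 _ hb, K.map f, (hK.map hf).mono hle, e ▸ ⟨_, ka, rfl⟩,
      e ▸ ⟨_, kb, rfl⟩⟩

theorem Pot.mono {A : SimpleGraph V} {s s' : ℕ} (h : Pot O A s) (hs : s ≤ s') : Pot O A s' := by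
  exact fun x hx => (h x hx).trans_le hs

theorem exists_pot {A : SimpleGraph V} (hO : TwoC O) (h : Has O A) :
    ∃ s, ¬ Pot O A s ∧ Pot O A (s + 1) := by
  classical
  have h1 : ∃ s, Pot O A s := ⟨Nat.card V + 1, fun x _ => Nat.lt_succ_of_le (Set.ncard_le_card _)⟩
  have h0 : Nat.find h1 ≠ 0 := fun e => by
    obtain ⟨J, hJ⟩ := h
    obtain ⟨x, y, hxy⟩ := (hJ.1.twoC hO).ne_bot
    exact Nat.not_lt_zero _ (e ▸ Nat.find_spec h1 x ⟨y, hJ.le_un hxy⟩)
  obtain ⟨s, hs⟩ := Nat.exists_eq_succ_of_ne_zero h0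
  exact ⟨s, Nat.find_min h1 (by omega), by simpa only [hs] using Nat.find_spec h1⟩

end Pool.Agent.MP_1c0fc2_co.RI
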