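import Pool.Agent.MP_1c0fc2_co.RI.Prime

open Function SimpleGraph

namespace Pool.Agent.MP_1c0fc2_co.RI

variable {V W W' : Type} [Finite V] [Finite W] [Finite W']

omit [Finite V] in
theorem xpsi_supp {J K : SimpleGraph V} {x : V} :
    x ∈ (J ⊔ K).support ↔ x ∈ J.support ∨ x ∈ K.support := by
  simp only [mem_support, sup_adj, exists_or]

omit [Finite V] in
theorem xpsi_at {J : SimpleGraph V} {Q : Set V} {x : V} (h : At J Q x) : x ∈ J.support :=
  let ⟨y, _, hy⟩ := h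
  ⟨y, hy⟩

theorem xpsi_key {G J K : SimpleGraph V} (hK : TwoC K) (hKG : K ≤ G) (gJ : Gate True G J)
    (he : ∃ x y, J.Adj x y ∧ K.Adj x y) {u v : V} (hu : u ∈ J.support) (hu' : u ∉ K.support)
    (hv : v ∈ K.support) {Q : Set V} (hd : Disjoint Q J.support) (hQ : Cn G Q) (hvQ : v ∈ Q) :
    ¬ At G Q u := by
  intro hat
  obtain ⟨a, b, hJab, hKab⟩ := he
  obtain ⟨R, hvR, hR, hcR, -, p, hp, q, hq, hpq, ap, aq⟩ := hK.two_att (S := J.support) hJab.ne
    ⟨⟨b, hJab⟩, ⟨b, hKab⟩⟩ ⟨⟨a, hJab.symm⟩, ⟨a, hKab.symm⟩⟩ hv (Set.disjoint_left.1 hd hvQ)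
  have h := (gJ.2 _ (Q ∪ R) le_rfl
    (Set.disjoint_union_left.2 ⟨hd, Set.disjoint_left.2 fun z hz => (hR hz).2⟩)
    (hQ.union (hcR.mono hKG) ⟨v, hvQ, hvR⟩) p hp q hq hpq
    (ap.mono hKG Set.subset_union_right) (aq.mono hKG Set.subset_union_right)).2 u hu
    (hat.mono le_rfl Set.subset_union_left)
  rcases h with rfl | rfl
  · exact hu' (xpsi_at ap)
  · exact hu' (xpsi_at aq)

theorem EC.has {O : SimpleGraph W'} {J : SimpleGraph V} (h : EC O J) : Has O J := by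
  induction h with
  | base h => exact h.has
  | sup _ _ _ ih _ => exact ih.mono le_sup_left

theorem EC.le_un {O : SimpleGraph W'} {J : SimpleGraph V} (h : EC O J) : J ≤ Un O J := by
  induction h with
  | base h => exact Cop.le_un ⟨h, le_rfl⟩
  | sup _ _ _ ih ih' =>
    exact sup_le (ih.trans (un_mono le_sup_left)) (ih'.trans (un_mono le_sup_right))

theorem EC.twoC {O : SimpleGraph W'} {J : SimpleGraph V} (h : EC O J) (hO : TwoC O) :
    TwoC J := by
  induction h with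
  | base h => exact h.twoC hO
  | sup _ _ he ih ih' =>
    obtain ⟨x, y, h1, h2⟩ := he
    exact ih.sup ih' h1.ne ⟨⟨y, h1⟩, ⟨y, h2⟩⟩ ⟨⟨x, h1.symm⟩, ⟨x, h2.symm⟩⟩

/-- edge-chains of copies do not leave a closed subgraph -/
theorem EC.le {O : SimpleGraph W'} {G X J : SimpleGraph V} (h : EC O J) (hle : J ≤ G)
    (hX : ∀ K, Cop O G K → (∃ x y, K.Adj x y ∧ X.Adj x y) → K ≤ X)
    (he : ∃ x y, J.Adj x y ∧ X.Adj x y) : J ≤ X := by
  induction h with
  | base h => exact hX _ ⟨h, hle⟩ he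
  | sup _ _ hc ih ih' =>
    obtain ⟨x, y, h1, h2⟩ := hc
    obtain ⟨a, b, h3 | h3, h4⟩ := he
    · have h5 := ih (le_sup_left.trans hle) ⟨a, b, h3, h4⟩
      exact sup_le h5 (ih' (le_sup_right.trans hle) ⟨x, y, h2, h5 h1⟩)
    · have h5 := ih' (le_sup_right.trans hle) ⟨a, b, h3, h4⟩
      exact sup_le (ih (le_sup_left.trans hle) ⟨x, y, h1, h5 h2⟩) h5

theorem gate_sup {G J K : SimpleGraph V} (hJ : TwoC J) (hK : TwoC K) (hJG : J ≤ G) (hKG : K ≤ G)
    (gJ : Gate True G J) (gK : Gate True G K) (he : ∃ x y, J.Adj x y ∧ K.Adj x y) :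
    Gate True G (J ⊔ K) := by
  have key : ∀ u ∈ J.support, u ∉ K.support → ∀ v ∈ K.support, v ∉ J.support → ¬ G.Adj u v :=
    fun u hu hu' v hv hv' h => xpsi_key hK hKG gJ he hu hu' hv (Q := {v})
      (Set.disjoint_singleton_left.2 hv') (cn_of_subsingleton Set.subsingleton_singleton) rfl
      ⟨v, rfl, h⟩
  refine ⟨fun x hx y hy h => ?_, fun n Q hn hd hQ x hx y hy hxy ax ay => ?_⟩
  · rw [xpsi_supp] at hx hy
    by_cases hxJ : x ∈ J.support <;> by_cases hyJ : y ∈ J.support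
    · exact Or.inl (gJ.1 x hxJ y hyJ h)
    · have hyK := hy.resolve_left hyJ
      by_cases hxK : x ∈ K.support
      · exact Or.inr (gK.1 x hxK y hyK h)
      · exact (key x hxJ hxK y hyK hyJ h).elim
    · have hxK := hx.resolve_left hxJ
      by_cases hyK : y ∈ K.support
      · exact Or.inr (gK.1 x hxK y hyK h)
      · exact (key y hyJ hyK x hxK hxJ h.symm).elim
    · exact Or.inr (gK.1 x (hx.resolve_left hxJ) y (hy.resolve_left hyJ) h)
  · have hdJ : Disjoint Q J.support :=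
      Set.disjoint_left.2 fun z hz hz' => Set.disjoint_left.1 hd hz (xpsi_supp.2 (Or.inl hz'))
    have hdK : Disjoint Q K.support :=
      Set.disjoint_left.2 fun z hz hz' => Set.disjoint_left.1 hd hz (xpsi_supp.2 (Or.inr hz'))
    by_cases hall : ∀ z ∈ (J ⊔ K).support, At G Q z → z ∈ J.support
    · obtain ⟨h1, h2⟩ := gJ.2 n Q hn hdJ hQ x (hall x hx ax) y (hall y hy ay) hxy ax ay
      exact ⟨⟨trivial, Or.inl h1.2⟩, fun z hz az => h2 z (hall z hz az) az⟩
    · have hall' : ∀ z ∈ (J ⊔ K).support, At G Q z → z ∈ K.support := fun u hu au => by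
        by_contra huK
        refine hall fun v hv av => ?_
        by_contra hvJ
        exact xpsi_key hK hKG gJ he ((xpsi_supp.1 hu).resolve_right huK) huK
          ((xpsi_supp.1 hv).resolve_left hvJ) (Q := insert v Q)
          (Set.disjoint_insert_left.2 ⟨hvJ, hdJ⟩) (hQ.insert av) (Set.mem_insert _ _)
          (au.mono le_rfl (Set.subset_insert _ _))
      obtain ⟨h1, h2⟩ := gK.2 n Q hn hdK hQ x (hall' x hx ax) y (hall' y hy ay) hxy ax ay
      exact ⟨⟨trivial, Or.inr h1.2⟩, fun z hz az => h2 z (hall' z hz az) az⟩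

theorem EC.gate {O : SimpleGraph W'} {G J : SimpleGraph V} (h : EC O J) (hO : TwoC O)
    (hle : J ≤ G) (hg : ∀ K, Cop O G K → Gate True G K) : Gate True G J := by
  induction h with
  | base h => exact hg _ ⟨h, hle⟩
  | sup h h' he ih ih' =>
    exact gate_sup (h.twoC hO) (h'.twoC hO) (le_sup_left.trans hle) (le_sup_right.trans hle)
      (ih (le_sup_left.trans hle)) (ih' (le_sup_right.trans hle)) he

theorem fam_psi {H A β Ψ : SimpleGraph W} (hβ : TwoC β)
    (hg : ∀ K, Cop β H K → Gate True H K) (hΨ : Mx H (EC β) Ψ) (hA : A ≤ H) :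
    Fam True A {K | Cop Ψ A K} := by
  have hec : ∀ K, Cop Ψ A K → EC β K := fun K hK => hK.1.eC hΨ.2.1
  have hgt : ∀ K, Cop Ψ A K → Gate True H K := fun K hK =>
    (hec K hK).gate hβ (hK.2.trans hA) hg
  refine ⟨fun K hK => ⟨hK.2, (hec K hK).twoC hβ, (hgt K hK).mono hA⟩, fun K hK K' hK' hne => ?_⟩
  have hne' : ¬ ∃ x y, K.Adj x y ∧ K'.Adj x y := fun he => by
    have h1 := hΨ.2.2 _ (sup_le (hK.2.trans hA) (hK'.2.trans hA))
      (EC.sup (hec K hK) (hec K' hK') he)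
    exact hne ((eq_of_le_ec le_sup_left (h1.trans hK.1.ec_eq.ge)).trans
      (eq_of_le_ec le_sup_right (h1.trans hK'.1.ec_eq.ge)).symm)
  have h2 := (hec K' hK').twoC hβ
  refine unc_of_subsingleton h2 fun a ha b hb => ?_
  by_contra hab
  by_cases hs : K'.support ⊆ K.support
  · obtain ⟨x, y, hxy⟩ := h2.ne_bot
    exact hne' ⟨x, y, (hgt K hK).1 x (hs ⟨y, hxy⟩) y (hs ⟨x, hxy.symm⟩)
      (hA (hK'.2 hxy)), hxy⟩
  · obtain ⟨w, hw, hw'⟩ := Set.not_subset.1 hs
    obtain ⟨R, -, hR, hcR, -, p, hp, q, hq, hpq, ap, aq⟩ := h2.two_att (S := K.support) hab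
      ha hb hw hw'
    have hle := hK'.2.trans hA
    have h3 := ((hgt K hK).2 _ R le_rfl (Set.disjoint_left.2 fun z hz => (hR hz).2)
      (hcR.mono hle) p hp q hq hpq (ap.mono hle le_rfl) (aq.mono hle le_rfl)).1.2
    exact hne' ⟨p, q, h3, (hgt K' hK').1 p (xpsi_at ap) q (xpsi_at aq) (hA (hK.2 h3))⟩

end Pool.Agent.MP_1c0fc2_co.RI
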