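import Pool.Agent.MP_1c0fc2_co.RI.Two

open Function SimpleGraph

namespace Pool.Agent.MP_1c0fc2_co.RI

variable {V : Type} [Finite V] {k : Prop} {A : SimpleGraph V} {𝒦 : Set (SimpleGraph V)}

omit [Finite V] in
theorem xrec_ncard {Y : Set V} (h : Clq k A Y) : Y.ncard ≤ 2 := by
  rcases h with h | ⟨-, x, y, hxy, rfl⟩
  · rcases h.eq_empty_or_singleton with rfl | ⟨x, rfl⟩ <;> simp
  · exact (Set.ncard_pair hxy.ne).le

omit [Finite V] in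
theorem xrec_clq {K : SimpleGraph V} (hle : K ≤ A) (hg : Gate k A K) {Q : Set V}
    (hd : Disjoint Q K.support) (hQ : Cn A Q) : Clq k A {y | y ∈ K.support ∧ At A Q y} := by
  by_cases hs : ({y | y ∈ K.support ∧ At A Q y} : Set V).Subsingleton
  · exact Or.inl hs
  · obtain ⟨x, hx, y, hy, hxy⟩ := Set.not_subsingleton_iff.1 hs
    obtain ⟨⟨h1, h2⟩, h3⟩ := hg.2 Q.ncard Q le_rfl hd hQ x hx.1 y hy.1 hxy hx.2 hy.2
    refine Or.inr ⟨h1, x, y, hle h2, Set.Subset.antisymm (fun z hz => h3 z hz.1 hz.2) ?_⟩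
    rintro z (rfl | rfl)
    · exact hx
    · exact hy

theorem Sp.symm {Z₁ Z₂ : Set V} (h : Sp k A 𝒦 Z₁ Z₂) : Sp k A 𝒦 Z₂ Z₁ := by
  refine ⟨fun a ha b hb hab => h.1 b hb a ha hab.symm, Set.inter_comm Z₁ Z₂ ▸ h.2.1,
    fun K hK hs => (h.2.2 K hK (Set.union_comm Z₂ Z₁ ▸ hs)).symm⟩

theorem Sp.side {Z₁ Z₂ X : Set V} (h : Sp k A 𝒦 Z₁ Z₂) (hX : Clq k A X) (hs : X ⊆ Z₁ ∪ Z₂) :
    X ⊆ Z₁ ∨ X ⊆ Z₂ := by
  by_contra hc
  rw [not_or, Set.not_subset, Set.not_subset] at hc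
  obtain ⟨⟨b, hb, hb1⟩, a, ha, ha2⟩ := hc
  have ha1 : a ∈ Z₁ := (hs ha).resolve_right ha2
  have hb2 : b ∈ Z₂ := (hs hb).resolve_left hb1
  have hab : a ≠ b := fun e => hb1 (e ▸ ha1)
  refine h.1 a ⟨ha1, ha2⟩ b ⟨hb2, hb1⟩ ?_
  rcases hX with hX | ⟨-, x, y, hxy, rfl⟩
  · exact absurd (hX ha hb) hab
  · rcases ha with rfl | rfl <;> rcases hb with rfl | rfl
    · exact absurd rfl hab
    · exact hxy
    · exact hxy.symm
    · exact absurd rfl hab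

/-- induction along uncrossed clique separations -/
theorem rec_ind (hF : Fam k A 𝒦) (P : Set V → Prop)
    (h0 : ∀ Z, (∀ K ∈ 𝒦, ¬ K.support ⊆ Z) → P Z) (h1 : ∀ K ∈ 𝒦, P K.support)
    (h2 : ∀ Z₁ Z₂, Sp k A 𝒦 Z₁ Z₂ → P Z₁ → P Z₂ → P (Z₁ ∪ Z₂)) (Z : Set V) : P Z := by
  induction hn : Z.ncard using Nat.strong_induction_on generalizing Z with
  | _ n ih =>
  by_cases hK : ∀ K ∈ 𝒦, ¬ K.support ⊆ Z
  · exact h0 Z hK
  push Not at hK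
  obtain ⟨K, hK, hKZ⟩ := hK
  by_cases hZK : Z ⊆ K.support
  · exact Set.Subset.antisymm hKZ hZK ▸ h1 K hK
  obtain ⟨w, hw, hwK⟩ := Set.not_subset.1 hZK
  obtain ⟨Q, hwQ, hQZ, hQ, hcl⟩ := exists_comp A (Z \ K.support) (x := w) ⟨hw, hwK⟩
  obtain ⟨hle, h3, hg⟩ := hF.1 K hK
  have hd : Disjoint Q K.support := Set.disjoint_left.2 fun a ha => (hQZ ha).2
  have hY := xrec_clq hle hg hd hQ
  set Y : Set V := {y | y ∈ K.support ∧ At A Q y} with hYd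
  have hY1 : Y ⊆ Z \ Q := fun y hy => ⟨hKZ hy.1, fun hq => (hQZ hq).2 hy.1⟩
  have h2Z : Q ∪ Y ⊆ Z := Set.union_subset (fun a ha => (hQZ ha).1) fun a ha => (hY1 ha).1
  have hU : Z \ Q ∪ (Q ∪ Y) = Z := by
    refine Set.Subset.antisymm (Set.union_subset Set.sdiff_subset h2Z) fun a ha => ?_
    by_cases hq : a ∈ Q
    · exact Or.inr (Or.inl hq)
    · exact Or.inl ⟨ha, hq⟩
  have hI : Z \ Q ∩ (Q ∪ Y) = Y :=
    Set.Subset.antisymm (fun a ha => ha.2.resolve_left ha.1.2) fun a ha => ⟨hY1 ha, Or.inr ha⟩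
  have hS : Sp k A 𝒦 (Z \ Q) (Q ∪ Y) := by
    refine ⟨fun a ha b hb hab => ?_, hI.symm ▸ hY, fun K' hK' hs => ?_⟩
    · have hbQ : b ∈ Q := hb.1.resolve_right fun hy => hb.2 (hY1 hy)
      by_cases haK : a ∈ K.support
      · exact ha.2 (Or.inr ⟨haK, b, hbQ, hab⟩)
      · exact ha.1.2 (hcl b hbQ a ⟨ha.1.1, haK⟩ hab.symm)
    · rw [hU] at hs
      by_cases hm : ∃ a ∈ K'.support, a ∈ Q
      · obtain ⟨a, ha, haQ⟩ := hm
        have hne : K ≠ K' := fun e => (hQZ haQ).2 (e ▸ ha)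
        obtain ⟨-, u2, u3⟩ := hF.2 K hK K' hK' hne
        have hle' := (hF.1 K' hK').1
        have hD : K'.support \ K.support ⊆ Q :=
          u2.closed ⟨ha, (hQZ haQ).2⟩ haQ fun x _ hx y hy hxy =>
            hcl x hx y ⟨hs hy.1, hy.2⟩ (hle' hxy)
        refine Or.inr fun x hx => ?_
        by_cases hxK : x ∈ K.support
        · exact Or.inr ⟨hxK, (u3 x ⟨hx, hxK⟩).mono hle' hD⟩
        · exact Or.inl (hD ⟨hx, hxK⟩)
      · exact Or.inl fun x hx => ⟨hs hx, fun hq => hm ⟨x, hx, hq⟩⟩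
  rw [← hU]
  refine h2 _ _ hS (ih _ ?_ _ rfl) (ih _ ?_ _ rfl)
  · rw [← hn]
    exact Set.ncard_lt_ncard ⟨Set.sdiff_subset, fun h => (h hw).2 hwQ⟩
  · rw [← hn]
    refine Set.ncard_lt_ncard ⟨h2Z, fun h => ?_⟩
    have a1 : K.support ⊆ Y := fun x hx =>
      (h (hKZ hx)).resolve_left fun hq => (hQZ hq).2 hx
    have a2 := Set.ncard_le_ncard a1
    have a3 := xrec_ncard hY
    have a4 := h3.1
    omega

theorem Fam.eq_of_sub (hF : Fam k A 𝒦) {K K' : SimpleGraph V} (hK : K ∈ 𝒦) (hK' : K' ∈ 𝒦)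
    (h : K'.support ⊆ K.support) : K' = K := by
  by_contra hne
  obtain ⟨x, hx⟩ := (hF.2 K hK K' hK' (Ne.symm hne)).1
  exact hx.2 (h hx.1)

end Pool.Agent.MP_1c0fc2_co.RI
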