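import Pool.Agent.MP_1c0fc2_co.RI.Leaf
import Pool.Agent.MP_1c0fc2_co.RI.Prime

open Function SimpleGraph

namespace Pool.Agent.MP_1c0fc2_co.RI

variable {W W' : Type} [Finite W] [Finite W'] {H A K : SimpleGraph W}

omit [Finite W'] in
theorem xtheta_sub {P : SimpleGraph W → Prop} {Θ J : SimpleGraph W} (hΘ : Mx H P Θ) (hA : A ≤ H)
    (hK : Cop Θ A K) (hle : J ≤ A) (hP : P (K ⊔ J)) : J ≤ K := by
  have h1 : ec (K ⊔ J) ≤ ec K := by
    rw [hK.1.ec_eq]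
    exact hΘ.2.2 _ ((sup_le hK.2 hle).trans hA) hP
  rw [eq_of_le_ec (le_sup_left : K ≤ K ⊔ J) h1]
  exact le_sup_right

theorem xtheta_unP {T : SimpleGraph W'} {J : SimpleGraph W} (hT : TwoC T) (h : IsCp T J) :
    UnP T J :=
  ⟨h.twoC hT, Cop.le_un ⟨h, le_rfl⟩⟩

omit [Finite W] in
theorem xtheta_cn (G : SimpleGraph W) (a : W) : Cn G {v | G.Reachable a v} := by
  refine cn_of_root a fun v hv => ?_
  have h := (reachable_iff_reflTransGen a v).1 hv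
  induction h with
  | refl => exact .refl
  | tail h1 h2 ih =>
    have h3 := (reachable_iff_reflTransGen _ _).2 h1
    exact (ih h3).tail ⟨h3, hv, h2⟩

omit [Finite W] in
theorem xtheta_stay {r : W → W → Prop} {a b : W} (h : Relation.ReflTransGen r a b)
    (hr : ∀ v, r a v → a = v) : a = b := by
  induction h with
  | refl => rfl
  | tail _ h2 ih => exact hr _ (ih ▸ h2)

section Th
variable {T : SimpleGraph W'} {Θ : SimpleGraph W}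

theorem exists_theta {T : SimpleGraph W} (hT : TwoC T) (hle : T ≤ H) : ∃ Θ, Mx H (UnP T) Θ := by
  exact exists_mx H (UnP T) ⟨T, hle, xtheta_unP hT (IsCp.refl T)⟩

theorem UnP.has {J : SimpleGraph W} (h : UnP T J) : Has T J := by
  obtain ⟨x, y, hxy⟩ := h.1.ne_bot
  obtain ⟨K, hK, -⟩ := un_adj.1 (h.2 hxy)
  exact ⟨K, hK⟩

theorem th_sub (hΘ : Mx H (UnP T) Θ) (hA : A ≤ H) (hK : Cop Θ A K) {J : SimpleGraph W}
    (hJ : UnP T J) (hle : J ≤ A) {x y : W} (hxy : x ≠ y) (hx : x ∈ K.support ∩ J.support)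
    (hy : y ∈ K.support ∩ J.support) : J ≤ K := by
  have h1 : UnP T K := hK.1.unP hΘ.2.1
  exact xtheta_sub hΘ hA hK hle ⟨h1.1.sup hJ.1 hxy hx hy,
    sup_le (h1.2.trans (un_mono le_sup_left)) (hJ.2.trans (un_mono le_sup_right))⟩

theorem th_gate (hT : TwoC T) (hΘ : Mx H (UnP T) Θ) (hA : A ≤ H) (hK : Cop Θ A K) :
    K ≤ Un T A ∧ Gate False (Un T A) K := by
  have h1 : UnP T K := hK.1.unP hΘ.2.1
  have h2 : K ≤ Un T A := h1.2.trans (un_mono hK.2)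
  refine ⟨h2, fun x hx y hy hxy => ?_, fun n Q _ hd hc x hx y hy hne hx' hy' => ?_⟩
  · obtain ⟨J, hJ, h3⟩ := un_adj.1 hxy
    exact th_sub hΘ hA hK (xtheta_unP hT hJ.1) hJ.2 h3.ne ⟨hx, y, h3⟩ ⟨hy, x, h3.symm⟩ h3
  · exfalso
    obtain ⟨J, h3, h4, h5⟩ := h1.1.ear h2 hd hc hne hx hy hx' hy'
    obtain ⟨J', h6, h7, h8⟩ := twoC_un hT h5 h4
    have h9 := support_mono (h3.le.trans h6)
    exact h3.not_ge (h6.trans (th_sub hΘ hA hK h8 h7 hne ⟨hx, h9 hx⟩ ⟨hy, h9 hy⟩))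

theorem th_leaf (hT : TwoC T) (hΘ : Mx H (UnP T) Θ) (hA : A ≤ H) : Leaf Θ A := by
  refine leaf_of_gate (Un T A) (fun K hK => ⟨(th_gate hT hΘ hA hK).1, hK.1.twoC hΘ.2.1.1,
    (th_gate hT hΘ hA hK).2⟩) fun K K' hK hK' hne x hx y hy => ?_
  by_contra hxy
  exact hne (le_antisymm (th_sub hΘ hA hK' (hK.1.unP hΘ.2.1) hK.2 hxy hx.symm hy.symm)
    (th_sub hΘ hA hK (hK'.1.unP hΘ.2.1) hK'.2 hxy hx hy))

theorem xtheta_flag (hT : TwoC T) (hΘ : Mx H (UnP T) Θ) (hA : A ≤ H) {M : SimpleGraph W}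
    (hM : Mt M) (hMU : M ≤ Un T A) {a b : W} (hab : M.Adj a b) (hK : Cop Θ A K)
    (hKab : K.Adj a b) (hF : Fl T K a b) :
    ¬ ((Un T (A \ M) ⊔ M).deleteEdges {s(a, b)}).Reachable a b := by
  intro hr
  have hG : (Un T (A \ M) ⊔ M).deleteEdges {s(a, b)} ≤ Un T A :=
    (deleteEdges_le _).trans (sup_le (un_mono sdiff_le) hMU)
  have ha : a ∈ K.support := ⟨b, hKab⟩
  have h := cn_tor (xtheta_cn _ a) K.support (x := a) (y := b) ⟨Reachable.refl a, ha⟩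
    ⟨hr, a, hKab.symm⟩
  refine hab.ne (xtheta_stay h ?_)
  rintro v ⟨-, ⟨-, hv⟩, h1 | ⟨Q, hQ, hc, h1, h2⟩⟩
  · exfalso
    rw [deleteEdges_adj, sup_adj] at h1
    obtain ⟨h2 | h2, h3⟩ := h1
    · obtain ⟨J, hJ, h4⟩ := un_adj.1 h2
      have h5 : J ≤ K := th_sub hΘ hA hK (xtheta_unP hT hJ.1) (hJ.2.trans sdiff_le) h4.ne
        ⟨ha, v, h4⟩ ⟨hv, a, h4.symm⟩
      exact (hJ.2 (hF J ⟨hJ.1, h5⟩ ⟨v, h4⟩)).2 hab
    · exact h3 (by rw [hM a v b h2 hab]; rfl)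
  · by_contra hne
    exact ((th_gate hT hΘ hA hK).2.2 _ Q le_rfl (Set.disjoint_left.2 fun z hz => (hQ hz).2)
      (hc.mono hG) a ha v hv hne (h1.mono hG le_rfl) (h2.mono hG le_rfl)).1.1

theorem iso_of_flags (hT : TwoC T) (hΘ : Mx H (UnP T) Θ) (hA : A ≤ H) {M : SimpleGraph W}
    (hM : Mt M) (hf : ∀ a b, M.Adj a b →
      ∃ K, Cop Θ A K ∧ K.Adj a b ∧ (Fl T K a b ∨ Fl T K b a)) : ISO T A M := by
  have hMU : M ≤ Un T A := fun a b hab => by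
    obtain ⟨K, hK, h1, -⟩ := hf a b hab
    exact (th_gate hT hΘ hA hK).1 h1
  intro a b hab
  obtain ⟨K, hK, h1, h2 | h2⟩ := hf a b hab
  · exact isBridge_iff.2 (xtheta_flag hT hΘ hA hM hMU hab hK h1 h2)
  · rw [Sym2.eq_swap]
    exact isBridge_iff.2 (xtheta_flag hT hΘ hA hM hMU hab.symm hK h1.symm h2)

end Th

section Bl
variable {O : SimpleGraph W'} {B : SimpleGraph W}

theorem bl_sub (hB : Mx H (fun J => TwoC J ∧ Has O J) B) (hA : A ≤ H) (hK : Cop B A K)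
    {J : SimpleGraph W} (hJ : TwoC J) (hle : J ≤ A) {x y : W} (hxy : x ≠ y)
    (hx : x ∈ K.support ∩ J.support) (hy : y ∈ K.support ∩ J.support) : J ≤ K := by
  exact xtheta_sub hB hA hK hle ⟨(hK.1.twoC hB.2.1.1).sup hJ hxy hx hy,
    (hB.2.1.2.trans hK.1.has).mono le_sup_left⟩

theorem bl_gate (hB : Mx H (fun J => TwoC J ∧ Has O J) B) (hA : A ≤ H) (hK : Cop B A K) :
    Gate False A K := by
  refine ⟨fun x hx y hy hxy => ?_, fun n Q _ hd hc x hx y hy hne hx' hy' => ?_⟩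
  · have h1 : K ⊔ edge x y ≤ A := sup_le hK.2 ((edge_le_iff A).2 (Or.inr hxy))
    have h2 : (K ⊔ edge x y).support ⊆ K.support := by
      rintro z ⟨w, h | h⟩
      · exact ⟨w, h⟩
      · rw [edge_adj] at h
        rcases h.1 with ⟨rfl, -⟩ | ⟨rfl, -⟩
        exacts [hx, hy]
    have h3 := support_mono (le_sup_left : K ≤ K ⊔ edge x y)
    exact bl_sub hB hA hK ((hK.1.twoC hB.2.1.1).mono le_sup_left h2) h1 hxy.ne ⟨hx, h3 hx⟩
      ⟨hy, h3 hy⟩ (Or.inr ((edge_adj _ _ _ _).2 ⟨Or.inl ⟨rfl, rfl⟩, hxy.ne⟩))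
  · exfalso
    obtain ⟨J, h3, h4, h5⟩ := (hK.1.twoC hB.2.1.1).ear hK.2 hd hc hne hx hy hx' hy'
    have h9 := support_mono h3.le
    exact h3.not_ge (bl_sub hB hA hK h5 h4 hne ⟨hx, h9 hx⟩ ⟨hy, h9 hy⟩)

theorem xtheta_two (hB : Mx H (fun J => TwoC J ∧ Has O J) B) (hA : A ≤ H) (hK : Cop B A K)
    {K' : SimpleGraph W} (hK' : Cop B A K') (hne : K ≠ K') :
    (K.support ∩ K'.support).Subsingleton := by
  intro x hx y hy
  by_contra hxy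
  exact hne (le_antisymm (bl_sub hB hA hK' (hK.1.twoC hB.2.1.1) hK.2 hxy hx.symm hy.symm)
    (bl_sub hB hA hK (hK'.1.twoC hB.2.1.1) hK'.2 hxy hx hy))

theorem bl_leaf (hB : Mx H (fun J => TwoC J ∧ Has O J) B) (hA : A ≤ H) : Leaf B A := by
  exact leaf_of_gate A (fun K hK => ⟨hK.2, hK.1.twoC hB.2.1.1, bl_gate hB hA hK⟩)
    fun K K' hK hK' hne => xtheta_two hB hA hK hK' hne

theorem fam_bl (hB : Mx H (fun J => TwoC J ∧ Has O J) B) (hA : A ≤ H) :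
    Fam False A {K | Cop B A K} := by
  exact ⟨fun K hK => ⟨hK.2, hK.1.twoC hB.2.1.1, bl_gate hB hA hK⟩, fun K hK K' hK' hne =>
    unc_of_subsingleton (hK'.1.twoC hB.2.1.1) (xtheta_two hB hA hK hK' hne)⟩

end Bl

end Pool.Agent.MP_1c0fc2_co.RI
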