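import Pool.Agent.MP_1c0fc2_co.RI.Cp

open Function SimpleGraph

namespace Pool.Agent.MP_1c0fc2_co.RI

variable {V V' W W' : Type} [Finite V] [Finite V'] {O : SimpleGraph V'} {J : SimpleGraph V}

omit [Finite V] [Finite V'] in
theorem xtr_img {Q : Set V'} (h : Cn O Q) (f : V' → V) : Cn (O.map f) (f '' Q) :=
  h.image f fun a _ b _ hab => (em (f a = f b)).imp id (map_adj_apply' hab)

omit [Finite V] [Finite V'] in
theorem xtr_diff {f : V' → V} (hf : Set.InjOn f O.support) {T : Set V}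
    (h : Cn O (O.support \ f ⁻¹' T)) : Cn (O.map f) ((O.map f).support \ T) := by
  rw [support_map_inj hf, ← Set.image_sdiff_preimage]
  exact xtr_img h f

omit [Finite V] [Finite V'] in
theorem xtr_adj {f : V' → V} (hf : Set.InjOn f O.support) {a b : V'} (h : O.Adj a b) :
    (O.map f).Adj (f a) (f b) := (map_adj_inj hf).2 ⟨a, b, h, rfl, rfl⟩

omit [Finite V] [Finite V'] in
theorem xtr_sup (A B : SimpleGraph V') (f : V' → V) : (A ⊔ B).map f = A.map f ⊔ B.map f := by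
  refine le_antisymm ?_ (sup_le (map_monotone f le_sup_left) (map_monotone f le_sup_right))
  rintro _ _ ⟨h, a, b, hab, rfl, rfl⟩
  exact hab.imp (map_adj_apply' · h) (map_adj_apply' · h)

theorem IsCp.cn (h : IsCp O J) (hO : Cn O O.support) : Cn J J.support := by
  obtain ⟨f, hf, rfl⟩ := h
  rw [support_map_inj hf]
  exact xtr_img hO f

theorem IsCp.twoC (h : IsCp O J) (hO : TwoC O) : TwoC J := by
  refine ⟨h.ncard ▸ hO.1, fun x => ?_⟩
  obtain ⟨f, hf, rfl⟩ := h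
  refine xtr_diff hf ?_
  by_cases e : ∃ a ∈ O.support, f a = x
  · obtain ⟨a, ha, rfl⟩ := e
    convert hO.2 a using 1
    ext b
    exact and_congr_right fun hb => not_congr (hf.eq_iff hb ha)
  · convert hO.cn using 1
    ext b
    exact and_iff_left_of_imp fun hb h => e ⟨b, hb, h⟩

theorem IsCp.prime (h : IsCp O J) (hO : Prime O) : Prime J := by
  refine ⟨h.twoC hO.1, fun x y hxy => ?_⟩
  obtain ⟨f, hf, rfl⟩ := h
  obtain ⟨a, b, hab, rfl, rfl⟩ := (map_adj_inj hf).1 hxy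
  refine xtr_diff hf ?_
  convert hO.2 a b hab using 1
  ext c
  exact and_congr_right fun hc => not_congr
    (or_congr (hf.eq_iff hc hab.mem_support_left) (hf.eq_iff hc hab.mem_support_right))

theorem IsCp.cone (h : IsCp O J) (hO : Cone O) : Cone J := by
  obtain ⟨f, hf, rfl⟩ := h
  obtain ⟨c, hc, h⟩ := hO
  rw [Cone, support_map_inj hf]
  refine ⟨f c, ⟨c, hc, rfl⟩, ?_⟩
  rintro _ ⟨x, hx, rfl⟩ e
  exact xtr_adj hf (h x hx fun e' => e (congrArg f e'))

theorem IsCp.unP {T : SimpleGraph W} (h : IsCp O J) (hO : UnP T O) : UnP T J := by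
  refine ⟨h.twoC hO.1, ?_⟩
  obtain ⟨f, hf, rfl⟩ := h
  exact (map_monotone f hO.2).trans (un_map hf)

theorem IsCp.eC {T : SimpleGraph W} (h : IsCp O J) (hO : EC T O) : EC T J := by
  obtain ⟨f, hf, rfl⟩ := h
  induction hO with
  | base h => exact EC.base (h.map hf)
  | @sup A B _ _ h ihA ihB =>
    have hA := hf.mono (support_mono (le_sup_left : A ≤ A ⊔ B))
    have hB := hf.mono (support_mono (le_sup_right : B ≤ A ⊔ B))
    obtain ⟨x, y, h1, h2⟩ := h
    rw [xtr_sup]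
    exact EC.sup (ihA hA) (ihB hB) ⟨_, _, xtr_adj hA h1, xtr_adj hB h2⟩

theorem Stiff.map {H : SimpleGraph W} {ρ : Set V'} (h : Stiff H O ρ) (hρ : ρ ⊆ O.support)
    {f : V' → V} (hf : Set.InjOn f O.support) : Stiff H (O.map f) (f '' ρ) := by
  refine ⟨IsCp.twoC ⟨f, hf, rfl⟩ h.1, fun S' h1 h2 h3 ⟨h4, g, h5, h6⟩ => ?_⟩
  rw [support_map_inj hf] at h2
  have e : f '' (O.support ∩ f ⁻¹' S') = S' := by
    rw [Set.image_inter_preimage, Set.inter_eq_right.2 h2.1]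
  have hi := hf.mono (Set.inter_subset_left : O.support ∩ f ⁻¹' S' ⊆ _)
  have hA : ∀ {Q x}, At O Q x → At (O.map f) (f '' Q) (f x) := fun ⟨y, hy, hxy⟩ =>
    ⟨f y, ⟨y, hy, rfl⟩, xtr_adj hf hxy⟩
  have hD : ∀ {Q x}, Cn O Q → At O Q x → Disjoint Q (O.support ∩ f ⁻¹' S') →
      Disjoint (f '' Q) S' := fun hQ hx hd => Set.disjoint_left.2 fun _ ⟨y, hy, e⟩ hs =>
    Set.disjoint_left.1 hd hy ⟨hQ.sub_support hx hy, by rwa [Set.mem_preimage, e]⟩
  refine h.2 (O.support ∩ f ⁻¹' S') (fun x hx => ⟨hρ hx, h1 ⟨x, hx, rfl⟩⟩)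
    ⟨Set.inter_subset_left, fun hs => h2.2 ?_⟩ (by rwa [← hi.ncard_image, e])
    ⟨fun n Q _ hd hQ x hx y hy hxy ax ay => ⟨trivial, fun z hz az => ?_⟩, g ∘ f,
      h5.comp hi fun x hx => hx.2, fun a b hab => h6 _ _ ?_⟩
  · rintro _ ⟨x, hx, rfl⟩
    exact (hs hx).2
  · exact ((h4 _ (f '' Q) le_rfl (hD hQ ax hd) (xtr_img hQ f) _ hx.2 _ hy.2
      (fun e => hxy (hi hx hy e)) (hA ax) (hA ay)).2 _ hz.2 (hA az)).imp (hi hz hx) (hi hz hy)
  · obtain ⟨h7, ha, hb, h8⟩ := hab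
    exact ⟨fun e => h7 (hi ha hb e), ha.2, hb.2, h8.imp (xtr_adj hf) fun ⟨Q, q1, q2, q3, q4⟩ =>
      ⟨f '' Q, hD q2 q3 q1, xtr_img q2 f, hA q3, hA q4⟩⟩

theorem IsCp.rs {H : SimpleGraph W} {R₀ : SimpleGraph W'} (h : IsCp O J) (hO : RS H R₀ O) :
    RS H R₀ J := by
  obtain ⟨f, hf, rfl⟩ := h
  obtain ⟨R, h1, h2⟩ := hO
  have hs := support_mono h1.2
  refine ⟨R.map f, h1.map hf, ?_⟩
  rw [support_map_inj (hf.mono hs)]
  exact h2.map hs hf

theorem twoC_three (h : TwoC J) (h3 : J.support.ncard = 3) : IsCp tri J := by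
  obtain ⟨x, y, z, hxy, hxz, hyz, e⟩ := Set.ncard_eq_three.1 h3
  have hm : ∀ {a b}, J.Adj a b → (a = x ∨ a = y ∨ a = z) ∧ (b = x ∨ b = y ∨ b = z) ∧ a ≠ b :=
    fun hab => ⟨by simpa [e] using hab.mem_support_left,
      by simpa [e] using hab.mem_support_right, hab.ne⟩
  have key : ∀ a ∈ J.support, ∀ b ∈ J.support, a ≠ b → J.Adj a b := fun a ha b hb hab => by
    obtain ⟨u, w, huw, h1, h2⟩ := h.two_nbr ha
    have a1 := hm h1
    have a2 := hm h2
    rw [e] at hb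
    have : b = u ∨ b = w := by grind
    rcases this with rfl | rfl <;> assumption
  refine isCp_tri.2 ⟨x, y, z, hxy, hyz, hxz, le_antisymm (fun a b hab => ?_) ?_⟩
  · have := hm hab
    simp only [sup_adj, edge_adj]
    grind
  · have hx : x ∈ J.support := by simp [e]
    have hy : y ∈ J.support := by simp [e]
    have hz : z ∈ J.support := by simp [e]
    simp only [sup_le_iff, edge_le_iff]
    exact ⟨⟨Or.inr (key x hx y hy hxy), Or.inr (key y hy z hz hyz)⟩, Or.inr (key x hx z hz hxz)⟩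

theorem twoC_tri : TwoC tri := by
  refine ⟨by simp [tri], fun x a ha b hb => ?_⟩
  by_cases e : a = b
  · exact e ▸ Relation.ReflTransGen.refl
  · exact Relation.ReflTransGen.single ⟨ha, hb, e⟩

theorem ec_tri : ec tri = 3 := by
  rw [ec, tri, ← coe_edgeFinset, Set.ncard_coe_finset, card_edgeFinset_top_eq_card_choose_two]
  rfl

end Pool.Agent.MP_1c0fc2_co.RI
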