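import Pool.Agent.MP_1c0fc2_co.RI.Tr

open Function SimpleGraph

namespace Pool.Agent.MP_1c0fc2_co.RI

variable {V W : Type} [Finite V] {G J K : SimpleGraph V}

omit [Finite V] in
theorem xtwo_path {S T : Set V} (h : Cn G S) (hST : S ⊆ T) {a b : V} (ha : a ∈ S) (hb : b ∈ S) :
    Relation.ReflTransGen (fun u v => u ∈ T ∧ v ∈ T ∧ G.Adj u v) a b := by
  refine Relation.ReflTransGen.mono (fun u v h' => ?_) a b (h a ha b hb)
  exact ⟨hST h'.1, hST h'.2.1, h'.2.2⟩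

omit [Finite V] in
theorem xtwo_supp_sup : (J ⊔ K).support = J.support ∪ K.support := by
  ext a
  simp only [mem_support, sup_adj, Set.mem_union, exists_or]

omit [Finite V] in
theorem xtwo_indu {S T : Set V} (h : Cn G T) (hTS : T ⊆ S) : Cn (indu G S) T :=
  h.mono' fun _ ha _ hb hab => ⟨hab, hTS ha, hTS hb⟩

theorem xtwo_ext {A Q : Set V} (hA : Cn G A) (hA' : ∀ z, Cn G (A \ {z})) (hd : Disjoint Q A)
    (hQ : Cn G Q) {x y : V} (hxy : x ≠ y) (hx : x ∈ A) (hy : y ∈ A)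
    (hx' : At G Q x) (hy' : At G Q y)
    (hm : ∀ R ⊆ Q, R.Nonempty → Cn G (Q \ R) → ∃ z ∈ A, At G R z) :
    TwoC (indu G (A ∪ Q)) ∧ (indu G (A ∪ Q)).support = A ∪ Q := by
  obtain ⟨q, hq, hxq⟩ := hx'
  obtain ⟨r, hr, hyr⟩ := hy'
  have hs : (indu G (A ∪ Q)).support = A ∪ Q := by
    refine Set.Subset.antisymm (fun a ⟨b, hab⟩ => hab.2.1) ?_
    exact (xtwo_indu (hA.union_adj hQ hx hq hxq) subset_rfl).sub_support (x := x)
      ⟨q, Or.inr hq, hxq, Or.inl hx, Or.inr hq⟩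
  refine ⟨⟨?_, fun z => ?_⟩, hs⟩
  · rw [hs]
    refine (Set.two_lt_ncard (Set.toFinite _)).2 ⟨x, Or.inl hx, y, Or.inl hy, q, Or.inr hq, hxy,
      hxq.ne, fun e => Set.disjoint_left.1 hd hq (e ▸ hy)⟩
  · rw [hs]
    refine xtwo_indu ?_ Set.sdiff_subset
    by_cases hz : z ∈ Q
    · have hzA : z ∉ A := Set.disjoint_left.1 hd hz
      have hAs : A ⊆ (A ∪ Q) \ {z} := fun a ha => ⟨Or.inl ha, fun e => hzA (e ▸ ha)⟩
      refine cn_of_root x fun a ha => ?_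
      rcases ha.1 with haA | haQ
      · exact xtwo_path hA hAs hx haA
      · obtain ⟨R, haR, hR, hRc, hcl⟩ := exists_comp G (Q \ {z}) (x := a) ⟨haQ, ha.2⟩
        have h1 : Cn G (Q \ R) := hQ.diff_hang hz (fun h => (hR h).2 rfl) fun u hu v hv huv => by
          by_cases e : v = z
          · exact Or.inr e
          · exact Or.inl (hcl u hu v ⟨hv, e⟩ huv)
        obtain ⟨w, hw, v, hv, hwv⟩ := hm R (fun u hu => (hR hu).1) ⟨a, haR⟩ h1
        exact xtwo_path (hA.union_adj hRc hw hv hwv)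
          (Set.union_subset hAs fun u hu => ⟨Or.inr (hR hu).1, (hR hu).2⟩) (Or.inl hx) (Or.inr haR)
    · have e : (A ∪ Q) \ {z} = (A \ {z}) ∪ Q := by
        rw [Set.union_sdiff_distrib, Set.sdiff_singleton_eq_self hz]
      rw [e]
      by_cases hxz : x = z
      · exact (hA' z).union_adj hQ ⟨hy, fun e' => hxy (hxz.trans e'.symm)⟩ hr hyr
      · exact (hA' z).union_adj hQ ⟨hx, hxz⟩ hq hxq

theorem xtwo_ear {A Q : Set V} (hA : Cn G A) (hA' : ∀ z, Cn G (A \ {z})) (hd : Disjoint Q A)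
    (hQ : Cn G Q) {x y : V} (hxy : x ≠ y) (hx : x ∈ A) (hy : y ∈ A)
    (hx' : At G Q x) (hy' : At G Q y) : ∃ Q₀ ⊆ Q, Q₀.Nonempty ∧
    TwoC (indu G (A ∪ Q₀)) ∧ (indu G (A ∪ Q₀)).support = A ∪ Q₀ := by
  obtain ⟨Q₀, ⟨h1, h2, h3, h4⟩, hmin⟩ := (measure Set.ncard).wf.has_min
    {Q' : Set V | Q' ⊆ Q ∧ Cn G Q' ∧ At G Q' x ∧ At G Q' y} ⟨Q, subset_rfl, hQ, hx', hy'⟩
  refine ⟨Q₀, h1, ⟨_, h3.choose_spec.1⟩, xtwo_ext hA hA' (hd.mono_left h1) h2 hxy hx hy h3 h4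
    fun R hR ⟨r, hr⟩ hc => ?_⟩
  by_contra hn
  have key : ∀ u ∈ A, At G Q₀ u → At G (Q₀ \ R) u := fun u hu ⟨v, hv, huv⟩ =>
    ⟨v, ⟨hv, fun hvR => hn ⟨u, hu, v, hvR, huv⟩⟩, huv⟩
  refine hmin (Q₀ \ R) ⟨Set.sdiff_subset.trans h1, hc, key x hx h3, key y hy h4⟩ ?_
  exact Set.ncard_lt_ncard ⟨Set.sdiff_subset, fun h => (h (hR hr)).2 hr⟩ (Set.toFinite _)

omit [Finite V] in
theorem xtwo_tor {Z : Set V} (h : Cn J Z) (S : Set V) : Cn (tor J S) (Z ∩ S) := by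
  intro a ha b hb
  refine Relation.reflTransGen_closed (fun u v huv => ?_) a b (cn_tor h S ha hb)
  by_cases e : u = v
  · rw [e]
  · refine .single ⟨huv.1, huv.2.1, e, huv.1.2, huv.2.1.2, huv.2.2.imp id ?_⟩
    rintro ⟨Q, h1, h2⟩
    exact ⟨Q, Set.disjoint_left.2 fun w hw => (h1 hw).2, h2⟩

theorem TwoC.mono (h : TwoC J) (hle : J ≤ K) (hs : K.support ⊆ J.support) : TwoC K := by
  have e : K.support = J.support := Set.Subset.antisymm hs (support_mono hle)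
  exact ⟨e ▸ h.1, fun x => e ▸ (h.2 x).mono hle⟩

theorem TwoC.sup (h : TwoC J) (h' : TwoC K) {x y : V} (hxy : x ≠ y)
    (hx : x ∈ J.support ∩ K.support) (hy : y ∈ J.support ∩ K.support) : TwoC (J ⊔ K) := by
  refine ⟨h.1.trans (Set.ncard_le_ncard (support_mono le_sup_left)), fun z => ?_⟩
  rw [xtwo_supp_sup, Set.union_sdiff_distrib]
  refine ((h.2 z).mono le_sup_left).union ((h'.2 z).mono le_sup_right) ?_
  by_cases hxz : x = z
  · have hyz : y ≠ z := fun e => hxy (hxz.trans e.symm)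
    exact ⟨y, ⟨hy.1, hyz⟩, hy.2, hyz⟩
  · exact ⟨x, ⟨hx.1, hxz⟩, hx.2, hxz⟩

theorem twoC_ext (h : TwoC J) (hle : J ≤ G) {Q : Set V} (hd : Disjoint Q J.support)
    (hQ : Cn G Q) {x y : V} (hxy : x ≠ y) (hx : x ∈ J.support) (hy : y ∈ J.support)
    (hx' : At G Q x) (hy' : At G Q y)
    (hm : ∀ R ⊆ Q, R.Nonempty → Cn G (Q \ R) → ∃ z ∈ J.support, At G R z) :
    TwoC (indu G (J.support ∪ Q)) ∧ (indu G (J.support ∪ Q)).support = J.support ∪ Q := by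
  exact xtwo_ext (h.cn.mono hle) (fun z => (h.2 z).mono hle) hd hQ hxy hx hy hx' hy' hm

theorem TwoC.ear (h : TwoC J) (hle : J ≤ G) {Q : Set V} (hd : Disjoint Q J.support)
    (hQ : Cn G Q) {x y : V} (hxy : x ≠ y) (hx : x ∈ J.support) (hy : y ∈ J.support)
    (hx' : At G Q x) (hy' : At G Q y) : ∃ J', J < J' ∧ J' ≤ G ∧ TwoC J' := by
  obtain ⟨Q₀, h1, ⟨q, hq⟩, h2, h3⟩ :=
    xtwo_ear (h.cn.mono hle) (fun z => (h.2 z).mono hle) hd hQ hxy hx hy hx' hy'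
  refine ⟨indu G (J.support ∪ Q₀), lt_of_le_of_ne (fun a b hab => ⟨hle hab, Or.inl hab.mem_support_left,
    Or.inl hab.mem_support_right⟩) fun e => ?_, fun a b hab => hab.1, h2⟩
  rw [← e] at h3
  exact Set.disjoint_left.1 hd (h1 hq) (h3 ▸ Or.inr hq)

theorem TwoC.tor (h : TwoC J) {S : Set V} (hS : S ⊆ J.support) (h3 : 3 ≤ S.ncard) :
    TwoC (tor J S) ∧ (tor J S).support = S := by
  have hs : (RI.tor J S).support = S := by
    refine Set.Subset.antisymm (fun a ⟨b, hab⟩ => hab.2.1) fun a ha => ?_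
    obtain ⟨b, hb, hba⟩ := Set.exists_ne_of_one_lt_ncard (s := S) (by omega) a
    rcases (xtwo_tor h.cn S a ⟨hS ha, ha⟩ b ⟨hS hb, hb⟩).cases_head with e | ⟨c, hc, -⟩
    · exact absurd e.symm hba
    · exact hc.2.2.mem_support_left
  refine ⟨⟨hs.symm ▸ h3, fun z => ?_⟩, hs⟩
  have e : S \ {z} = (J.support \ {z}) ∩ S :=
    Set.ext fun a => ⟨fun ha => ⟨⟨hS ha.1, ha.2⟩, ha.1⟩, fun ha => ⟨ha.2, ha.1.2⟩⟩
  rw [hs, e]
  exact xtwo_tor (h.2 z) S

theorem exists_twoC (h : ¬ G.IsAcyclic) : ∃ J ≤ G, TwoC J := by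
  rw [isAcyclic_iff_forall_adj_isBridge] at h
  push Not at h
  obtain ⟨v, w, hvw, hb⟩ := h
  rw [isBridge_iff, not_not, reachable_iff_reflTransGen] at hb
  obtain ⟨Z, hv, -, hZ, hcl⟩ := exists_comp (G.deleteEdges {s(v, w)}) Set.univ (Set.mem_univ v)
  have hw : w ∈ Z := by
    have : ∀ u, Relation.ReflTransGen (G.deleteEdges {s(v, w)}).Adj v u → u ∈ Z := by
      intro u hu
      induction hu with
      | refl => exact hv
      | tail _ h2 ih => exact hcl _ ih _ (Set.mem_univ _) h2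
    exact this w hb
  have hQ : ∃ Q, Disjoint Q {v, w} ∧ Cn G Q ∧ At G Q v ∧ At G Q w := by
    by_contra hn
    have : ∀ u, Relation.ReflTransGen (fun a b => a ∈ Z ∩ {v, w} ∧ b ∈ Z ∩ {v, w} ∧
        ((G.deleteEdges {s(v, w)}).Adj a b ∨ ∃ Q ⊆ Z \ {v, w}, Cn (G.deleteEdges {s(v, w)}) Q ∧
          At (G.deleteEdges {s(v, w)}) Q a ∧ At (G.deleteEdges {s(v, w)}) Q b)) v u → u = v := by
      intro u hu
      induction hu with
      | refl => rfl
      | tail _ h2 ih =>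
        subst ih
        obtain ⟨-, ⟨-, e | e⟩, h3⟩ := h2
        · exact e
        · obtain rfl : _ = w := e
          rcases h3 with h3 | ⟨Q, q1, q2, q3, q4⟩
          · simp at h3
          · exact absurd ⟨Q, Set.disjoint_left.2 fun x hx => (q1 hx).2, q2.mono (deleteEdges_le _),
              q3.mono (deleteEdges_le _) subset_rfl, q4.mono (deleteEdges_le _) subset_rfl⟩ hn
    exact hvw.ne' (this w (cn_tor hZ {v, w} ⟨hv, Or.inl rfl⟩ ⟨hw, Or.inr rfl⟩))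
  obtain ⟨Q, q1, q2, q3, q4⟩ := hQ
  have hA : Cn G {v, w} :=
    (cn_of_subsingleton Set.subsingleton_singleton).insert ⟨w, rfl, hvw⟩
  have hA' : ∀ z, Cn G (({v, w} : Set V) \ {z}) := by
    intro z
    by_cases h1 : z ∈ ({v, w} : Set V)
    · refine cn_of_subsingleton fun a ha b hb => ?_
      have := hvw.ne
      simp only [Set.mem_sdiff, Set.mem_insert_iff, Set.mem_singleton_iff] at h1 ha hb
      grind
    · rwa [Set.sdiff_singleton_eq_self h1]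
  obtain ⟨Q₀, -, -, h2, -⟩ := xtwo_ear hA hA' q1 q2 hvw.ne (Or.inl rfl) (Or.inr rfl) q3 q4
  exact ⟨indu G ({v, w} ∪ Q₀), fun a b hab => hab.1, h2⟩

theorem le_or_le_of_cn {A B : SimpleGraph V} (h : Cn J J.support) (hle : J ≤ A ⊔ B)
    (hd : Disjoint A.support B.support) : J ≤ A ∨ J ≤ B := by
  by_cases h1 : ∃ a ∈ J.support, a ∈ A.support
  · obtain ⟨a, ha, haA⟩ := h1
    have key : ∀ x ∈ A.support, ∀ y, J.Adj x y → A.Adj x y := fun x hx y hxy =>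
      (hle hxy).resolve_right fun h' => Set.disjoint_left.1 hd hx h'.mem_support_left
    have h2 := h.closed ha haA fun x _ hx y _ hxy => (key x hx y hxy).mem_support_right
    exact Or.inl fun x y hxy => key x (h2 hxy.mem_support_left) y hxy
  · exact Or.inr fun x y hxy => (hle hxy).resolve_left fun h' =>
      h1 ⟨x, hxy.mem_support_left, h'.mem_support_left⟩

theorem twoC_un [Finite W] {T : SimpleGraph W} (hT : TwoC T) (h : TwoC J) (hle : J ≤ Un T G) :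
    ∃ J', J ≤ J' ∧ J' ≤ G ∧ UnP T J' := by
  obtain ⟨K, hKG, ⟨h1, h2, h3⟩, hmax⟩ := exists_mx G
    (fun K => J ≤ K ∧ TwoC K ∧ K ≤ J ⊔ Un T K) ⟨J, hle.trans un_le, le_rfl, h, le_sup_left⟩
  refine ⟨K, h1, hKG, h2, h3.trans (sup_le (fun x y hxy => ?_) le_rfl)⟩
  obtain ⟨C, hC, hCxy⟩ := un_adj.1 (hle hxy)
  have h4 : TwoC (K ⊔ C) := h2.sup (hC.1.twoC hT) hxy.ne
    ⟨(h1 hxy).mem_support_left, hCxy.mem_support_left⟩
    ⟨(h1 hxy).mem_support_right, hCxy.mem_support_right⟩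
  have h5 : K ⊔ C ≤ J ⊔ Un T (K ⊔ C) :=
    sup_le (h3.trans (sup_le_sup_left (un_mono le_sup_left) J))
      ((Cop.le_un ⟨hC.1, le_sup_right⟩).trans le_sup_right)
  have h6 : K = K ⊔ C := eq_of_le_ec le_sup_left
    (hmax _ (sup_le hKG hC.2) ⟨h1.trans le_sup_left, h4, h5⟩)
  exact un_adj.2 ⟨C, ⟨hC.1, h6 ▸ le_sup_right⟩, hCxy⟩

theorem not_twoC_of_mt {M : SimpleGraph V} (hM : Mt M) (hle : J ≤ M) : ¬ TwoC J := by
  intro h
  obtain ⟨x, y, hxy⟩ := h.ne_bot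
  obtain ⟨a, b, hab, ha, hb⟩ := h.two_nbr hxy.mem_support_left
  exact hab (hM x a b (hle ha) (hle hb))

theorem not_twoC_of_star {w : V} (h : ∀ x y, J.Adj x y → x = w ∨ y = w) : ¬ TwoC J := by
  intro hJ
  obtain ⟨x, y, hxy⟩ := hJ.ne_bot
  obtain ⟨a, b, hab, ha, hb⟩ := hJ.two_nbr hxy.mem_support_left
  by_cases e : x = w
  · subst e
    rcases (hJ.2 x a ⟨ha.mem_support_right, ha.ne'⟩ b
      ⟨hb.mem_support_right, hb.ne'⟩).cases_head with e | ⟨c, hc, -⟩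
    · exact hab e
    · exact (h a c hc.2.2).elim hc.1.2 hc.2.1.2
  · exact hab (((h x a ha).resolve_left e).trans ((h x b hb).resolve_left e).symm)

theorem Mt.isAcyclic {M : SimpleGraph V} (hM : Mt M) : M.IsAcyclic := by
  by_contra h
  obtain ⟨J, h1, h2⟩ := exists_twoC h
  exact not_twoC_of_mt hM h1 h2

theorem exists_side (h : G.IsAcyclic) : ∃ sd : V → Bool, ∀ a b, G.Adj a b → sd a ≠ sd b := by
  let c := h.coloringTwo
  exact ⟨fun a => finTwoEquiv (c a), fun a b hab e => c.valid hab (finTwoEquiv.injective e)⟩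

end Pool.Agent.MP_1c0fc2_co.RI
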