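import Pool.Agent.MP_1c0fc2_co.RI.Rec

open Function SimpleGraph

namespace Pool.Agent.MP_1c0fc2_co.RI

variable {V : Type} [Finite V] {A : SimpleGraph V} {𝒦 : Set (SimpleGraph V)}

/-- the statement proved by induction -/
def xvzeroP (A : SimpleGraph V) (𝒦 : Set (SimpleGraph V)) (Z X W : Set V) : Prop :=
  ∃ S ⊆ Z, W ⊆ S ∧ S ∩ X ⊆ W ∧ Indep A S ∧ (∀ K ∈ 𝒦, K.support ⊆ Z → (S ∩ K.support).Nonempty) ∧
    (∀ a ∈ Z, ∀ b ∈ S, ∀ c ∈ S, A.Adj a b → A.Adj a c → b = c) ∧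
    ∀ x ∈ X, x ∉ W → ∀ b ∈ S, ¬ A.Adj x b

omit [Finite V] in
theorem xvzero_small {Z X W S : Set V} (hS : S.Subsingleton) (hZ : S ⊆ Z) (hW : W ⊆ S)
    (hX : S ∩ X ⊆ W) (hK : ∀ K ∈ 𝒦, K.support ⊆ Z → (S ∩ K.support).Nonempty)
    (hn : ∀ x ∈ X, x ∉ W → ∀ b ∈ S, ¬ A.Adj x b) : xvzeroP A 𝒦 Z X W :=
  ⟨S, hZ, hW, hX, fun _ ha _ hb h => h.ne (hS ha hb), hK, fun _ _ _ hb _ hc _ _ => hS hb hc, hn⟩

omit [Finite V] in
theorem xvzero_glue {Z₁ Z₂ X W : Set V} (h : Sp False A 𝒦 Z₁ Z₂) (hX : X ⊆ Z₁)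
    (h1 : xvzeroP A 𝒦 Z₁ X W)
    (h2 : ∀ X' W' : Set V, X'.Subsingleton → X' ⊆ Z₂ → W' ⊆ X' → xvzeroP A 𝒦 Z₂ X' W') :
    xvzeroP A 𝒦 (Z₁ ∪ Z₂) X W := by
  obtain ⟨hn, hY, hK⟩ := h
  obtain ⟨S, a1, a2, a3, a4, a5, a6, a7⟩ := h1
  obtain ⟨T, b1, b2, b3, b4, b5, b6, b7⟩ := h2 (Z₁ ∩ Z₂) (S ∩ Z₂) (hY.resolve_right fun h => h.1)
    Set.inter_subset_right fun x hx => ⟨a1 hx.1, hx.2⟩
  have c1 : ∀ x ∈ S ∪ T, x ∈ Z₁ → x ∈ S := fun x hx h => hx.elim id fun e => (b3 ⟨e, h, b1 e⟩).1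
  have c2 : ∀ x ∈ S ∪ T, x ∈ Z₂ → x ∈ T := fun x hx h => hx.elim (fun e => b2 ⟨e, h⟩) id
  have c3 : S ∪ T ⊆ Z₁ ∪ Z₂ := Set.union_subset_union a1 b1
  have c4 : ∀ a ∈ Z₁, a ∉ Z₂ → ∀ b ∈ S ∪ T, A.Adj a b → b ∈ S := fun a ha ha' b hb e =>
    c1 b hb (by_contra fun h => hn a ⟨ha, ha'⟩ b ⟨(c3 hb).resolve_left h, h⟩ e)
  have c5 : ∀ a ∈ Z₂, a ∉ Z₁ → ∀ b ∈ S ∪ T, A.Adj a b → b ∈ T := fun a ha ha' b hb e =>
    c2 b hb (by_contra fun h => hn b ⟨(c3 hb).resolve_right h, h⟩ a ⟨ha, ha'⟩ e.symm)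
  have c6 : ∀ a ∈ Z₁, a ∉ S → ∀ b ∈ S ∪ T, A.Adj a b → b ∈ S := fun a ha ha' b hb e => by
    by_cases h : a ∈ Z₂
    · exact hb.resolve_right fun h' => b7 a ⟨ha, h⟩ (fun h => ha' h.1) b h' e
    · exact c4 a ha h b hb e
  have c7 : ∀ a ∈ S, ∀ b ∈ T, ¬ A.Adj a b := fun a ha b hb e => by
    by_cases h : a ∈ Z₂
    · exact b4 a (b2 ⟨ha, h⟩) b hb e
    · exact a4 a ha b (c4 a (a1 ha) h b (.inr hb) e) e
  have c8 : Indep A (S ∪ T) := fun a ha b hb e => by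
    rcases ha with ha | ha <;> rcases hb with hb | hb
    exacts [a4 a ha b hb e, c7 a ha b hb e, c7 b hb a ha e.symm, b4 a ha b hb e]
  refine ⟨S ∪ T, c3, a2.trans Set.subset_union_left, fun x hx => a3 ⟨c1 x hx.1 (hX hx.2), hx.2⟩,
    c8, fun K hK' hs => ?_, fun a ha b hb c hc e e' => ?_, fun x hx hx' b hb e => ?_⟩
  · rcases hK K hK' hs with h | h
    · exact (a5 K hK' h).mono (Set.inter_subset_inter_left _ Set.subset_union_left)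
    · exact (b5 K hK' h).mono (Set.inter_subset_inter_left _ Set.subset_union_right)
  · by_cases h : a ∈ Z₁
    · have h' : a ∉ S := fun h' => c8 a (.inl h') b hb e
      exact a6 a h b (c6 a h h' b hb e) c (c6 a h h' c hc e') e e'
    · have h' := ha.resolve_left h
      exact b6 a h' b (c5 a h' h b hb e) c (c5 a h' h c hc e') e e'
  · exact a7 x hx hx' b (c6 x (hX hx) (fun h => hx' (a3 ⟨h, hx⟩)) b hb e) e

theorem exists_v0 (hF : Fam False A 𝒦) (hc : ∀ K ∈ 𝒦, ¬ Cone K) :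
    ∃ S : Set V, Indep A S ∧ (∀ K ∈ 𝒦, (S ∩ K.support).Nonempty) ∧
      ∀ a b c, b ∈ S → c ∈ S → A.Adj a b → A.Adj a c → b = c := by
  have key := rec_ind hF
    (fun Z => ∀ X W : Set V, X.Subsingleton → X ⊆ Z → W ⊆ X → xvzeroP A 𝒦 Z X W)
    (fun Z hZ X W hX hXZ hW => xvzero_small (hX.anti hW) (hW.trans hXZ) subset_rfl
      Set.inter_subset_left (fun K hK h => absurd h (hZ K hK))
      fun x hx hx' b hb e => e.ne (hX hx (hW hb)))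
    (fun K hK X W hX hXZ hW => ?_) (fun Z₁ Z₂ h h1 h2 X W hX hXZ hW => ?_) Set.univ ∅ ∅
    Set.subsingleton_empty (Set.subset_univ _) subset_rfl
  · obtain ⟨S, -, -, -, h1, h2, h3, -⟩ := key
    exact ⟨S, h1, fun K hK => h2 K hK (Set.subset_univ _),
      fun a b c hb hc => h3 a (Set.mem_univ a) b hb c hc⟩
  · rcases W.eq_empty_or_nonempty with rfl | ⟨w, hw⟩
    · obtain ⟨w, hw, h1⟩ : ∃ w ∈ K.support, ∀ x ∈ X, w ≠ x ∧ ¬ A.Adj x w := by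
        rcases X.eq_empty_or_nonempty with rfl | ⟨x, hx⟩
        · obtain ⟨w, hw⟩ := Set.nonempty_of_ncard_ne_zero (s := K.support)
            (by have := (hF.1 K hK).2.1.1; omega)
          exact ⟨w, hw, fun _ h => h.elim⟩
        · have h := hc K hK
          simp only [Cone, not_exists, not_and, not_forall] at h
          obtain ⟨w, hw, h1, h2⟩ := h x (hXZ hx)
          exact ⟨w, hw, fun y hy => hX hx hy ▸
            ⟨h1, fun e => h2 ((hF.1 K hK).2.2.1 x (hXZ hx) w hw e)⟩⟩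
      refine xvzero_small (Set.subsingleton_singleton (a := w)) (Set.singleton_subset_iff.2 hw)
        (Set.empty_subset _) (fun x hx => (h1 x hx.2).1 hx.1.symm) (fun K' hK' h => ?_)
        fun x hx _ b hb => hb ▸ (h1 x hx).2
      rw [hF.eq_of_sub hK hK' h]
      exact ⟨w, rfl, hw⟩
    · refine xvzero_small (hX.anti hW) (hW.trans hXZ) subset_rfl Set.inter_subset_left
        (fun K' hK' h => ?_) fun x hx hx' b hb e => e.ne (hX hx (hW hb))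
      rw [hF.eq_of_sub hK hK' h]
      exact ⟨w, hw, hXZ (hW hw)⟩
  · rcases h.side (.inl hX) hXZ with h3 | h3
    · exact xvzero_glue h h3 (h1 X W hX h3 hW) h2
    · rw [Set.union_comm]
      exact xvzero_glue h.symm h3 (h2 X W hX h3 hW) h1

end Pool.Agent.MP_1c0fc2_co.RI
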